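import Mathlib
import Pool.Agent.Helper90.NTM.Num

/-!
# The constant as a combination of double series
-/

open Finset Filter Topology

namespace Pool.Agent.Helper90.NTM.Irr

/-- the number of `j` with `β * b ^ j ≤ m` -/
def cc (b β m : ℕ) : ℕ := Nat.clog b (m / β + 1)

lemma lt_cc {b β m j : ℕ} (hb : 1 < b) (hβ : 1 ≤ β) : j < cc b β m ↔ β * b ^ j ≤ m := by
  unfold cc
  rw [Nat.lt_clog_iff_pow_lt hb, Nat.lt_succ_iff, Nat.le_div_iff_mul_le hβ, mul_comm]

lemma cc_eq {b β m n : ℕ} (hb : 1 < b) (hβ : 1 ≤ β) (h1 : ∀ j, j < n → β * b ^ j ≤ m)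
    (h2 : m < β * b ^ n) : cc b β m = n := by
  apply le_antisymm
  · by_contra hcon
    push Not at hcon
    have := (lt_cc hb hβ).1 hcon
    omega
  · by_contra hcon
    push Not at hcon
    have := h1 _ hcon
    have h3 := (lt_cc hb hβ).2 this
    exact lt_irrefl _ h3

lemma cc_eq' {b β m n : ℕ} (hb : 1 < b) (hβ : 1 ≤ β) (h1 : n = 0 ∨ β * b ^ (n - 1) ≤ m)
    (h2 : m < β * b ^ n) : cc b β m = n := by
  refine cc_eq hb hβ ?_ h2
  intro j hj
  rcases h1 with h1 | h1
  · omega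
  · refine le_trans ?_ h1
    exact Nat.mul_le_mul_left _ (Nat.pow_le_pow_right (by omega) (by omega))

/-- `1 / max (α 4^i) (β 3^j)` -/
noncomputable def tm (α β : ℕ) (p : ℕ × ℕ) : ℝ :=
  1 / ((max (α * 4 ^ p.1) (β * 3 ^ p.2) : ℕ) : ℝ)

/-- the double series -/
noncomputable def T (α β : ℕ) : ℝ := ∑' p : ℕ × ℕ, tm α β p

lemma mx_pos {α β : ℕ} (hα : 1 ≤ α) (p : ℕ × ℕ) : 1 ≤ max (α * 4 ^ p.1) (β * 3 ^ p.2) :=
  le_trans (Nat.mul_pos hα (by positivity)) (le_max_left _ _)

lemma tm_nonneg (α β : ℕ) (p : ℕ × ℕ) : 0 ≤ tm α β p := by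
  unfold tm
  positivity

lemma tm_le {α β : ℕ} (hα : 1 ≤ α) (hβ : 1 ≤ β) (p : ℕ × ℕ) :
    tm α β p ≤ (1 / 2) ^ p.1 * (2 / 3) ^ p.2 := by
  unfold tm
  set m : ℕ := max (α * 4 ^ p.1) (β * 3 ^ p.2) with hm
  have h1 : (4 : ℝ) ^ p.1 ≤ m := by
    have : 4 ^ p.1 ≤ m := le_trans (Nat.le_mul_of_pos_left _ hα) (le_max_left _ _)
    exact_mod_cast this
  have h2 : (3 : ℝ) ^ p.2 ≤ m := by
    have : 3 ^ p.2 ≤ m := le_trans (Nat.le_mul_of_pos_left _ hβ) (le_max_right _ _)
    exact_mod_cast this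
  have h3 : (2 : ℝ) ^ p.1 * (3 / 2) ^ p.2 ≤ m := by
    refine (pow_le_pow_iff_left₀ (by positivity) (by positivity) two_ne_zero).1 ?_
    rw [mul_pow, ← pow_mul, ← pow_mul, mul_comm p.1, mul_comm p.2, pow_mul, pow_mul]
    have h4 : ((3 / 2 : ℝ) ^ 2) ^ p.2 ≤ 3 ^ p.2 := pow_le_pow_left₀ (by norm_num) (by norm_num) _
    have h5 : ((2 : ℝ) ^ 2) ^ p.1 = 4 ^ p.1 := by norm_num
    rw [h5, sq (m : ℝ)]
    exact mul_le_mul h1 (h4.trans h2) (by positivity) (by positivity)
  have h6 : (1 / 2 : ℝ) ^ p.1 * (2 / 3) ^ p.2 = 1 / ((2 : ℝ) ^ p.1 * (3 / 2) ^ p.2) := by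
    rw [one_div, one_div, mul_inv, ← inv_pow, ← inv_pow]
    norm_num
  rw [h6]
  exact one_div_le_one_div_of_le (by positivity) h3

lemma summ {α β : ℕ} (hα : 1 ≤ α) (hβ : 1 ≤ β) : Summable (tm α β) := by
  have h1 : Summable (fun p : ℕ × ℕ => (1 / 2 : ℝ) ^ p.1 * (2 / 3) ^ p.2) :=
    Summable.mul_of_nonneg (summable_geometric_of_lt_one (by norm_num) (by norm_num))
      (summable_geometric_of_lt_one (by norm_num) (by norm_num))
      (fun i => by positivity) (fun i => by positivity)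
  exact Summable.of_nonneg_of_le (tm_nonneg α β) (tm_le hα hβ) h1

lemma row_sum (m : ℕ) (hm : 1 ≤ m) :
    HasSum (fun t : ℕ => if m ≤ t + 1 then (1 : ℝ) / (((t : ℝ) + 1) * ((t : ℝ) + 2)) else 0)
      (1 / (m : ℝ)) := by
  rw [hasSum_iff_tendsto_nat_of_nonneg]
  · have key : ∀ n : ℕ, m - 1 ≤ n →
        ∑ t ∈ range n, (if m ≤ t + 1 then (1 : ℝ) / (((t : ℝ) + 1) * ((t : ℝ) + 2)) else 0) =
        1 / (m : ℝ) - 1 / ((n : ℝ) + 1) := by
      intro n hn
      induction n, hn using Nat.le_induction with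
      | base =>
        rw [sum_eq_zero]
        · have : ((m - 1 : ℕ) : ℝ) + 1 = m := by
            rw [Nat.cast_sub hm]
            push_cast
            ring
          rw [this]
          ring
        · intro t ht
          rw [mem_range] at ht
          rw [if_neg (by omega)]
      | succ n hn ih =>
        rw [sum_range_succ, ih, if_pos (by omega)]
        have h1 : (n : ℝ) + 1 ≠ 0 := by positivity
        have h2 : (n : ℝ) + 2 ≠ 0 := by positivity
        have h3 : (m : ℝ) ≠ 0 := by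
          have : m ≠ 0 := by omega
          exact_mod_cast this
        push_cast
        rw [show (n : ℝ) + 1 + 1 = (n : ℝ) + 2 by ring]
        field_simp
        ring
    have h1 : Tendsto (fun n : ℕ => 1 / (m : ℝ) - 1 / ((n : ℝ) + 1)) atTop
        (𝓝 (1 / (m : ℝ) - 0)) :=
      tendsto_const_nhds.sub tendsto_one_div_add_atTop_nhds_zero_nat
    rw [sub_zero] at h1
    refine h1.congr' ?_
    filter_upwards [eventually_ge_atTop (m - 1)] with n hn
    exact (key n hn).symm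
  · intro t
    split_ifs <;> positivity

theorem interchange {ι : Type} (m : ι → ℕ) (hm : ∀ i, 1 ≤ m i)
    (hs : Summable fun i => (1 : ℝ) / (m i : ℝ)) (w : ℕ → ℝ)
    (hw : ∀ t : ℕ, HasSum (fun i => if m i ≤ t + 1 then
      (1 : ℝ) / (((t : ℝ) + 1) * ((t : ℝ) + 2)) else 0) (w t)) :
    HasSum w (∑' i, (1 : ℝ) / (m i : ℝ)) := by
  set F : ι × ℕ → ℝ := fun p =>
    if m p.1 ≤ p.2 + 1 then (1 : ℝ) / (((p.2 : ℝ) + 1) * ((p.2 : ℝ) + 2)) else 0 with hF
  have hnn : 0 ≤ F := by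
    intro p
    simp only [hF, Pi.zero_apply]
    split_ifs <;> positivity
  have hrow : ∀ i, HasSum (fun t => F (i, t)) (1 / (m i : ℝ)) := fun i => row_sum (m i) (hm i)
  have hsF : Summable F := by
    rw [summable_prod_of_nonneg hnn]
    refine ⟨fun i => (hrow i).summable, ?_⟩
    refine hs.congr ?_
    intro i
    exact ((hrow i).tsum_eq).symm
  have h1 := HasSum.prod_fiberwise hsF.hasSum hrow
  have h2 : HasSum (F ∘ (Equiv.prodComm ℕ ι)) (∑' p, F p) :=
    (Equiv.prodComm ℕ ι).hasSum_iff.2 hsF.hasSum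
  have h3 := HasSum.prod_fiberwise h2 (g := w) (fun t => hw t)
  rw [h1.tsum_eq]
  exact h3

/-- the double series as a series over `t` -/
theorem hasSum_T {α β : ℕ} (hα : 1 ≤ α) (hβ : 1 ≤ β) :
    HasSum (fun t : ℕ => ((cc 4 α (t + 1) : ℝ) * (cc 3 β (t + 1) : ℝ)) /
      (((t : ℝ) + 1) * ((t : ℝ) + 2))) (T α β) := by
  refine interchange (fun p : ℕ × ℕ => max (α * 4 ^ p.1) (β * 3 ^ p.2)) (fun p => mx_pos hα p)
    (summ hα hβ) _ ?_
  intro t
  have h1 : ∀ p : ℕ × ℕ, p ∉ (range (cc 4 α (t + 1)) ×ˢ range (cc 3 β (t + 1)) : Finset (ℕ × ℕ)) →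
      (if max (α * 4 ^ p.1) (β * 3 ^ p.2) ≤ t + 1 then
        (1 : ℝ) / (((t : ℝ) + 1) * ((t : ℝ) + 2)) else 0) = 0 := by
    intro p hp
    rw [if_neg]
    intro hcon
    apply hp
    rw [mem_product, mem_range, mem_range, lt_cc (by norm_num) hα, lt_cc (by norm_num) hβ]
    exact ⟨le_trans (le_max_left _ _) hcon, le_trans (le_max_right _ _) hcon⟩
  have h2 := hasSum_sum_of_ne_finset_zero (L := SummationFilter.unconditional _) h1
  convert h2 using 1
  rw [Finset.sum_congr rfl (g := fun _ => (1 : ℝ) / (((t : ℝ) + 1) * ((t : ℝ) + 2)))]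
  · rw [Finset.sum_const, card_product, card_range, card_range, nsmul_eq_mul]
    push_cast
    ring
  · intro p hp
    rw [mem_product, mem_range, mem_range, lt_cc (by norm_num) hα, lt_cc (by norm_num) hβ] at hp
    rw [if_pos (max_le hp.1 hp.2)]

/-- the geometric series as a series over `t` -/
theorem hasSum_geo {b : ℕ} (hb : 2 ≤ b) :
    HasSum (fun t : ℕ => (cc b 1 (t + 1) : ℝ) / (((t : ℝ) + 1) * ((t : ℝ) + 2)))
      (1 - (b : ℝ)⁻¹)⁻¹ := by
  have hb0 : (0 : ℝ) < b := by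
    have : 0 < b := by omega
    exact_mod_cast this
  have hlt : (b : ℝ)⁻¹ < 1 := by
    apply inv_lt_one_of_one_lt₀
    have : 1 < b := by omega
    exact_mod_cast this
  have hg := hasSum_geometric_of_lt_one (inv_nonneg.2 hb0.le) hlt
  have hg' : HasSum (fun i : ℕ => (1 : ℝ) / ((b ^ i : ℕ) : ℝ)) (1 - (b : ℝ)⁻¹)⁻¹ := by
    convert hg using 2 with i
    push_cast
    rw [inv_pow, one_div]
  rw [← hg'.tsum_eq]
  refine interchange (fun i : ℕ => b ^ i) (fun i => Nat.one_le_pow _ _ (by omega)) hg'.summable _ ?_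
  intro t
  have h1 : ∀ i : ℕ, i ∉ range (cc b 1 (t + 1)) →
      (if b ^ i ≤ t + 1 then (1 : ℝ) / (((t : ℝ) + 1) * ((t : ℝ) + 2)) else 0) = 0 := by
    intro i hi
    rw [if_neg]
    intro hcon
    apply hi
    rw [mem_range, lt_cc (by omega) le_rfl, one_mul]
    exact hcon
  have h2 := hasSum_sum_of_ne_finset_zero (L := SummationFilter.unconditional _) h1
  convert h2 using 1
  rw [Finset.sum_congr rfl (g := fun _ => (1 : ℝ) / (((t : ℝ) + 1) * ((t : ℝ) + 2)))]
  · rw [Finset.sum_const, card_range, nsmul_eq_mul]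
    ring
  · intro i hi
    rw [mem_range, lt_cc (by omega) le_rfl, one_mul] at hi
    rw [if_pos hi]

lemma three_part (t : ℕ) (ht : 1 ≤ t) :
    cc 3 1 t = Nat.log 3 t + 1 ∧
    cc 3 2 t = Nat.log 3 t + (if 2 * 3 ^ Nat.log 3 t ≤ t then 1 else 0) ∧
    cc 3 3 t = Nat.log 3 t ∧
    cc 3 10 t = cc 3 12 t +
      (if 10 * 3 ^ Nat.log 3 t ≤ 9 * t ∧ 3 * t < 4 * 3 ^ Nat.log 3 t then 1 else 0) := by
  have h1 : 3 ^ Nat.log 3 t ≤ t := Nat.pow_log_le_self 3 (by omega)
  have h2 : t < 3 ^ (Nat.log 3 t + 1) := Nat.lt_pow_succ_log_self (by norm_num) t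
  set J := Nat.log 3 t with hJ
  have h3 : 3 ^ (J + 1) = 3 * 3 ^ J := by ring
  have h4 : J = 0 ∨ 3 ^ J = 3 * 3 ^ (J - 1) := by
    rcases Nat.eq_zero_or_pos J with h | h
    · exact Or.inl h
    · right
      obtain ⟨k, hk⟩ : ∃ k, J = k + 1 := ⟨J - 1, by omega⟩
      rw [hk, Nat.add_sub_cancel]
      ring
  refine ⟨?_, ?_, ?_, ?_⟩
  · refine cc_eq' (by norm_num) le_rfl (Or.inr ?_) ?_
    · rw [Nat.add_sub_cancel, one_mul]; exact h1
    · rw [one_mul]; exact h2
  · split_ifs with h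
    · refine cc_eq' (by norm_num) (by norm_num) (Or.inr ?_) ?_
      · rw [Nat.add_sub_cancel]; exact h
      · omega
    · refine cc_eq' (by norm_num) (by norm_num) ?_ ?_
      · rw [add_zero]
        rcases h4 with h4 | h4
        · exact Or.inl h4
        · right; omega
      · rw [add_zero]; omega
  · refine cc_eq' (by norm_num) (by norm_num) ?_ ?_
    · rcases h4 with h4 | h4
      · exact Or.inl h4
      · right; omega
    · omega
  · by_cases hJ2 : 2 ≤ J
    · obtain ⟨k, hk⟩ : ∃ k, J = k + 2 := ⟨J - 2, by omega⟩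
      rw [hk] at h1 h2 ⊢
      have e1 : 3 ^ (k + 2) = 9 * 3 ^ k := by ring
      have e2 : 3 ^ (k + 2 + 1) = 27 * 3 ^ k := by ring
      have e4 : k = 0 ∨ 3 ^ k = 3 * 3 ^ (k - 1) := by
        rcases Nat.eq_zero_or_pos k with h | h
        · exact Or.inl h
        · right
          obtain ⟨m, hm⟩ : ∃ m, k = m + 1 := ⟨k - 1, by omega⟩
          rw [hm, Nat.add_sub_cancel]
          ring
      have e5 : 3 ^ (k + 1) = 3 * 3 ^ k := by ring
      have c10 : cc 3 10 t = k + (if 10 * 3 ^ k ≤ t then 1 else 0) := by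
        split_ifs with h
        · refine cc_eq' (by norm_num) (by norm_num) (Or.inr ?_) ?_
          · rw [Nat.add_sub_cancel]; exact h
          · omega
        · refine cc_eq' (by norm_num) (by norm_num) ?_ ?_
          · rw [add_zero]
            rcases e4 with e4 | e4
            · exact Or.inl e4
            · right; omega
          · rw [add_zero]; omega
      have c12 : cc 3 12 t = k + (if 12 * 3 ^ k ≤ t then 1 else 0) := by
        split_ifs with h
        · refine cc_eq' (by norm_num) (by norm_num) (Or.inr ?_) ?_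
          · rw [Nat.add_sub_cancel]; exact h
          · omega
        · refine cc_eq' (by norm_num) (by norm_num) ?_ ?_
          · rw [add_zero]
            rcases e4 with e4 | e4
            · exact Or.inl e4
            · right; omega
          · rw [add_zero]; omega
      rw [c10, c12, e1]
      split_ifs <;> omega
    · have c10 : cc 3 10 t = 0 := by
        refine cc_eq' (by norm_num) (by norm_num) (Or.inl rfl) ?_
        have : J = 0 ∨ J = 1 := by omega
        rcases this with h | h <;> rw [h] at h2 <;> omega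
      have c12 : cc 3 12 t = 0 := by
        refine cc_eq' (by norm_num) (by norm_num) (Or.inl rfl) ?_
        have : J = 0 ∨ J = 1 := by omega
        rcases this with h | h <;> rw [h] at h2 <;> omega
      rw [c10, c12, if_neg]
      have : J = 0 ∨ J = 1 := by omega
      rcases this with h | h <;> rw [h] at h1 h2 ⊢ <;> omega

lemma e7_aux (m : ℕ) : (4 : ℕ) ^ (m + 1) = 4 * 4 ^ m := by ring

lemma four_part (t : ℕ) (ht : 1 ≤ t) :
    cc 4 1 t = Nat.log 2 t / 2 + 1 ∧ cc 4 2 t = Nat.log 2 t / 2 + Nat.log 2 t % 2 ∧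
    cc 4 4 t = Nat.log 2 t / 2 ∧
    (4 ≤ t → cc 4 4 t = cc 4 5 t +
      (if Nat.log 2 t % 2 = 0 ∧ 4 * t < 5 * 2 ^ Nat.log 2 t then 1 else 0)) ∧
    (t < 4 → cc 4 4 t = cc 4 5 t) := by
  have h1 : 2 ^ Nat.log 2 t ≤ t := Nat.pow_log_le_self 2 (by omega)
  have h2 : t < 2 ^ (Nat.log 2 t + 1) := Nat.lt_pow_succ_log_self (by norm_num) t
  set I := Nat.log 2 t with hI
  obtain ⟨k, r, hr, hk⟩ : ∃ k r, r < 2 ∧ I = 2 * k + r := ⟨I / 2, I % 2, by omega, by omega⟩
  have hd : I / 2 = k := by omega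
  have hm : I % 2 = r := by omega
  have e1 : 2 ^ I = 4 ^ k * 2 ^ r := by
    rw [hk, pow_add, pow_mul]
    norm_num
  have e2 : 2 ^ (I + 1) = 4 ^ k * 2 ^ r * 2 := by rw [pow_succ, e1]
  have e3 : 4 ^ (k + 1) = 4 * 4 ^ k := by ring
  have e4 : k = 0 ∨ 4 ^ k = 4 * 4 ^ (k - 1) := by
    rcases Nat.eq_zero_or_pos k with h | h
    · exact Or.inl h
    · right
      obtain ⟨m, hm⟩ : ∃ m, k = m + 1 := ⟨k - 1, by omega⟩
      rw [hm, Nat.add_sub_cancel]
      ring
  have hr2 : (r = 0 ∧ 2 ^ r = 1) ∨ (r = 1 ∧ 2 ^ r = 2) := by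
    have : r = 0 ∨ r = 1 := by omega
    rcases this with h | h <;> rw [h] <;> norm_num
  rw [e1] at h1 ⊢
  rw [e2] at h2
  rw [hd, hm]
  have c4 : cc 4 4 t = k := by
    refine cc_eq' (by norm_num) (by norm_num) ?_ ?_
    · rcases e4 with h | h
      · exact Or.inl h
      · right
        rcases hr2 with ⟨-, h'⟩ | ⟨-, h'⟩ <;> rw [h'] at h1 <;> omega
    · rcases hr2 with ⟨-, h'⟩ | ⟨-, h'⟩ <;> rw [h'] at h2 <;> omega
  refine ⟨?_, ?_, c4, ?_, ?_⟩
  · refine cc_eq' (by norm_num) le_rfl (Or.inr ?_) ?_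
    · rw [Nat.add_sub_cancel, one_mul]
      rcases hr2 with ⟨-, h'⟩ | ⟨-, h'⟩ <;> rw [h'] at h1 <;> omega
    · rw [one_mul]
      rcases hr2 with ⟨-, h'⟩ | ⟨-, h'⟩ <;> rw [h'] at h2 <;> omega
  · rcases hr2 with ⟨h0, h'⟩ | ⟨h0, h'⟩
    · rw [h'] at h1 h2
      rw [h0, add_zero]
      refine cc_eq' (by norm_num) (by norm_num) ?_ ?_
      · rcases e4 with h | h
        · exact Or.inl h
        · right; omega
      · omega
    · rw [h'] at h1 h2
      rw [h0]
      refine cc_eq' (by norm_num) (by norm_num) (Or.inr ?_) ?_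
      · rw [Nat.add_sub_cancel]; omega
      · omega
  · intro ht4
    rcases e4 with h | h
    · exfalso
      rw [h] at h2
      rcases hr2 with ⟨-, h'⟩ | ⟨-, h'⟩ <;> rw [h'] at h2 <;> omega
    · obtain ⟨m, hm'⟩ : ∃ m, k = m + 1 := by
        rcases Nat.eq_zero_or_pos k with h0 | h0
        · exfalso
          rw [h0] at h2
          rcases hr2 with ⟨-, h'⟩ | ⟨-, h'⟩ <;> rw [h'] at h2 <;> omega
        · exact ⟨k - 1, by omega⟩
      have e5 : 4 ^ k = 4 * 4 ^ m := by rw [hm']; ring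
      have c5 : cc 4 5 t = m + (if 5 * 4 ^ m ≤ t then 1 else 0) := by
        have e6 : m = 0 ∨ 4 ^ m = 4 * 4 ^ (m - 1) := by
          rcases Nat.eq_zero_or_pos m with h | h
          · exact Or.inl h
          · right
            obtain ⟨m', hm''⟩ : ∃ m', m = m' + 1 := ⟨m - 1, by omega⟩
            rw [hm'', Nat.add_sub_cancel]
            ring
        have e7 : 4 ^ (m + 1) = 4 * 4 ^ m := by ring
        split_ifs with h5
        · refine cc_eq' (by norm_num) (by norm_num) (Or.inr ?_) ?_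
          · rw [Nat.add_sub_cancel]; exact h5
          · rcases hr2 with ⟨-, h'⟩ | ⟨-, h'⟩ <;> rw [h'] at h2 <;> omega
        · refine cc_eq' (by norm_num) (by norm_num) ?_ ?_
          · rw [add_zero]
            rcases e6 with e6 | e6
            · exact Or.inl e6
            · right
              rcases hr2 with ⟨-, h'⟩ | ⟨-, h'⟩ <;> rw [h'] at h1 <;> omega
          · rw [add_zero]; omega
      rw [c4, c5, hm', e7_aux m]
      rcases hr2 with ⟨h0, h'⟩ | ⟨h0, h'⟩
      · rw [h'] at h1 h2 ⊢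
        rw [h0]
        split_ifs <;> omega
      · rw [h'] at h1 h2 ⊢
        rw [h0, if_pos (by omega), if_neg (by rintro ⟨h9, -⟩; exact one_ne_zero h9)]
  · intro ht4
    have hk0 : k = 0 := by
      rcases Nat.eq_zero_or_pos k with h0 | h0
      · exact h0
      · exfalso
        have : 4 ≤ 4 ^ k := by
          calc 4 = 4 ^ 1 := by norm_num
            _ ≤ 4 ^ k := Nat.pow_le_pow_right (by norm_num) h0
        rcases hr2 with ⟨-, h'⟩ | ⟨-, h'⟩ <;> rw [h'] at h1 <;> omega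
    have c5 : cc 4 5 t = 0 := cc_eq' (by norm_num) (by norm_num) (Or.inl rfl) (by omega)
    rw [c4, c5, hk0]

lemma G_formula (t : ℕ) (ht : 1 ≤ t) : (G t : ℝ) = cc 4 1 t + cc 3 1 t - 1 +
    (cc 4 2 t - cc 4 4 t) * (cc 3 2 t - cc 3 3 t) -
    (cc 4 4 t - cc 4 5 t) * (cc 3 10 t - cc 3 12 t) := by
  obtain ⟨a1, a2, a3, a4⟩ := three_part t ht
  obtain ⟨b1, b2, b3, b4, b5⟩ := four_part t ht
  have hgg : gg t = Nat.log 3 t + 1 + Nat.log 2 t / 2 +
      (Nat.log 2 t % 2) * (if 2 * 3 ^ Nat.log 3 t ≤ t then 1 else 0) := by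
    unfold gg
    have : Nat.log 2 t % 2 = 0 ∨ Nat.log 2 t % 2 = 1 := by omega
    rcases this with h | h <;> rw [h] <;> split_ifs <;> omega
  have hG : (G t : ℝ) = (gg t : ℝ) - (if Bad t then 1 else 0) := by
    unfold G
    rw [Nat.cast_sub]
    · push_cast
      rfl
    · split_ifs
      · rw [hgg]; omega
      · exact Nat.zero_le _
  have hbad : ((cc 4 4 t : ℝ) - cc 4 5 t) * ((cc 3 10 t : ℝ) - cc 3 12 t) =
      if Bad t then 1 else 0 := by
    rw [a4]
    by_cases h4 : 4 ≤ t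
    · rw [b4 h4]
      by_cases hA : 10 * 3 ^ Nat.log 3 t ≤ 9 * t ∧ 3 * t < 4 * 3 ^ Nat.log 3 t
      · by_cases hB : Nat.log 2 t % 2 = 0 ∧ 4 * t < 5 * 2 ^ Nat.log 2 t
        · rw [if_pos hA, if_pos hB, if_pos (show Bad t from ⟨hA.1, hA.2, hB.1, hB.2⟩)]
          push_cast
          ring
        · rw [if_pos hA, if_neg hB, if_neg (fun hb : Bad t => hB ⟨hb.2.2.1, hb.2.2.2⟩)]
          push_cast
          ring
      · rw [if_neg hA, if_neg (fun hb : Bad t => hA ⟨hb.1, hb.2.1⟩)]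
        push_cast
        ring
    · have hJ : ¬ (10 * 3 ^ Nat.log 3 t ≤ 9 * t ∧ 3 * t < 4 * 3 ^ Nat.log 3 t) := by
        have h1 : 3 ^ Nat.log 3 t ≤ t := Nat.pow_log_le_self 3 (by omega)
        have h2 : Nat.log 3 t < 2 := by
          by_contra hcon
          push Not at hcon
          have : 3 ^ 2 ≤ 3 ^ Nat.log 3 t := Nat.pow_le_pow_right (by norm_num) hcon
          omega
        have : Nat.log 3 t = 0 ∨ Nat.log 3 t = 1 := by omega
        rcases this with h | h <;> rw [h] <;> omega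
      rw [b5 (by omega), if_neg hJ, if_neg (by unfold Bad; tauto)]
      ring
  rw [hG, ← hbad, hgg, b1, b2, b3, a1, a2, a3]
  push_cast
  ring

/-- the constant as a combination of double series -/
theorem lam_T8 : 3 * lam = 11 / 6 + (T 2 2 - T 4 2 - T 2 3 + T 4 3) -
    (T 4 10 - T 5 10 - T 4 12 + T 5 12) := by
  have h0 : HasSum (fun i : ℕ => (G (i + 1) : ℝ) / (((i : ℝ) + 1) * ((i : ℝ) + 2))) (3 * lam) := by
    rw [lam_eq]
    exact hasSum_lam
  have h4 := hasSum_geo (b := 4) (by norm_num)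
  have h3 := hasSum_geo (b := 3) (by norm_num)
  have h1 := row_sum 1 le_rfl
  have g22 := hasSum_T (α := 2) (β := 2) (by norm_num) (by norm_num)
  have g42 := hasSum_T (α := 4) (β := 2) (by norm_num) (by norm_num)
  have g23 := hasSum_T (α := 2) (β := 3) (by norm_num) (by norm_num)
  have g43 := hasSum_T (α := 4) (β := 3) (by norm_num) (by norm_num)
  have g410 := hasSum_T (α := 4) (β := 10) (by norm_num) (by norm_num)
  have g510 := hasSum_T (α := 5) (β := 10) (by norm_num) (by norm_num)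
  have g412 := hasSum_T (α := 4) (β := 12) (by norm_num) (by norm_num)
  have g512 := hasSum_T (α := 5) (β := 12) (by norm_num) (by norm_num)
  have hall := (((h4.add h3).sub h1).add (((g22.sub g42).sub g23).add g43)).sub
    (((g410.sub g510).sub g412).add g512)
  have huniq := h0.unique (hall.congr_fun ?_)
  · rw [huniq]
    norm_num
  · intro t
    rw [G_formula (t + 1) (by omega)]
    have h1 : (t : ℝ) + 1 ≠ 0 := by positivity
    have h2 : (t : ℝ) + 2 ≠ 0 := by positivity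
    rw [if_pos (by omega)]
    field_simp
    ring

lemma T_rows {α β : ℕ} (hα : 1 ≤ α) (hβ : 1 ≤ β) : T α β = ∑' i, ∑' j, tm α β (i, j) :=
  (summ hα hβ).tsum_prod

lemma T_cols {α β : ℕ} (hα : 1 ≤ α) (hβ : 1 ≤ β) : T α β = ∑' j, ∑' i, tm α β (i, j) := by
  rw [T_rows hα hβ]
  exact (Summable.tsum_comm (f := fun i j => tm α β (i, j)) (summ hα hβ)).symm

lemma summ_rows {α β : ℕ} (hα : 1 ≤ α) (hβ : 1 ≤ β) :
    Summable (fun i => ∑' j, tm α β (i, j)) := (summ hα hβ).prod

lemma summ_cols {α β : ℕ} (hα : 1 ≤ α) (hβ : 1 ≤ β) :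
    Summable (fun j => ∑' i, tm α β (i, j)) := (summ hα hβ).prod_symm.prod

lemma T_scale {α β : ℕ} (k : ℕ) (hk : 1 ≤ k) : T (k * α) (k * β) = T α β / k := by
  unfold T
  rw [← tsum_div_const]
  apply tsum_congr
  intro p
  unfold tm
  have : max (k * α * 4 ^ p.1) (k * β * 3 ^ p.2) = k * max (α * 4 ^ p.1) (β * 3 ^ p.2) := by
    rw [mul_assoc, mul_assoc]
    exact (Nat.mul_max_mul_left k (α * 4 ^ p.1) (β * 3 ^ p.2))
  rw [this]
  have hk0 : (k : ℝ) ≠ 0 := by
    have : k ≠ 0 := by omega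
    exact_mod_cast this
  push_cast
  rw [one_div, mul_inv, one_div]
  rw [div_eq_mul_inv, mul_comm]

lemma T_shiftA {α β : ℕ} (hα : 1 ≤ α) (hβ : 1 ≤ β) :
    T α β = ∑' j, tm α β (0, j) + T (4 * α) β := by
  rw [T_rows hα hβ, T_rows (by omega) hβ, (summ_rows hα hβ).tsum_eq_zero_add]
  congr 1
  apply tsum_congr
  intro i
  apply tsum_congr
  intro j
  unfold tm
  simp only
  rw [pow_succ]
  congr 3
  ring

lemma T_shiftB {α β : ℕ} (hα : 1 ≤ α) (hβ : 1 ≤ β) :
    T α β = ∑' i, tm α β (i, 0) + T α (3 * β) := by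
  rw [T_cols hα hβ, T_cols hα (by omega), (summ_cols hα hβ).tsum_eq_zero_add]
  congr 1
  apply tsum_congr
  intro j
  apply tsum_congr
  intro i
  unfold tm
  simp only
  rw [pow_succ]
  congr 3
  ring

lemma row0 {α β : ℕ} (hβ : 1 ≤ β) (h : α ≤ β) :
    ∑' j, tm α β (0, j) = 3 / (2 * (β : ℝ)) := by
  have h1 : ∀ j, tm α β (0, j) = (1 / (β : ℝ)) * (1 / 3 : ℝ) ^ j := by
    intro j
    unfold tm
    simp only [pow_zero, mul_one]
    have : α ≤ β * 3 ^ j := le_trans h (Nat.le_mul_of_pos_right _ (by positivity))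
    rw [max_eq_right this]
    push_cast
    rw [one_div, mul_inv, one_div, one_div, inv_pow]
  have hb0 : (β : ℝ) ≠ 0 := by
    have : β ≠ 0 := by omega
    exact_mod_cast this
  rw [tsum_congr h1, tsum_mul_left, tsum_geometric_of_lt_one (by norm_num) (by norm_num)]
  field_simp
  norm_num

lemma col0 {α β : ℕ} (hα : 1 ≤ α) (h : β ≤ α) :
    ∑' i, tm α β (i, 0) = 4 / (3 * (α : ℝ)) := by
  have h1 : ∀ i, tm α β (i, 0) = (1 / (α : ℝ)) * (1 / 4 : ℝ) ^ i := by
    intro i
    unfold tm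
    simp only [pow_zero, mul_one]
    have : β ≤ α * 4 ^ i := le_trans h (Nat.le_mul_of_pos_right _ (by positivity))
    rw [max_eq_left this]
    push_cast
    rw [one_div, mul_inv, one_div, one_div, inv_pow]
  have ha0 : (α : ℝ) ≠ 0 := by
    have : α ≠ 0 := by omega
    exact_mod_cast this
  rw [tsum_congr h1, tsum_mul_left, tsum_geometric_of_lt_one (by norm_num) (by norm_num)]
  field_simp
  norm_num

theorem lam_T4 : 3 * lam = 31 / 12 + (7 / 4) * T 1 1 - (14 / 5) * T 1 2 - (1 / 2) * T 2 5 -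
    T 5 12 := by
  have a1 : T 2 2 = T 1 1 / 2 := by
    have := T_scale (α := 1) (β := 1) 2 (by norm_num)
    norm_num at this
    exact this
  have a2 : T 1 2 = 3 / 4 + T 4 2 := by
    have := T_shiftA (α := 1) (β := 2) (by norm_num) (by norm_num)
    rw [row0 (by norm_num) (by norm_num)] at this
    norm_num at this
    exact this
  have a3 : T 2 1 = 2 / 3 + T 2 3 := by
    have := T_shiftB (α := 2) (β := 1) (by norm_num) (by norm_num)
    rw [col0 (by norm_num) (by norm_num)] at this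
    norm_num at this
    exact this
  have a4 : T 4 2 = T 2 1 / 2 := by
    have := T_scale (α := 2) (β := 1) 2 (by norm_num)
    norm_num at this
    exact this
  have a5 : T 1 1 = 3 / 2 + T 4 1 := by
    have := T_shiftA (α := 1) (β := 1) (by norm_num) (by norm_num)
    rw [row0 (by norm_num) (by norm_num)] at this
    norm_num at this
    exact this
  have a6 : T 4 1 = 1 / 3 + T 4 3 := by
    have := T_shiftB (α := 4) (β := 1) (by norm_num) (by norm_num)
    rw [col0 (by norm_num) (by norm_num)] at this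
    norm_num at this
    exact this
  have a7 : T 4 10 = T 2 5 / 2 := by
    have := T_scale (α := 2) (β := 5) 2 (by norm_num)
    norm_num at this
    exact this
  have a8 : T 5 10 = T 1 2 / 5 := by
    have := T_scale (α := 1) (β := 2) 5 (by norm_num)
    norm_num at this
    exact this
  have a9 : T 4 12 = T 1 3 / 4 := by
    have := T_scale (α := 1) (β := 3) 4 (by norm_num)
    norm_num at this
    exact this
  have a10 : T 1 1 = 4 / 3 + T 1 3 := by
    have := T_shiftB (α := 1) (β := 1) (by norm_num) (by norm_num)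
    rw [col0 (by norm_num) (by norm_num)] at this
    norm_num at this
    exact this
  rw [lam_T8]
  linarith

end Pool.Agent.Helper90.NTM.Irr
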