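import Mathlib
import Pool.Agent.Helper90.NTM.Irr.Series

/-!
# Shifting the double series by (p, q) with 3^q / 4^p close to 1
-/

open Finset Filter Topology

namespace Pool.Agent.Helper90.NTM.Irr

/-- the number of `j` with `β * 3 ^ j ≤ α * 4 ^ i` -/
def Nn (α β i : ℕ) : ℕ := cc 3 β (α * 4 ^ i)

/-- the number of `i` with `α * 4 ^ i < β * 3 ^ j` -/
def Mm (α β j : ℕ) : ℕ := cc 4 α (β * 3 ^ j - 1)

lemma lt_Nn {α β i j : ℕ} (hβ : 1 ≤ β) : j < Nn α β i ↔ β * 3 ^ j ≤ α * 4 ^ i :=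
  lt_cc (by norm_num) hβ

lemma lt_Mm {α β i j : ℕ} (hα : 1 ≤ α) (hβ : 1 ≤ β) :
    i < Mm α β j ↔ α * 4 ^ i < β * 3 ^ j := by
  have h1 : 1 ≤ β * 3 ^ j := Nat.mul_pos hβ (by positivity)
  unfold Mm
  rw [lt_cc (by norm_num) hα]
  omega

lemma hasSum_A {α β : ℕ} (hα : 1 ≤ α) (hβ : 1 ≤ β) (i : ℕ) :
    HasSum (fun j => if β * 3 ^ j ≤ α * 4 ^ i then (1 : ℝ) / ((α : ℝ) * 4 ^ i) else 0)
      ((Nn α β i : ℝ) / 4 ^ i / α) := by
  have h1 : ∀ j ∉ range (Nn α β i),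
      (if β * 3 ^ j ≤ α * 4 ^ i then (1 : ℝ) / ((α : ℝ) * 4 ^ i) else 0) = 0 := by
    intro j hj
    rw [if_neg]
    rw [← lt_Nn hβ]
    rwa [mem_range] at hj
  have h2 := hasSum_sum_of_ne_finset_zero (L := SummationFilter.unconditional _) h1
  convert h2 using 1
  rw [Finset.sum_congr rfl (g := fun _ => (1 : ℝ) / ((α : ℝ) * 4 ^ i))]
  · rw [Finset.sum_const, card_range, nsmul_eq_mul]
    have ha0 : (α : ℝ) ≠ 0 := by
      have : α ≠ 0 := by omega
      exact_mod_cast this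
    field_simp
  · intro j hj
    rw [mem_range, lt_Nn hβ] at hj
    rw [if_pos hj]

lemma hasSum_B {α β : ℕ} (hα : 1 ≤ α) (hβ : 1 ≤ β) (j : ℕ) :
    HasSum (fun i => if α * 4 ^ i < β * 3 ^ j then (1 : ℝ) / ((β : ℝ) * 3 ^ j) else 0)
      ((Mm α β j : ℝ) / 3 ^ j / β) := by
  have h1 : ∀ i ∉ range (Mm α β j),
      (if α * 4 ^ i < β * 3 ^ j then (1 : ℝ) / ((β : ℝ) * 3 ^ j) else 0) = 0 := by
    intro i hi
    rw [if_neg]
    rw [← lt_Mm hα hβ]
    rwa [mem_range] at hi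
  have h2 := hasSum_sum_of_ne_finset_zero (L := SummationFilter.unconditional _) h1
  convert h2 using 1
  rw [Finset.sum_congr rfl (g := fun _ => (1 : ℝ) / ((β : ℝ) * 3 ^ j))]
  · rw [Finset.sum_const, card_range, nsmul_eq_mul]
    have hb0 : (β : ℝ) ≠ 0 := by
      have : β ≠ 0 := by omega
      exact_mod_cast this
    field_simp
  · intro i hi
    rw [mem_range, lt_Mm hα hβ] at hi
    rw [if_pos hi]

/-- the first part of the series -/
noncomputable def aa (α β : ℕ) : ℝ := ∑' i, (Nn α β i : ℝ) / 4 ^ i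

/-- the second part of the series -/
noncomputable def bb (α β : ℕ) : ℝ := ∑' j, (Mm α β j : ℝ) / 3 ^ j

lemma T_split {α β : ℕ} (hα : 1 ≤ α) (hβ : 1 ≤ β) :
    Summable (fun i => (Nn α β i : ℝ) / 4 ^ i) ∧ Summable (fun j => (Mm α β j : ℝ) / 3 ^ j) ∧
    T α β = aa α β / α + bb α β / β := by
  have ha0 : (α : ℝ) ≠ 0 := by
    have : α ≠ 0 := by omega
    exact_mod_cast this
  have hb0 : (β : ℝ) ≠ 0 := by
    have : β ≠ 0 := by omega
    exact_mod_cast this
  set A : ℕ × ℕ → ℝ := fun p =>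
    if β * 3 ^ p.2 ≤ α * 4 ^ p.1 then (1 : ℝ) / ((α : ℝ) * 4 ^ p.1) else 0 with hA
  set B : ℕ × ℕ → ℝ := fun p =>
    if α * 4 ^ p.1 < β * 3 ^ p.2 then (1 : ℝ) / ((β : ℝ) * 3 ^ p.2) else 0 with hB
  have hAB : ∀ p, tm α β p = A p + B p := by
    intro p
    simp only [hA, hB, tm]
    rcases le_or_gt (β * 3 ^ p.2) (α * 4 ^ p.1) with h | h
    · rw [if_pos h, if_neg (not_lt.2 h), max_eq_left h]
      push_cast
      ring
    · rw [if_neg (not_le.2 h), if_pos h, max_eq_right h.le]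
      push_cast
      ring
  have hA0 : ∀ p, 0 ≤ A p := by
    intro p
    simp only [hA]
    split_ifs <;> positivity
  have hB0 : ∀ p, 0 ≤ B p := by
    intro p
    simp only [hB]
    split_ifs <;> positivity
  have hsA : Summable A :=
    Summable.of_nonneg_of_le hA0 (fun p => by rw [hAB]; linarith [hB0 p]) (summ hα hβ)
  have hsB : Summable B :=
    Summable.of_nonneg_of_le hB0 (fun p => by rw [hAB]; linarith [hA0 p]) (summ hα hβ)
  have h1 : HasSum (fun i => (Nn α β i : ℝ) / 4 ^ i / α) (∑' p, A p) :=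
    HasSum.prod_fiberwise hsA.hasSum (fun i => hasSum_A hα hβ i)
  have hsB' : HasSum (B ∘ (Equiv.prodComm ℕ ℕ)) (∑' p, B p) :=
    (Equiv.prodComm ℕ ℕ).hasSum_iff.2 hsB.hasSum
  have h2 : HasSum (fun j => (Mm α β j : ℝ) / 3 ^ j / β) (∑' p, B p) :=
    HasSum.prod_fiberwise hsB' (fun j => hasSum_B hα hβ j)
  have h1' : Summable (fun i => (Nn α β i : ℝ) / 4 ^ i) := by
    have := h1.summable.mul_right (α : ℝ)
    refine this.congr ?_
    intro i
    field_simp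
  have h2' : Summable (fun j => (Mm α β j : ℝ) / 3 ^ j) := by
    have := h2.summable.mul_right (β : ℝ)
    refine this.congr ?_
    intro j
    field_simp
  refine ⟨h1', h2', ?_⟩
  have h3 : T α β = ∑' p, A p + ∑' p, B p := by
    unfold T
    rw [tsum_congr hAB, hsA.tsum_add hsB]
  rw [h3, ← h1.tsum_eq, ← h2.tsum_eq, tsum_div_const, tsum_div_const]
  rfl

/-- `log (α 4^i) - log (β 3^j)` -/
noncomputable def vv (α β : ℕ) (i j : ℕ) : ℝ :=
  Real.log α - Real.log β + i * Real.log 4 - j * Real.log 3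

lemma vv_nonneg_iff {α β : ℕ} (hα : 1 ≤ α) (hβ : 1 ≤ β) (i j : ℕ) :
    0 ≤ vv α β i j ↔ β * 3 ^ j ≤ α * 4 ^ i := by
  have ha : (0 : ℝ) < α := by exact_mod_cast hα
  have hb : (0 : ℝ) < β := by exact_mod_cast hβ
  have h1 : Real.log ((α : ℝ) * 4 ^ i) = Real.log α + i * Real.log 4 := by
    rw [Real.log_mul (ne_of_gt ha) (by positivity), Real.log_pow]
  have h2 : Real.log ((β : ℝ) * 3 ^ j) = Real.log β + j * Real.log 3 := by
    rw [Real.log_mul (ne_of_gt hb) (by positivity), Real.log_pow]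
  have h3 : Real.log ((β : ℝ) * 3 ^ j) ≤ Real.log ((α : ℝ) * 4 ^ i) ↔
      (β : ℝ) * 3 ^ j ≤ (α : ℝ) * 4 ^ i := Real.log_le_log_iff (by positivity) (by positivity)
  have h4 : ((β : ℝ) * 3 ^ j ≤ (α : ℝ) * 4 ^ i) ↔ β * 3 ^ j ≤ α * 4 ^ i := by
    constructor
    · intro h
      exact_mod_cast h
    · intro h
      exact_mod_cast h
  rw [← h4, ← h3, h1, h2]
  unfold vv
  constructor <;> intro h <;> linarith

/-- `x` lies between `0` and `e` -/
def Ev (e x : ℝ) : Prop := (0 ≤ x ∧ x < e) ∨ (e ≤ x ∧ x < 0)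

/-- the displacement -/
noncomputable def ee (p q : ℕ) : ℝ := q * Real.log 3 - p * Real.log 4

lemma vv_shift (α β p q i j : ℕ) : vv α β (i + p) (j + q) = vv α β i j - ee p q := by
  unfold vv ee
  push_cast
  ring

/-- the defect in the first part -/
def Dd (α β p q i : ℕ) : ℤ := (Nn α β (i + p) : ℤ) - q - Nn α β i

/-- the defect in the second part -/
def Dm (α β p q j : ℕ) : ℤ := (Mm α β (j + q) : ℤ) - p - Mm α β j

lemma log34 : 0 < Real.log 3 ∧ Real.log 3 < Real.log 4 :=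
  ⟨Real.log_pos (by norm_num), Real.log_lt_log (by norm_num) (by norm_num)⟩

lemma Dd_props {α β : ℕ} (hα : 1 ≤ α) (hβ : 1 ≤ β) {p q : ℕ} (he : |ee p q| < Real.log 3)
    (hk : ee p q ≤ vv α β 0 0 + Real.log 3) (i : ℕ) :
    |Dd α β p q i| ≤ 1 ∧ (Dd α β p q i ≠ 0 ↔ ∃ j, Ev (ee p q) (vv α β i j)) := by
  obtain ⟨h3, h34⟩ := log34
  have he' := abs_lt.1 he
  set e := ee p q with hedef
  have hs : ∀ i j, vv α β i (j + 1) = vv α β i j - Real.log 3 := by
    intro i j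
    unfold vv
    push_cast
    ring
  have h0 : ∀ j, j < Nn α β i ↔ 0 ≤ vv α β i j := by
    intro j
    rw [lt_Nn hβ, vv_nonneg_iff hα hβ]
  have h1 : ∀ j, j + q < Nn α β (i + p) ↔ e ≤ vv α β i j := by
    intro j
    rw [lt_Nn hβ, ← vv_nonneg_iff hα hβ, vv_shift]
    constructor <;> intro h <;> linarith
  have hq : q ≤ Nn α β (i + p) := by
    rcases Nat.eq_zero_or_pos q with hq0 | hq0
    · omega
    · obtain ⟨q', rfl⟩ : ∃ q', q = q' + 1 := ⟨q - 1, by omega⟩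
      rw [Nat.succ_le_iff, lt_Nn hβ, ← vv_nonneg_iff hα hβ]
      have e1 : vv α β (i + p) q' = vv α β 0 0 + i * Real.log 4 + Real.log 3 - e := by
        rw [hedef]
        unfold vv ee
        push_cast
        ring
      rw [e1]
      have : 0 ≤ (i : ℝ) * Real.log 4 := by
        have : 0 < Real.log 4 := h3.trans h34
        positivity
      linarith
  obtain ⟨n1, hn1⟩ : ∃ n1, Nn α β (i + p) = n1 + q := ⟨Nn α β (i + p) - q, by omega⟩
  have h1' : ∀ j, j < n1 ↔ e ≤ vv α β i j := by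
    intro j
    rw [← h1 j, hn1]
    omega
  have hD : Dd α β p q i = (n1 : ℤ) - Nn α β i := by
    unfold Dd
    rw [hn1]
    push_cast
    ring
  rw [hD]
  set n0 := Nn α β i with hn0
  have hle1 : n0 ≤ n1 + 1 := by
    by_contra hcon
    push Not at hcon
    have g1 := (h0 (n1 + 1)).1 (by omega)
    rw [hs] at g1
    have g2 := mt (h1' n1).2 (lt_irrefl _)
    linarith
  have hle2 : n1 ≤ n0 + 1 := by
    by_contra hcon
    push Not at hcon
    have g1 := (h1' (n0 + 1)).1 (by omega)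
    rw [hs] at g1
    have g2 := mt (h0 n0).2 (lt_irrefl _)
    linarith
  refine ⟨abs_le.2 ⟨by omega, by omega⟩, ?_, ?_⟩
  · intro hne
    rcases lt_trichotomy n1 n0 with h | h | h
    · refine ⟨n1, Or.inl ⟨(h0 n1).1 h, ?_⟩⟩
      exact not_le.1 (mt (h1' n1).2 (lt_irrefl _))
    · exact absurd (by rw [h]; ring) hne
    · refine ⟨n0, Or.inr ⟨(h1' n0).1 h, ?_⟩⟩
      exact not_le.1 (mt (h0 n0).2 (lt_irrefl _))
  · rintro ⟨j, ⟨h5, h6⟩ | ⟨h5, h6⟩⟩ hcon
    · have g1 := (h0 j).2 h5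
      have g2 := mt (h1' j).1 (not_le.2 h6)
      omega
    · have g1 := (h1' j).2 h5
      have g2 := mt (h0 j).1 (not_le.2 h6)
      omega

lemma Dm_props {α β : ℕ} (hα : 1 ≤ α) (hβ : 1 ≤ β) {p q : ℕ} (he : |ee p q| < Real.log 3)
    (hk : vv α β 0 0 - Real.log 4 < ee p q) (j : ℕ) :
    |Dm α β p q j| ≤ 1 ∧ (Dm α β p q j ≠ 0 → ∃ i, Ev (ee p q) (vv α β i j)) := by
  obtain ⟨h3, h34⟩ := log34
  have he' := abs_lt.1 he
  set e := ee p q with hedef
  have hs : ∀ i j, vv α β (i + 1) j = vv α β i j + Real.log 4 := by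
    intro i j
    unfold vv
    push_cast
    ring
  have h0 : ∀ i, i < Mm α β j ↔ vv α β i j < 0 := by
    intro i
    rw [lt_Mm hα hβ, ← not_le, ← not_le, vv_nonneg_iff hα hβ]
  have h1 : ∀ i, i + p < Mm α β (j + q) ↔ vv α β i j < e := by
    intro i
    rw [lt_Mm hα hβ, ← not_le, ← not_le, ← vv_nonneg_iff hα hβ, vv_shift]
    constructor <;> intro h h' <;> apply h <;> linarith
  have hp : p ≤ Mm α β (j + q) := by
    rcases Nat.eq_zero_or_pos p with hp0 | hp0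
    · omega
    · obtain ⟨p', rfl⟩ : ∃ p', p = p' + 1 := ⟨p - 1, by omega⟩
      rw [Nat.succ_le_iff, lt_Mm hα hβ, ← not_le, ← vv_nonneg_iff hα hβ]
      have e1 : vv α β p' (j + q) = vv α β 0 0 - j * Real.log 3 - Real.log 4 - e := by
        rw [hedef]
        unfold vv ee
        push_cast
        ring
      rw [e1]
      have : 0 ≤ (j : ℝ) * Real.log 3 := by positivity
      intro hcon
      linarith
  obtain ⟨n1, hn1⟩ : ∃ n1, Mm α β (j + q) = n1 + p := ⟨Mm α β (j + q) - p, by omega⟩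
  have h1' : ∀ i, i < n1 ↔ vv α β i j < e := by
    intro i
    rw [← h1 i, hn1]
    omega
  have hD : Dm α β p q j = (n1 : ℤ) - Mm α β j := by
    unfold Dm
    rw [hn1]
    push_cast
    ring
  rw [hD]
  set n0 := Mm α β j with hn0
  have hle1 : n0 ≤ n1 + 1 := by
    by_contra hcon
    push Not at hcon
    have g1 := (h0 (n1 + 1)).1 (by omega)
    rw [hs] at g1
    have g2 := mt (h1' n1).2 (lt_irrefl _)
    linarith
  have hle2 : n1 ≤ n0 + 1 := by
    by_contra hcon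
    push Not at hcon
    have g1 := (h1' (n0 + 1)).1 (by omega)
    rw [hs] at g1
    have g2 := mt (h0 n0).2 (lt_irrefl _)
    linarith
  refine ⟨abs_le.2 ⟨by omega, by omega⟩, ?_⟩
  intro hne
  rcases lt_trichotomy n1 n0 with h | h | h
  · refine ⟨n1, Or.inr ⟨?_, (h0 n1).1 h⟩⟩
    exact not_lt.1 (mt (h1' n1).2 (lt_irrefl _))
  · exact absurd (by rw [h]; ring) hne
  · refine ⟨n0, Or.inl ⟨?_, (h1' n0).1 h⟩⟩
    exact not_lt.1 (mt (h0 n0).2 (lt_irrefl _))

end Pool.Agent.Helper90.NTM.Irr
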