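import Mathlib
import Pool.Agent.Helper90.NTM.Irr.Shift

/-!
# Good approximations of log 4 / log 3, spacing and separation of events
-/

open Finset Filter Topology

namespace Pool.Agent.Helper90.NTM.Irr

/-- `t log 4 - j log 3` -/
noncomputable def lin (t : ℕ) (j : ℤ) : ℝ := t * Real.log 4 - j * Real.log 3

noncomputable def pn (q : ℕ) (hq : q.Prime) : ℚ →*₀ ℝ :=
  haveI : Fact q.Prime := ⟨hq⟩
  { toFun := fun x => ((padicNorm q x : ℚ) : ℝ)
    map_zero' := by simp
    map_one' := by simp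
    map_mul' := by
      intro x y
      rw [padicNorm.mul]
      push_cast
      ring }

lemma pn_self (q : ℕ) (hq : q.Prime) : pn q hq (q : ℚ) = (q : ℝ)⁻¹ := by
  have : Fact q.Prime := ⟨hq⟩
  have h := padicNorm.padicNorm_p_of_prime (p := q)
  show ((padicNorm q (q : ℚ) : ℚ) : ℝ) = _
  rw [h]
  push_cast
  rfl

lemma pn_ne (q r : ℕ) (hq : q.Prime) (hr : r.Prime) (hne : q ≠ r) : pn q hq (r : ℚ) = 1 := by
  have : Fact q.Prime := ⟨hq⟩
  have : Fact r.Prime := ⟨hr⟩
  have h := padicNorm.padicNorm_of_prime_of_ne (p := q) (q := r) hne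
  show ((padicNorm q (r : ℚ) : ℚ) : ℝ) = _
  rw [h]
  push_cast
  rfl

/-- the logarithms of 2, 3, 5 are linearly independent over the integers -/
lemma indep (x y z : ℤ) (h : x * Real.log 2 + y * Real.log 3 + z * Real.log 5 = 0) :
    x = 0 ∧ y = 0 ∧ z = 0 := by
  have h1 : ((2 : ℝ) ^ x * 3 ^ y * 5 ^ z) = 1 := by
    have h2 : Real.log ((2 : ℝ) ^ x * 3 ^ y * 5 ^ z) = 0 := by
      rw [Real.log_mul (by positivity) (by positivity), Real.log_mul (by positivity) (by positivity),
        Real.log_zpow, Real.log_zpow, Real.log_zpow]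
      exact h
    have h3 : (0 : ℝ) < (2 : ℝ) ^ x * 3 ^ y * 5 ^ z := by positivity
    exact Real.eq_one_of_pos_of_log_eq_zero h3 h2
  have h4 : (((2 : ℕ) : ℚ) ^ x * ((3 : ℕ) : ℚ) ^ y * ((5 : ℕ) : ℚ) ^ z) = 1 := by
    have : (((((2 : ℕ) : ℚ) ^ x * ((3 : ℕ) : ℚ) ^ y * ((5 : ℕ) : ℚ) ^ z : ℚ)) : ℝ) = ((1 : ℚ) : ℝ) := by
      push_cast
      exact h1
    exact_mod_cast this
  have key : ∀ (b : ℝ), 1 < b → ∀ n : ℤ, (b⁻¹) ^ n = 1 → n = 0 := by
    intro b hb n hn
    rw [inv_zpow, inv_eq_one] at hn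
    have := zpow_right_injective₀ (a := b) (by linarith) (by linarith)
      (hn.trans (zpow_zero b).symm)
    exact this
  refine ⟨?_, ?_, ?_⟩
  · have h5 := congrArg (pn 2 Nat.prime_two) h4
    rw [map_mul, map_mul, map_zpow₀, map_zpow₀, map_zpow₀, pn_self,
      pn_ne 2 3 Nat.prime_two Nat.prime_three (by norm_num),
      pn_ne 2 5 Nat.prime_two Nat.prime_five (by norm_num), one_zpow, one_zpow, mul_one, mul_one,
      map_one] at h5
    exact key _ (by norm_num) x h5
  · have h5 := congrArg (pn 3 Nat.prime_three) h4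
    rw [map_mul, map_mul, map_zpow₀, map_zpow₀, map_zpow₀, pn_self,
      pn_ne 3 2 Nat.prime_three Nat.prime_two (by norm_num),
      pn_ne 3 5 Nat.prime_three Nat.prime_five (by norm_num), one_zpow, one_zpow, mul_one, one_mul,
      map_one] at h5
    exact key _ (by norm_num) y h5
  · have h5 := congrArg (pn 5 Nat.prime_five) h4
    rw [map_mul, map_mul, map_zpow₀, map_zpow₀, map_zpow₀, pn_self,
      pn_ne 5 2 Nat.prime_five Nat.prime_two (by norm_num),
      pn_ne 5 3 Nat.prime_five Nat.prime_three (by norm_num), one_zpow, one_zpow, one_mul, one_mul,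
      map_one] at h5
    exact key _ (by norm_num) z h5

lemma log4 : Real.log 4 = 2 * Real.log 2 := by
  rw [show (4 : ℝ) = 2 ^ 2 by norm_num, Real.log_pow]
  norm_num

/-- distance to a lattice -/
lemma sep (ω L : ℝ) (hL : 0 < L) (h : ∀ m : ℤ, ω ≠ m * L) :
    ∃ δ : ℝ, 0 < δ ∧ ∀ m : ℤ, δ ≤ |ω - m * L| := by
  refine ⟨|ω / L - round (ω / L)| * L, ?_, ?_⟩
  · apply mul_pos _ hL
    rw [abs_pos]
    intro hcon
    apply h (round (ω / L))
    have : ω / L = round (ω / L) := by linarith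
    rw [← this]
    field_simp
  · intro m
    have h1 : |ω - m * L| = |ω / L - m| * L := by
      rw [← abs_of_pos hL, ← abs_mul, abs_of_pos hL]
      congr 1
      field_simp
    rw [h1]
    exact mul_le_mul_of_nonneg_right (round_le _ _) hL.le

lemma dirichlet (ε : ℝ) (hε : 0 < ε) : ∃ t : ℕ, 1 ≤ t ∧ ∃ j : ℤ, |lin t j| < ε := by
  obtain ⟨h3, h34⟩ := log34
  obtain ⟨n, hn⟩ := exists_nat_gt (Real.log 3 / ε)
  have hn0 : 0 < n := by
    have : (0 : ℝ) < n := lt_trans (by positivity) hn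
    exact_mod_cast this
  obtain ⟨j, k, hk0, hkn, hjk⟩ := Real.exists_int_int_abs_mul_sub_le (Real.log 4 / Real.log 3) hn0
  refine ⟨k.toNat, by omega, j, ?_⟩
  have h1 : lin k.toNat j = (k * (Real.log 4 / Real.log 3) - j) * Real.log 3 := by
    unfold lin
    have : ((k.toNat : ℕ) : ℝ) = (k : ℝ) := by
      have h : ((k.toNat : ℤ)) = k := Int.toNat_of_nonneg hk0.le
      exact_mod_cast congrArg (fun z : ℤ => (z : ℝ)) h
    rw [this]
    field_simp
  rw [h1, abs_mul, abs_of_pos h3]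
  have h2 : |k * (Real.log 4 / Real.log 3) - j| * Real.log 3 ≤ 1 / ((n : ℝ) + 1) * Real.log 3 :=
    mul_le_mul_of_nonneg_right hjk h3.le
  refine lt_of_le_of_lt h2 ?_
  rw [div_lt_iff₀ hε] at hn
  rw [one_div, inv_mul_lt_iff₀ (by positivity)]
  nlinarith

lemma lin_ne (t : ℕ) (ht : 1 ≤ t) (j : ℤ) : lin t j ≠ 0 := by
  intro h
  unfold lin at h
  rw [log4] at h
  have := indep (2 * t) (-j) 0 (by push_cast; linarith)
  omega

/-- the scales -/
structure Scale (ε : ℝ) (p q P : ℕ) (Q : ℕ) : Prop where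
  p1 : 1 ≤ p
  pP : p < P
  e0 : ee p q ≠ 0
  eε : |ee p q| < ε
  best : ∀ t : ℕ, 1 ≤ t → t < P → ∀ j : ℤ, |ee p q| ≤ |lin t j|
  ev : Ev (ee p q) (lin P Q)

lemma exists_scale (ε : ℝ) (hε : 0 < ε) (hε1 : ε ≤ Real.log 3 / 2) :
    ∃ p q P Q, Scale ε p q P Q := by
  classical
  obtain ⟨h3, h34⟩ := log34
  have hex := dirichlet ε hε
  set p := Nat.find hex with hp
  obtain ⟨hp1, j, hj⟩ := Nat.find_spec hex
  rw [← hp] at hp1 hj
  have hmin : ∀ t : ℕ, 1 ≤ t → t < p → ∀ j : ℤ, ε ≤ |lin t j| := by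
    intro t ht htp j
    have := Nat.find_min hex htp
    push Not at this
    exact this ht j
  have hp1R : (1 : ℝ) ≤ p := by exact_mod_cast hp1
  have hjpos : 0 < j := by
    by_contra hcon
    push Not at hcon
    have h1 : (j : ℝ) ≤ 0 := by exact_mod_cast hcon
    have h2 := (abs_lt.1 hj).2
    unfold lin at h2
    nlinarith
  obtain ⟨q, rfl⟩ : ∃ q : ℕ, j = q := ⟨j.toNat, (Int.toNat_of_nonneg hjpos.le).symm⟩
  have hee : ee p q = -lin p q := by
    unfold ee lin
    push_cast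
    ring
  have hlin0 : lin p q ≠ 0 := lin_ne p hp1 q
  have habs : |ee p q| = |lin p q| := by rw [hee, abs_neg]
  have habs0 : 0 < |ee p q| := by rw [habs]; exact abs_pos.2 hlin0
  have hex' := dirichlet (|ee p q|) habs0
  set P := Nat.find hex' with hP
  obtain ⟨hP1, j', hj'⟩ := Nat.find_spec hex'
  rw [← hP] at hP1 hj'
  have hmin' : ∀ t : ℕ, 1 ≤ t → t < P → ∀ j : ℤ, |ee p q| ≤ |lin t j| := by
    intro t ht htp j
    have := Nat.find_min hex' htp
    push Not at this
    exact this ht j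
  have hP1R : (1 : ℝ) ≤ P := by exact_mod_cast hP1
  have heL : |ee p q| < Real.log 3 / 2 := by rw [habs]; linarith
  have hjpos' : 0 < j' := by
    by_contra hcon
    push Not at hcon
    have h1 : (j' : ℝ) ≤ 0 := by exact_mod_cast hcon
    have h2 := (abs_lt.1 hj').2
    unfold lin at h2
    nlinarith
  obtain ⟨Q, rfl⟩ : ∃ Q : ℕ, j' = Q := ⟨j'.toNat, (Int.toNat_of_nonneg hjpos'.le).symm⟩
  have hpP : p < P := by
    by_contra hcon
    push Not at hcon
    rcases Nat.lt_or_ge P p with h | h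
    · have h1 := hmin P hP1 h Q
      rw [habs] at hj'
      linarith
    · have hPp : P = p := by omega
      rw [hPp] at hj'
      by_cases hQ : Q = q
      · rw [hQ, habs] at hj'
        exact lt_irrefl _ hj'
      · have h1 : lin p Q - lin p q = ((q : ℝ) - Q) * Real.log 3 := by
          unfold lin
          push_cast
          ring
        have h2 : Real.log 3 ≤ |((q : ℝ) - Q) * Real.log 3| := by
          rw [abs_mul, abs_of_pos h3]
          have : (1 : ℝ) ≤ |(q : ℝ) - Q| := by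
            have h5 : (1 : ℤ) ≤ |(q : ℤ) - Q| := Int.one_le_abs (by omega)
            exact_mod_cast h5
          nlinarith
        rw [← h1] at h2
        have h3' := abs_sub (lin p Q) (lin p q)
        rw [← habs] at h3'
        linarith
  refine ⟨p, q, P, Q, hp1, hpP, ?_, ?_, hmin', ?_⟩
  · intro h
    rw [h] at habs0
    simp at habs0
  · rw [habs]; exact hj
  · -- opposite signs
    have hd : ∀ (hsame : 0 < lin P Q * lin p q), False := by
      intro hsame
      have h1 := hmin' (P - p) (by omega) (by omega) ((Q : ℤ) - q)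
      have h2 : lin (P - p) ((Q : ℤ) - q) = lin P Q - lin p q := by
        unfold lin
        push_cast [Nat.cast_sub hpP.le]
        ring
      rw [h2, habs] at h1
      rw [habs] at hj'
      rcases pos_and_pos_or_neg_and_neg_of_mul_pos hsame with ⟨h5, h6⟩ | ⟨h5, h6⟩
      · rw [abs_of_pos h5, abs_of_pos h6] at hj'
        rw [abs_of_pos h6, abs_of_neg (by linarith)] at h1
        linarith
      · rw [abs_of_neg h5, abs_of_neg h6] at hj'
        rw [abs_of_neg h6, abs_of_pos (by linarith)] at h1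
        linarith
    rw [habs] at hj'
    have hPQ0 : lin P Q ≠ 0 := lin_ne P hP1 Q
    rcases lt_or_gt_of_ne hlin0 with h | h
    · -- lin p q < 0, ee > 0
      left
      rw [hee]
      rcases lt_or_gt_of_ne hPQ0 with h' | h'
      · exact absurd (mul_pos_of_neg_of_neg h' h) (fun hc => hd hc)
      · rw [abs_of_pos h', abs_of_neg h] at hj'
        exact ⟨h'.le, hj'⟩
    · right
      rw [hee]
      rcases lt_or_gt_of_ne hPQ0 with h' | h'
      · rw [abs_of_neg h', abs_of_pos h] at hj'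
        exact ⟨by linarith, h'⟩
      · exact absurd (mul_pos h' h) (fun hc => hd hc)

lemma ev_sub {e x y : ℝ} (hx : Ev e x) (hy : Ev e y) : |x - y| < |e| := by
  rcases hx with ⟨h1, h2⟩ | ⟨h1, h2⟩ <;> rcases hy with ⟨h3, h4⟩ | ⟨h3, h4⟩
  · rw [abs_of_pos (a := e) (by linarith), abs_lt]
    constructor <;> linarith
  · linarith
  · linarith
  · rw [abs_of_neg (a := e) (by linarith), abs_lt]
    constructor <;> linarith

lemma ev_abs {e x : ℝ} (hx : Ev e x) : |x| ≤ |e| := by
  rcases hx with ⟨h1, h2⟩ | ⟨h1, h2⟩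
  · rw [abs_of_nonneg h1, abs_of_pos (by linarith)]
    exact h2.le
  · rw [abs_of_neg h2, abs_of_neg (by linarith)]
    linarith

/-- spacing of events in the first coordinate -/
lemma spacingA {ε : ℝ} {p q P Q : ℕ} (hS : Scale ε p q P Q) {α β i1 j1 i2 j2 : ℕ}
    (h1 : Ev (ee p q) (vv α β i1 j1)) (h2 : Ev (ee p q) (vv α β i2 j2)) (hlt : i1 < i2) :
    P ≤ i2 - i1 := by
  by_contra hcon
  push Not at hcon
  have h3 := hS.best (i2 - i1) (by omega) hcon ((j2 : ℤ) - j1)
  have h4 : lin (i2 - i1) ((j2 : ℤ) - j1) = vv α β i2 j2 - vv α β i1 j1 := by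
    unfold lin vv
    push_cast [Nat.cast_sub hlt.le]
    ring
  rw [h4] at h3
  have := ev_sub h2 h1
  linarith

/-- spacing of events in the second coordinate -/
lemma spacingB {ε : ℝ} {p q P Q : ℕ} (hS : Scale ε p q P Q) (hε : ε ≤ Real.log 4 - Real.log 3)
    {α β i1 j1 i2 j2 : ℕ}
    (h1 : Ev (ee p q) (vv α β i1 j1)) (h2 : Ev (ee p q) (vv α β i2 j2)) (hlt : j1 < j2) :
    P ≤ j2 - j1 := by
  obtain ⟨h3, h34⟩ := log34
  have hsub := abs_lt.1 (ev_sub h2 h1)
  have he := hS.eε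
  have hL4 : Real.log 4 < 2 * Real.log 3 := by
    have : Real.log 4 < Real.log 9 := Real.log_lt_log (by norm_num) (by norm_num)
    have h9 : Real.log 9 = 2 * Real.log 3 := by
      rw [show (9 : ℝ) = 3 ^ 2 by norm_num, Real.log_pow]
      norm_num
    linarith
  have hv : vv α β i2 j2 - vv α β i1 j1 =
      ((i2 : ℝ) - i1) * Real.log 4 - ((j2 : ℝ) - j1) * Real.log 3 := by
    unfold vv
    ring
  have hjR : (1 : ℝ) ≤ (j2 : ℝ) - j1 := by
    have : (j1 : ℝ) + 1 ≤ j2 := by exact_mod_cast hlt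
    linarith
  have hi : i1 < i2 := by
    by_contra hcon
    push Not at hcon
    have h5 : (i2 : ℝ) - i1 ≤ 0 := by
      have : (i2 : ℝ) ≤ i1 := by exact_mod_cast hcon
      linarith
    nlinarith
  have hP := spacingA hS h1 h2 hi
  have hiR : (1 : ℝ) ≤ (i2 : ℝ) - i1 := by
    have : (i1 : ℝ) + 1 ≤ i2 := by exact_mod_cast hi
    linarith
  have h6 : (i2 : ℝ) - i1 < (j2 : ℝ) - j1 := by
    nlinarith
  have h7 : (i2 : ℤ) - i1 < (j2 : ℤ) - j1 := by exact_mod_cast h6
  omega

end Pool.Agent.Helper90.NTM.Irr
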