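import Mathlib
import Pool.Agent.Helper90.NTM.Irr.Records

/-!
# The integer attached to a scale
-/

open Finset Filter Topology

namespace Pool.Agent.Helper90.NTM.Irr

/-- the shift identity for a single series -/
lemma gen_shift (x : ℝ) (hx : 1 < x) (N : ℕ → ℕ) (p c : ℕ)
    (hs : Summable fun i => (N i : ℝ) / x ^ i) :
    Summable (fun i => (((N (i + p) : ℤ) - c - N i : ℤ) : ℝ) / x ^ i) ∧
    (x ^ p - 1) * (∑' i, (N i : ℝ) / x ^ i) =
      ∑ i ∈ range p, (N i : ℝ) * x ^ (p - i) + c * (x / (x - 1)) +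
      ∑' i, (((N (i + p) : ℤ) - c - N i : ℤ) : ℝ) / x ^ i := by
  have hx0 : x ≠ 0 := by positivity
  have hx1 : x - 1 ≠ 0 := by linarith
  have hgeo : HasSum (fun i : ℕ => (c : ℝ) * (1 / x) ^ i) ((c : ℝ) * (x / (x - 1))) := by
    have h1 := hasSum_geometric_of_lt_one (r := 1 / x) (by positivity)
      (by rw [div_lt_one (by positivity)]; exact hx)
    have h2 : (1 - 1 / x)⁻¹ = x / (x - 1) := by
      field_simp
    rw [h2] at h1
    exact h1.mul_left _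
  have hs' : Summable (fun i => x ^ p * ((N (i + p) : ℝ) / x ^ (i + p))) :=
    ((summable_nat_add_iff p).2 hs).mul_left _
  have hterm : ∀ i, (((N (i + p) : ℤ) - c - N i : ℤ) : ℝ) / x ^ i =
      x ^ p * ((N (i + p) : ℝ) / x ^ (i + p)) - (c : ℝ) * (1 / x) ^ i - (N i : ℝ) / x ^ i := by
    intro i
    push_cast
    rw [pow_add, one_div, inv_pow]
    field_simp
  have hsD : Summable (fun i => (((N (i + p) : ℤ) - c - N i : ℤ) : ℝ) / x ^ i) := by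
    refine ((hs'.sub hgeo.summable).sub hs).congr ?_
    intro i
    exact (hterm i).symm
  refine ⟨hsD, ?_⟩
  have h1 := hs.sum_add_tsum_nat_add p
  have h2 : ∑' i, (((N (i + p) : ℤ) - c - N i : ℤ) : ℝ) / x ^ i =
      x ^ p * (∑' i, (N (i + p) : ℝ) / x ^ (i + p)) - (c : ℝ) * (x / (x - 1)) -
        ∑' i, (N i : ℝ) / x ^ i := by
    rw [tsum_congr hterm, (hs'.sub hgeo.summable).tsum_sub hs, hs'.tsum_sub hgeo.summable,
      hgeo.tsum_eq, tsum_mul_left]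
  have h3 : x ^ p * ∑ i ∈ range p, (N i : ℝ) / x ^ i = ∑ i ∈ range p, (N i : ℝ) * x ^ (p - i) := by
    rw [mul_sum]
    apply sum_congr rfl
    intro i hi
    rw [mem_range] at hi
    have : x ^ p = x ^ (p - i) * x ^ i := by rw [← pow_add]; congr 1; omega
    rw [this]
    field_simp
  rw [h2, ← h3]
  have h4 : ∑' i, (N i : ℝ) / x ^ i = ∑ i ∈ range p, (N i : ℝ) / x ^ i +
      ∑' i, (N (i + p) : ℝ) / x ^ (i + p) := h1.symm
  set S := ∑' i, (N i : ℝ) / x ^ i with hS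
  have h5 : ∑' i, (N (i + p) : ℝ) / x ^ (i + p) = S - ∑ i ∈ range p, (N i : ℝ) / x ^ i := by
    linarith
  rw [h5]
  ring

/-- truncation of a series with bounded coefficients -/
lemma trunc (x : ℝ) (hx : 1 < x) (D : ℕ → ℤ) (hD : ∀ i, |D i| ≤ 1) (K : ℕ) (hK : 1 ≤ K)
    (hs : Summable fun i => (D i : ℝ) / x ^ i) :
    |∑' i, (D (i + 1) : ℝ) / x ^ (i + 1) - ∑ i ∈ Ico 1 K, (D i : ℝ) / x ^ i| ≤
      x / (x - 1) / x ^ K := by
  have hx0 : 0 < x := by linarith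
  have hx1 : 0 < x - 1 := by linarith
  have h1 := hs.sum_add_tsum_nat_add 1
  have h2 := hs.sum_add_tsum_nat_add K
  have h3 : ∑ i ∈ range K, (D i : ℝ) / x ^ i =
      ∑ i ∈ range 1, (D i : ℝ) / x ^ i + ∑ i ∈ Ico 1 K, (D i : ℝ) / x ^ i := by
    rw [Finset.range_eq_Ico, Finset.range_eq_Ico, sum_Ico_consecutive _ (by omega) hK]
  have h4 : ∑' i, (D (i + 1) : ℝ) / x ^ (i + 1) - ∑ i ∈ Ico 1 K, (D i : ℝ) / x ^ i =
      ∑' i, (D (i + K) : ℝ) / x ^ (i + K) := by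
    linarith
  rw [h4]
  have hg : HasSum (fun i : ℕ => (1 / x) ^ i * (1 / x ^ K)) (x / (x - 1) * (1 / x ^ K)) := by
    have h5 := hasSum_geometric_of_lt_one (r := 1 / x) (by positivity)
      (by rw [div_lt_one (by positivity)]; exact hx)
    have h6 : (1 - 1 / x)⁻¹ = x / (x - 1) := by
      field_simp
    rw [h6] at h5
    exact h5.mul_right _
  have h7 := tsum_of_norm_bounded (f := fun i => (D (i + K) : ℝ) / x ^ (i + K)) hg (fun i => by
    rw [Real.norm_eq_abs, abs_div, abs_of_pos (a := x ^ (i + K)) (by positivity)]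
    have h8 : |(D (i + K) : ℝ)| ≤ 1 := by exact_mod_cast hD (i + K)
    have h9 : (1 / x) ^ i * (1 / x ^ K) = 1 / x ^ (i + K) := by
      rw [one_div_pow, pow_add]
      field_simp
    rw [h9]
    exact div_le_div_of_nonneg_right h8 (by positivity))
  rw [Real.norm_eq_abs] at h7
  rw [mul_one_div] at h7
  exact h7

/-- in a window with at most one nonzero coefficient -/
lemma window_sum (f : ℕ → ℤ) (hf : ∀ i, |f i| ≤ 1) (x : ℝ) (a b : ℕ)
    (h : ∀ i ∈ Ico a b, ∀ i' ∈ Ico a b, f i ≠ 0 → f i' ≠ 0 → i = i') :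
    ∃ (D : ℤ) (I : ℕ), |D| ≤ 1 ∧ (D ≠ 0 → I ∈ Ico a b ∧ f I ≠ 0) ∧
      (∀ i ∈ Ico a b, f i ≠ 0 → I = i ∧ D ≠ 0) ∧
      ∑ i ∈ Ico a b, (f i : ℝ) / x ^ i = (D : ℝ) / x ^ I := by
  by_cases hex : ∃ i ∈ Ico a b, f i ≠ 0
  · obtain ⟨I, hI, hfI⟩ := hex
    refine ⟨f I, I, hf I, fun _ => ⟨hI, hfI⟩, fun i hi hfi => ⟨h I hI i hi hfI hfi, hfI⟩, ?_⟩
    rw [Finset.sum_eq_single I]
    · intro i hi hne
      by_cases hfi : f i = 0
      · rw [hfi]; simp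
      · exact absurd (h i hi I hI hfi hfI) hne
    · intro hcon
      exact absurd hI hcon
  · push Not at hex
    refine ⟨0, 0, by simp, fun hc => absurd rfl hc, fun i hi hfi => absurd (hex i hi) hfi, ?_⟩
    rw [Finset.sum_eq_zero]
    · simp
    · intro i hi
      rw [hex i hi]
      simp

/-- the classes -/
def al : Fin 4 → ℕ := ![1, 1, 2, 5]
def be : Fin 4 → ℕ := ![1, 2, 5, 12]
def g1 : Fin 4 → ℤ := ![70, -112, -10, -8]
def g2 : Fin 4 → ℤ := ![105, -84, -6, -5]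

lemma al_pos (c : Fin 4) : 1 ≤ al c := by
  fin_cases c <;> simp [al]

lemma be_pos (c : Fin 4) : 1 ≤ be c := by
  fin_cases c <;> simp [be]

lemma g1_ne (c : Fin 4) : g1 c ≠ 0 := by
  fin_cases c <;> simp [g1]

/-- the defect series without the term of index 0 -/
noncomputable def SD (α β p q : ℕ) : ℝ := ∑' i, (Dd α β p q (i + 1) : ℝ) / 4 ^ (i + 1)
noncomputable def SM (α β p q : ℕ) : ℝ := ∑' j, (Dm α β p q (j + 1) : ℝ) / 3 ^ (j + 1)

lemma summ_Dd {α β : ℕ} (hα : 1 ≤ α) (hβ : 1 ≤ β) (p q : ℕ) :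
    Summable (fun i => (Dd α β p q i : ℝ) / 4 ^ i) :=
  (gen_shift 4 (by norm_num) (Nn α β) p q (T_split hα hβ).1).1

lemma summ_Dm {α β : ℕ} (hα : 1 ≤ α) (hβ : 1 ≤ β) (p q : ℕ) :
    Summable (fun j => (Dm α β p q j : ℝ) / 3 ^ j) :=
  (gen_shift 3 (by norm_num) (Mm α β) q p (T_split hα hβ).2.1).1

lemma int_form {α β : ℕ} (hα : 1 ≤ α) (hβ : 1 ≤ β) (p q : ℕ) (c1 c2 : ℤ) :
    ∃ z : ℤ, ((4 : ℝ) ^ p - 1) * (3 ^ q - 1) * (3 * c1 * aa α β + 2 * c2 * bb α β) =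
      z + 3 * c1 * (3 ^ q - 1) * SD α β p q + 2 * c2 * (4 ^ p - 1) * SM α β p q := by
  have h1 : ((4 : ℝ) ^ p - 1) * aa α β = ∑ i ∈ range p, (Nn α β i : ℝ) * 4 ^ (p - i) +
      q * (4 / (4 - 1)) + ∑' i, (Dd α β p q i : ℝ) / 4 ^ i :=
    (gen_shift 4 (by norm_num) (Nn α β) p q (T_split hα hβ).1).2
  have h2 : ((3 : ℝ) ^ q - 1) * bb α β = ∑ j ∈ range q, (Mm α β j : ℝ) * 3 ^ (q - j) +
      p * (3 / (3 - 1)) + ∑' j, (Dm α β p q j : ℝ) / 3 ^ j :=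
    (gen_shift 3 (by norm_num) (Mm α β) q p (T_split hα hβ).2.1).2
  rw [(summ_Dd hα hβ p q).tsum_eq_zero_add] at h1
  rw [(summ_Dm hα hβ p q).tsum_eq_zero_add] at h2
  refine ⟨c1 * (3 ^ q - 1) * (3 * ∑ i ∈ range p, (Nn α β i : ℤ) * 4 ^ (p - i) + 4 * q +
    3 * Dd α β p q 0) + c2 * (4 ^ p - 1) * (2 * ∑ j ∈ range q, (Mm α β j : ℤ) * 3 ^ (q - j) +
    3 * p + 2 * Dm α β p q 0), ?_⟩
  unfold SD SM
  push_cast
  have e1 : ((4 : ℝ) ^ p - 1) * (3 ^ q - 1) * (3 * c1 * aa α β + 2 * c2 * bb α β) =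
      3 * c1 * (3 ^ q - 1) * (((4 : ℝ) ^ p - 1) * aa α β) +
      2 * c2 * (4 ^ p - 1) * (((3 : ℝ) ^ q - 1) * bb α β) := by ring
  rw [e1, h1, h2]
  rw [pow_zero, pow_zero, div_one, div_one]
  ring

lemma lam_cls : 360 * lam = 310 + ∑ c, (3 * (g1 c : ℝ) * aa (al c) (be c) +
    2 * (g2 c : ℝ) * bb (al c) (be c)) := by
  have h := lam_T4
  rw [(T_split (α := 1) (β := 1) (by norm_num) (by norm_num)).2.2,
    (T_split (α := 1) (β := 2) (by norm_num) (by norm_num)).2.2,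
    (T_split (α := 2) (β := 5) (by norm_num) (by norm_num)).2.2,
    (T_split (α := 5) (β := 12) (by norm_num) (by norm_num)).2.2] at h
  rw [Fin.sum_univ_four]
  simp only [g1, g2, al, be, Matrix.cons_val_zero, Matrix.cons_val_one, Matrix.cons_val,
    Matrix.head_cons]
  push_cast at h ⊢
  linarith

/-- the full sum -/
noncomputable def WW (p q : ℕ) : ℝ := ∑ c, (3 * (g1 c : ℝ) * (3 ^ q - 1) * SD (al c) (be c) p q +
  2 * (g2 c : ℝ) * (4 ^ p - 1) * SM (al c) (be c) p q)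

lemma WW_int (r : ℚ) (hr : lam = r) (p q : ℕ) : ∃ Z : ℤ, (Z : ℝ) = (r.den : ℝ) * WW p q := by
  have h1 : ∀ c : Fin 4, ∃ z : ℤ, ((4 : ℝ) ^ p - 1) * (3 ^ q - 1) *
      (3 * (g1 c : ℝ) * aa (al c) (be c) + 2 * (g2 c : ℝ) * bb (al c) (be c)) =
      z + 3 * (g1 c : ℝ) * (3 ^ q - 1) * SD (al c) (be c) p q +
        2 * (g2 c : ℝ) * (4 ^ p - 1) * SM (al c) (be c) p q :=
    fun c => int_form (al_pos c) (be_pos c) p q (g1 c) (g2 c)
  choose z hz using h1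
  refine ⟨(4 ^ p - 1) * (3 ^ q - 1) * (360 * r.num - 310 * r.den) - r.den * ∑ c, z c, ?_⟩
  have h2 : (r.den : ℝ) * lam = r.num := by
    rw [hr]
    have : (r.den : ℚ) * r = r.num := by
      rw [mul_comm]
      exact Rat.mul_den_eq_num r
    exact_mod_cast this
  have h3 : WW p q = ((4 : ℝ) ^ p - 1) * (3 ^ q - 1) * (360 * lam - 310) - ∑ c, (z c : ℝ) := by
    have h4 : 360 * lam - 310 = ∑ c, (3 * (g1 c : ℝ) * aa (al c) (be c) +
        2 * (g2 c : ℝ) * bb (al c) (be c)) := by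
      rw [lam_cls]
      ring
    rw [h4, mul_sum, ← Finset.sum_sub_distrib]
    unfold WW
    refine Finset.sum_congr rfl ?_
    intro c _
    rw [hz c]
    ring
  rw [h3]
  push_cast
  have h5 : (r.den : ℝ) * (((4 : ℝ) ^ p - 1) * (3 ^ q - 1) * (360 * lam - 310) -
      ∑ c, (z c : ℝ)) = ((4 : ℝ) ^ p - 1) * (3 ^ q - 1) * (360 * ((r.den : ℝ) * lam) -
      310 * r.den) - r.den * ∑ c, (z c : ℝ) := by ring
  rw [h5, h2]

end Pool.Agent.Helper90.NTM.Irr
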