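import Mathlib
import Pool.Agent.Helper90.NTM.Irr.Integer

/-!
# The data attached to a scale: at most one event in each window
-/

open Finset Filter Topology

namespace Pool.Agent.Helper90.NTM.Irr

/-- the threshold for the displacement -/
noncomputable def c0 : ℝ := Real.log 6 - Real.log 5

lemma log6 : Real.log 6 = Real.log 2 + Real.log 3 := by
  rw [show (6 : ℝ) = 2 * 3 by norm_num, Real.log_mul (by norm_num) (by norm_num)]

lemma log12 : Real.log 12 = 2 * Real.log 2 + Real.log 3 := by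
  rw [show (12 : ℝ) = 4 * 3 by norm_num, Real.log_mul (by norm_num) (by norm_num), log4]

lemma c0_pos : 0 < c0 := by
  unfold c0
  have : Real.log 5 < Real.log 6 := Real.log_lt_log (by norm_num) (by norm_num)
  linarith

/-- `c0 ≤ log a - log b` as soon as `6 b ≤ 5 a` -/
lemma c0_le (a b : ℝ) (hb : 0 < b) (h : 6 * b ≤ 5 * a) : c0 ≤ Real.log a - Real.log b := by
  have ha : 0 < a := by linarith
  have h1 : Real.log (6 * b) ≤ Real.log (5 * a) := Real.log_le_log (by positivity) h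
  rw [Real.log_mul (by norm_num) (ne_of_gt hb), Real.log_mul (by norm_num) (ne_of_gt ha)] at h1
  unfold c0
  linarith

lemma c0_34 : c0 ≤ Real.log 4 - Real.log 3 := c0_le 4 3 (by norm_num) (by norm_num)

lemma c0_2 : c0 ≤ Real.log 2 := by
  have := c0_le 2 1 (by norm_num) (by norm_num)
  rw [Real.log_one] at this
  linarith

lemma c0_94 : c0 ≤ 2 * Real.log 3 - Real.log 4 := by
  have h := c0_le 9 4 (by norm_num) (by norm_num)
  have h9 : Real.log 9 = 2 * Real.log 3 := by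
    rw [show (9 : ℝ) = 3 ^ 2 by norm_num, Real.log_pow]
    norm_num
  rw [h9] at h
  exact h

lemma c0_half : c0 ≤ Real.log 3 / 2 := by
  have h1 := c0_34
  have h2 := c0_94
  linarith

lemma vv00 (c : Fin 4) : vv (al c) (be c) 0 0 = Real.log (al c) - Real.log (be c) := by
  unfold vv
  push_cast
  ring

lemma cls_k (c : Fin 4) : c0 ≤ vv (al c) (be c) 0 0 + Real.log 3 := by
  rw [vv00]
  have key : c0 ≤ Real.log (3 * al c) - Real.log (be c) := by
    apply c0_le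
    · have := be_pos c
      exact_mod_cast this
    · fin_cases c <;> simp [al, be] <;> norm_num
  rw [Real.log_mul (by norm_num) (by have := al_pos c; exact_mod_cast (by omega : al c ≠ 0))] at key
  linarith

lemma cls_k2 (c : Fin 4) : vv (al c) (be c) 0 0 ≤ 0 := by
  rw [vv00]
  have h1 : (al c : ℝ) ≤ be c := by
    fin_cases c <;> simp [al, be] <;> norm_num
  have h2 : (0 : ℝ) < al c := by exact_mod_cast al_pos c
  have := Real.log_le_log h2 h1
  linarith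

/-- start of the window of index `w` -/
def lo (P w : ℕ) : ℕ := if w = 0 then 1 else w * P

/-- the data attached to a scale -/
structure Data (r : ℚ) (ε : ℝ) where
  p : ℕ
  q : ℕ
  P : ℕ
  DA : Fin 4 × Fin 2 → ℤ
  IA : Fin 4 × Fin 2 → ℕ
  DB : Fin 4 × Fin 3 → ℤ
  JB : Fin 4 × Fin 3 → ℕ
  Z : ℤ
  he : |ee p q| < ε
  p1 : 1 ≤ p
  pP : p < P
  pq : p ≤ q
  q2 : q ≤ 2 * p
  h34 : (3 : ℝ) ^ q ≤ 2 * 4 ^ p
  h43 : (4 : ℝ) ^ p ≤ 2 * 3 ^ q
  DA1 : ∀ a, |DA a| ≤ 1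
  DB1 : ∀ b, |DB b| ≤ 1
  IA1 : ∀ a, DA a ≠ 0 → 1 ≤ IA a
  IA2 : ∀ a, DA a ≠ 0 → IA a ≤ 2 * P
  IAe : ∀ a, DA a ≠ 0 → ∃ j, Ev (ee p q) (vv (al a.1) (be a.1) (IA a) j)
  JB1 : ∀ b, DB b ≠ 0 → 1 ≤ JB b
  JB2 : ∀ b, DB b ≠ 0 → JB b ≤ 3 * P
  JBe : ∀ b, DB b ≠ 0 → ∃ i, Ev (ee p q) (vv (al b.1) (be b.1) i (JB b))
  spA : ∀ a a', a ≠ a' → a.1 = a'.1 → DA a ≠ 0 → DA a' ≠ 0 → (P : ℤ) ≤ |(IA a : ℤ) - IA a'|
  spB : ∀ b b', b ≠ b' → b.1 = b'.1 → DB b ≠ 0 → DB b' ≠ 0 → (P : ℤ) ≤ |(JB b : ℤ) - JB b'|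
  main : DA (0, 1) ≠ 0 ∧ IA (0, 1) = P
  err : |(Z : ℝ) - r.den * (∑ a, 3 * (g1 a.1 : ℝ) * (3 ^ q - 1) * ((DA a : ℝ) / 4 ^ (IA a)) +
    ∑ b, 2 * (g2 b.1 : ℝ) * (4 ^ p - 1) * ((DB b : ℝ) / 3 ^ (JB b)))| ≤
      3000 * r.den * 4 ^ p / 4 ^ (2 * P)

lemma sum_windows2 (F : ℕ → ℝ) (P : ℕ) (hP : 1 ≤ P) :
    ∑ i ∈ Ico 1 (2 * P), F i = ∑ w : Fin 2, ∑ i ∈ Ico (lo P w) ((w + 1) * P), F i := by
  rw [Fin.sum_univ_two]
  simp only [Fin.val_zero, Fin.val_one, lo, if_true, one_ne_zero, if_false, zero_add, one_mul]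
  rw [sum_Ico_consecutive _ hP (by omega)]

lemma sum_windows3 (F : ℕ → ℝ) (P : ℕ) (hP : 1 ≤ P) :
    ∑ i ∈ Ico 1 (3 * P), F i = ∑ w : Fin 3, ∑ i ∈ Ico (lo P w) ((w + 1) * P), F i := by
  rw [Fin.sum_univ_three]
  simp only [Fin.val_zero, Fin.val_one, Fin.val_two, lo, if_true, one_ne_zero, if_false, zero_add,
    one_mul, two_ne_zero]
  rw [sum_Ico_consecutive _ hP (by omega), sum_Ico_consecutive _ (by omega) (by omega)]

lemma lo_le {P w i : ℕ} (h : lo P w ≤ i) : w * P ≤ i := by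
  unfold lo at h
  split_ifs at h with hw
  · rw [hw]; omega
  · exact h

lemma lo_pos {P w i : ℕ} (hP : 1 ≤ P) (h : lo P w ≤ i) : 1 ≤ i := by
  unfold lo at h
  split_ifs at h with hw
  · exact h
  · have : 1 * 1 ≤ w * P := Nat.mul_le_mul (by omega) hP
    omega

theorem exists_data (r : ℚ) (hr : lam = r) (ε : ℝ) (hε : 0 < ε) (hε1 : ε ≤ c0) :
    Nonempty (Data r ε) := by
  obtain ⟨h3, h34⟩ := log34
  obtain ⟨p, q, P, Q, hS⟩ := exists_scale ε hε (hε1.trans c0_half)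
  have heε := hS.eε
  have hec0 : |ee p q| < c0 := lt_of_lt_of_le heε hε1
  have he3 : |ee p q| < Real.log 3 := by
    have := c0_half
    linarith
  have heabs := abs_lt.1 hec0
  have hkA : ∀ c, ee p q ≤ vv (al c) (be c) 0 0 + Real.log 3 := fun c =>
    (heabs.2.le).trans (cls_k c)
  have hkB : ∀ c, vv (al c) (be c) 0 0 - Real.log 4 < ee p q := by
    intro c
    have h1 := cls_k2 c
    have h2 := c0_34
    linarith
  have hP1 : 1 ≤ P := by have := hS.p1; have := hS.pP; omega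
  have hp1R : (1 : ℝ) ≤ p := by exact_mod_cast hS.p1
  have heq : ee p q = q * Real.log 3 - p * Real.log 4 := rfl
  -- windows
  have hA := fun (c : Fin 4) (i : ℕ) => Dd_props (al_pos c) (be_pos c) he3 (hkA c) i
  have hB := fun (c : Fin 4) (j : ℕ) => Dm_props (al_pos c) (be_pos c) he3 (hkB c) j
  have hwA : ∀ a : Fin 4 × Fin 2, ∃ (D : ℤ) (I : ℕ), |D| ≤ 1 ∧
      (D ≠ 0 → I ∈ Ico (lo P a.2) ((a.2 + 1) * P) ∧ Dd (al a.1) (be a.1) p q I ≠ 0) ∧
      (∀ i ∈ Ico (lo P a.2) ((a.2 + 1) * P), Dd (al a.1) (be a.1) p q i ≠ 0 → I = i ∧ D ≠ 0) ∧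
      ∑ i ∈ Ico (lo P a.2) ((a.2 + 1) * P), (Dd (al a.1) (be a.1) p q i : ℝ) / 4 ^ i =
        (D : ℝ) / 4 ^ I := by
    intro a
    apply window_sum _ (fun i => (hA a.1 i).1)
    intro i hi i' hi' h1 h2
    rw [mem_Ico] at hi hi'
    obtain ⟨j, hj⟩ := (hA a.1 i).2.1 h1
    obtain ⟨j', hj'⟩ := (hA a.1 i').2.1 h2
    have g1 := lo_le hi.1
    have g2 := lo_le hi'.1
    rw [add_mul, one_mul] at hi hi'
    rcases lt_trichotomy i i' with h | h | h
    · have := spacingA hS hj hj' h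
      omega
    · exact h
    · have := spacingA hS hj' hj h
      omega
  have hwB : ∀ b : Fin 4 × Fin 3, ∃ (D : ℤ) (I : ℕ), |D| ≤ 1 ∧
      (D ≠ 0 → I ∈ Ico (lo P b.2) ((b.2 + 1) * P) ∧ Dm (al b.1) (be b.1) p q I ≠ 0) ∧
      (∀ i ∈ Ico (lo P b.2) ((b.2 + 1) * P), Dm (al b.1) (be b.1) p q i ≠ 0 → I = i ∧ D ≠ 0) ∧
      ∑ i ∈ Ico (lo P b.2) ((b.2 + 1) * P), (Dm (al b.1) (be b.1) p q i : ℝ) / 3 ^ i =
        (D : ℝ) / 3 ^ I := by
    intro b
    apply window_sum _ (fun i => (hB b.1 i).1)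
    intro i hi i' hi' h1 h2
    rw [mem_Ico] at hi hi'
    obtain ⟨j, hj⟩ := (hB b.1 i).2 h1
    obtain ⟨j', hj'⟩ := (hB b.1 i').2 h2
    have g1 := lo_le hi.1
    have g2 := lo_le hi'.1
    rw [add_mul, one_mul] at hi hi'
    rcases lt_trichotomy i i' with h | h | h
    · have := spacingB hS (hε1.trans c0_34) hj hj' h
      omega
    · exact h
    · have := spacingB hS (hε1.trans c0_34) hj' hj h
      omega
  choose DA IA hDA1 hDA2 hDA3 hDA4 using hwA
  choose DB JB hDB1 hDB2 hDB3 hDB4 using hwB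
  obtain ⟨Z, hZ⟩ := WW_int r hr p q
  -- comparisons of powers
  have hlt3 : ∀ (m : ℕ), Real.log ((3 : ℝ) ^ m) = m * Real.log 3 := fun m => by rw [Real.log_pow]
  have hlt4 : ∀ (m : ℕ), Real.log ((4 : ℝ) ^ m) = m * Real.log 4 := fun m => by rw [Real.log_pow]
  have h34' : (3 : ℝ) ^ q ≤ 2 * 4 ^ p := by
    rw [← Real.log_le_log_iff (by positivity) (by positivity),
      Real.log_mul (by norm_num) (by positivity), hlt3, hlt4]
    have := c0_2
    linarith
  have h43' : (4 : ℝ) ^ p ≤ 2 * 3 ^ q := by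
    rw [← Real.log_le_log_iff (by positivity) (by positivity),
      Real.log_mul (by norm_num) (by positivity), hlt3, hlt4]
    have := c0_2
    linarith
  have hpq : p ≤ q := by
    by_contra hcon
    push Not at hcon
    have h1 : (q : ℝ) + 1 ≤ p := by exact_mod_cast hcon
    have := c0_34
    nlinarith
  have hq2 : q ≤ 2 * p := by
    by_contra hcon
    push Not at hcon
    have h1 : 2 * (p : ℝ) + 1 ≤ q := by exact_mod_cast hcon
    have := c0_94
    nlinarith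
  have hmainD : Dd (al 0) (be 0) p q P ≠ 0 := by
    rw [(hA 0 P).2]
    refine ⟨Q, ?_⟩
    have h1 : vv (al 0) (be 0) P Q = lin P Q := by
      unfold vv lin
      simp [al, be]
    rw [h1]
    exact hS.ev
  have hmain := hDA3 (0, 1) P (by
    rw [mem_Ico]
    simp only [Fin.val_one, lo, one_ne_zero, if_false, one_mul]
    omega) hmainD
  refine ⟨⟨p, q, P, DA, IA, DB, JB, Z, heε, hS.p1, hS.pP, hpq, hq2, h34', h43', hDA1, hDB1,
    ?_, ?_, ?_, ?_, ?_, ?_, ?_, ?_, ⟨hmain.2, hmain.1⟩, ?_⟩⟩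
  · intro a ha
    have := (hDA2 a ha).1
    rw [mem_Ico] at this
    exact lo_pos hP1 this.1
  · intro a ha
    have := (hDA2 a ha).1
    rw [mem_Ico] at this
    have h2 : ((a.2 : ℕ) + 1) * P ≤ 2 * P := Nat.mul_le_mul_right _ (by omega)
    omega
  · intro a ha
    exact (hA a.1 (IA a)).2.1 (hDA2 a ha).2
  · intro b hb
    have := (hDB2 b hb).1
    rw [mem_Ico] at this
    exact lo_pos hP1 this.1
  · intro b hb
    have := (hDB2 b hb).1
    rw [mem_Ico] at this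
    have h2 : ((b.2 : ℕ) + 1) * P ≤ 3 * P := Nat.mul_le_mul_right _ (by omega)
    omega
  · intro b hb
    exact (hB b.1 (JB b)).2 (hDB2 b hb).2
  · intro a a' hne hcl ha ha'
    obtain ⟨c, w⟩ := a
    obtain ⟨c', w'⟩ := a'
    simp only at hcl
    subst hcl
    have hww : (w : ℕ) ≠ w' := by
      intro hcon
      exact hne (by rw [Fin.ext hcon])
    have e1 := hDA2 _ ha
    have e2 := hDA2 _ ha'
    rw [mem_Ico] at e1 e2
    obtain ⟨j, hj⟩ := (hA c _).2.1 e1.2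
    obtain ⟨j', hj'⟩ := (hA c _).2.1 e2.2
    have k1 := lo_le e1.1.1
    have k2 := lo_le e2.1.1
    simp only at e1 e2 hj hj' k1 k2
    rcases lt_or_gt_of_ne hww with h | h
    · have h5 : ((w : ℕ) + 1) * P ≤ w' * P := Nat.mul_le_mul_right _ h
      have := spacingA hS hj hj' (by omega)
      rw [abs_sub_comm, abs_of_nonneg (by omega)]
      omega
    · have h5 : ((w' : ℕ) + 1) * P ≤ w * P := Nat.mul_le_mul_right _ h
      have := spacingA hS hj' hj (by omega)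
      rw [abs_of_nonneg (by omega)]
      omega
  · intro b b' hne hcl hb hb'
    obtain ⟨c, w⟩ := b
    obtain ⟨c', w'⟩ := b'
    simp only at hcl
    subst hcl
    have hww : (w : ℕ) ≠ w' := by
      intro hcon
      exact hne (by rw [Fin.ext hcon])
    have e1 := hDB2 _ hb
    have e2 := hDB2 _ hb'
    rw [mem_Ico] at e1 e2
    obtain ⟨j, hj⟩ := (hB c _).2 e1.2
    obtain ⟨j', hj'⟩ := (hB c _).2 e2.2
    have k1 := lo_le e1.1.1
    have k2 := lo_le e2.1.1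
    simp only at e1 e2 hj hj' k1 k2
    rcases lt_or_gt_of_ne hww with h | h
    · have h5 : ((w : ℕ) + 1) * P ≤ w' * P := Nat.mul_le_mul_right _ h
      have := spacingB hS (hε1.trans c0_34) hj hj' (by omega)
      rw [abs_sub_comm, abs_of_nonneg (by omega)]
      omega
    · have h5 : ((w' : ℕ) + 1) * P ≤ w * P := Nat.mul_le_mul_right _ h
      have := spacingB hS (hε1.trans c0_34) hj' hj (by omega)
      rw [abs_of_nonneg (by omega)]
      omega
  · have hsA : ∑ a, 3 * (g1 a.1 : ℝ) * (3 ^ q - 1) * ((DA a : ℝ) / 4 ^ (IA a)) =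
        ∑ c, 3 * (g1 c : ℝ) * (3 ^ q - 1) *
          ∑ i ∈ Ico 1 (2 * P), (Dd (al c) (be c) p q i : ℝ) / 4 ^ i := by
      rw [Fintype.sum_prod_type]
      refine Finset.sum_congr rfl ?_
      intro c _
      rw [sum_windows2 _ P hP1, mul_sum]
      refine Finset.sum_congr rfl ?_
      intro w _
      rw [← hDA4 (c, w)]
    have hsB : ∑ b, 2 * (g2 b.1 : ℝ) * (4 ^ p - 1) * ((DB b : ℝ) / 3 ^ (JB b)) =
        ∑ c, 2 * (g2 c : ℝ) * (4 ^ p - 1) *
          ∑ j ∈ Ico 1 (3 * P), (Dm (al c) (be c) p q j : ℝ) / 3 ^ j := by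
      rw [Fintype.sum_prod_type]
      refine Finset.sum_congr rfl ?_
      intro c _
      rw [sum_windows3 _ P hP1, mul_sum]
      refine Finset.sum_congr rfl ?_
      intro w _
      rw [← hDB4 (c, w)]
    rw [hZ, hsA, hsB, ← mul_sub, abs_mul, abs_of_nonneg (a := (r.den : ℝ)) (by positivity)]
    have hden : (0 : ℝ) ≤ r.den := by positivity
    have hX : (0 : ℝ) < 4 ^ (2 * P) := by positivity
    have h27 : (4 : ℝ) ^ (2 * P) ≤ 3 ^ (3 * P) := by
      rw [pow_mul, pow_mul]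
      exact pow_le_pow_left₀ (by norm_num) (by norm_num) _
    have h3q1 : (1 : ℝ) ≤ 3 ^ q := one_le_pow₀ (by norm_num)
    have h4p1 : (1 : ℝ) ≤ 4 ^ p := one_le_pow₀ (by norm_num)
    have hc : ∀ c, |3 * (g1 c : ℝ) * (3 ^ q - 1) * SD (al c) (be c) p q +
        2 * (g2 c : ℝ) * (4 ^ p - 1) * SM (al c) (be c) p q -
        (3 * (g1 c : ℝ) * (3 ^ q - 1) *
          ∑ i ∈ Ico 1 (2 * P), (Dd (al c) (be c) p q i : ℝ) / 4 ^ i +
        2 * (g2 c : ℝ) * (4 ^ p - 1) *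
          ∑ j ∈ Ico 1 (3 * P), (Dm (al c) (be c) p q j : ℝ) / 3 ^ j)| ≤
        ((8 * |g1 c| + 3 * |g2 c| : ℤ) : ℝ) * (4 ^ p / 4 ^ (2 * P)) := by
      intro c
      have t1 := trunc 4 (by norm_num) (Dd (al c) (be c) p q) (fun i => (hA c i).1) (2 * P)
        (by omega) (summ_Dd (al_pos c) (be_pos c) p q)
      have t2 := trunc 3 (by norm_num) (Dm (al c) (be c) p q) (fun i => (hB c i).1) (3 * P)
        (by omega) (summ_Dm (al_pos c) (be_pos c) p q)
      have u1 : (4 : ℝ) / (4 - 1) / 4 ^ (2 * P) = (4 / 3) / 4 ^ (2 * P) := by norm_num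
      have u2 : (3 : ℝ) / (3 - 1) / 3 ^ (3 * P) ≤ (3 / 2) / 4 ^ (2 * P) := by
        have : (3 : ℝ) / (3 - 1) = 3 / 2 := by norm_num
        rw [this]
        exact div_le_div_of_nonneg_left (by norm_num) hX h27
      rw [u1] at t1
      replace t2 := t2.trans u2
      change |SD (al c) (be c) p q - _| ≤ _ at t1
      change |SM (al c) (be c) p q - _| ≤ _ at t2
      set X := SD (al c) (be c) p q - ∑ i ∈ Ico 1 (2 * P), (Dd (al c) (be c) p q i : ℝ) / 4 ^ i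
        with hXdef
      set Y := SM (al c) (be c) p q - ∑ j ∈ Ico 1 (3 * P), (Dm (al c) (be c) p q j : ℝ) / 3 ^ j
        with hYdef
      have e1 : 3 * (g1 c : ℝ) * (3 ^ q - 1) * SD (al c) (be c) p q +
        2 * (g2 c : ℝ) * (4 ^ p - 1) * SM (al c) (be c) p q -
        (3 * (g1 c : ℝ) * (3 ^ q - 1) *
          ∑ i ∈ Ico 1 (2 * P), (Dd (al c) (be c) p q i : ℝ) / 4 ^ i +
        2 * (g2 c : ℝ) * (4 ^ p - 1) *
          ∑ j ∈ Ico 1 (3 * P), (Dm (al c) (be c) p q j : ℝ) / 3 ^ j) =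
          3 * (g1 c : ℝ) * (3 ^ q - 1) * X + 2 * (g2 c : ℝ) * (4 ^ p - 1) * Y := by
        rw [hXdef, hYdef]
        ring
      rw [e1]
      refine (abs_add_le _ _).trans ?_
      have b1 : |3 * (g1 c : ℝ) * (3 ^ q - 1) * X| ≤
          8 * |(g1 c : ℝ)| * (4 ^ p / 4 ^ (2 * P)) := by
        rw [abs_mul, abs_mul, abs_mul, abs_of_pos (a := (3 : ℝ)) (by norm_num),
          abs_of_nonneg (a := (3 : ℝ) ^ q - 1) (by linarith)]
        calc 3 * |(g1 c : ℝ)| * (3 ^ q - 1) * |X| ≤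
              3 * |(g1 c : ℝ)| * (2 * 4 ^ p) * (4 / 3 / 4 ^ (2 * P)) := by
              apply mul_le_mul _ t1 (abs_nonneg _) (by positivity)
              apply mul_le_mul_of_nonneg_left _ (by positivity)
              linarith
          _ = 8 * |(g1 c : ℝ)| * (4 ^ p / 4 ^ (2 * P)) := by
              ring
      have b2 : |2 * (g2 c : ℝ) * (4 ^ p - 1) * Y| ≤
          3 * |(g2 c : ℝ)| * (4 ^ p / 4 ^ (2 * P)) := by
        rw [abs_mul, abs_mul, abs_mul, abs_of_pos (a := (2 : ℝ)) (by norm_num),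
          abs_of_nonneg (a := (4 : ℝ) ^ p - 1) (by linarith)]
        calc 2 * |(g2 c : ℝ)| * (4 ^ p - 1) * |Y| ≤
              2 * |(g2 c : ℝ)| * (4 ^ p) * (3 / 2 / 4 ^ (2 * P)) := by
              apply mul_le_mul _ t2 (abs_nonneg _) (by positivity)
              apply mul_le_mul_of_nonneg_left _ (by positivity)
              linarith
          _ = 3 * |(g2 c : ℝ)| * (4 ^ p / 4 ^ (2 * P)) := by
              ring
      push_cast
      linarith
    have hfin : |WW p q - (∑ c, 3 * (g1 c : ℝ) * (3 ^ q - 1) *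
          ∑ i ∈ Ico 1 (2 * P), (Dd (al c) (be c) p q i : ℝ) / 4 ^ i +
        ∑ c, 2 * (g2 c : ℝ) * (4 ^ p - 1) *
          ∑ j ∈ Ico 1 (3 * P), (Dm (al c) (be c) p q j : ℝ) / 3 ^ j)| ≤
        3000 * (4 ^ p / 4 ^ (2 * P)) := by
      unfold WW
      rw [← Finset.sum_add_distrib, ← Finset.sum_sub_distrib]
      refine (Finset.abs_sum_le_sum_abs _ _).trans ?_
      refine (Finset.sum_le_sum (fun c _ => hc c)).trans ?_
      rw [← Finset.sum_mul, ← Int.cast_sum]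
      have hs : ∑ c, (8 * |g1 c| + 3 * |g2 c| : ℤ) = 2200 := by decide
      rw [hs]
      have : (0 : ℝ) ≤ 4 ^ p / 4 ^ (2 * P) := by positivity
      push_cast
      nlinarith
    calc _ ≤ (r.den : ℝ) * (3000 * (4 ^ p / 4 ^ (2 * P))) := mul_le_mul_of_nonneg_left hfin hden
      _ = _ := by ring

end Pool.Agent.Helper90.NTM.Irr
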