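import Mathlib

/-!
# Sums of S-units with respect to 2 and 3, assuming the Subspace theorem

`SubspaceQ` is the statement of the `p`-adic Subspace theorem over the rationals for the places
infinity, 2, 3 and rational linear forms.  From it we derive lower bounds for sums of S-units along
sequences.
-/

open Finset

namespace Pool.Agent.Helper90.NTM.Irr

/-- the three absolute values -/
noncomputable def nv (v : Fin 3) (x : ℚ) : ℝ :=
  if v = 0 then |(x : ℝ)| else if v = 1 then ((padicNorm 2 x : ℚ) : ℝ)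
    else ((padicNorm 3 x : ℚ) : ℝ)

lemma nv_nonneg (v : Fin 3) (x : ℚ) : 0 ≤ nv v x := by
  unfold nv
  split_ifs
  · exact abs_nonneg _
  · exact_mod_cast padicNorm.nonneg x
  · exact_mod_cast padicNorm.nonneg x

lemma nv_mul (v : Fin 3) (x y : ℚ) : nv v (x * y) = nv v x * nv v y := by
  have : Fact (Nat.Prime 2) := ⟨Nat.prime_two⟩
  have : Fact (Nat.Prime 3) := ⟨Nat.prime_three⟩
  unfold nv
  split_ifs
  · push_cast; exact abs_mul _ _
  · rw [padicNorm.mul]; push_cast; ring
  · rw [padicNorm.mul]; push_cast; ring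

lemma nv_pos (v : Fin 3) {x : ℚ} (hx : x ≠ 0) : 0 < nv v x := by
  have : Fact (Nat.Prime 2) := ⟨Nat.prime_two⟩
  have : Fact (Nat.Prime 3) := ⟨Nat.prime_three⟩
  unfold nv
  split_ifs
  · exact abs_pos.2 (by exact_mod_cast hx)
  · have h1 : padicNorm 2 x ≠ 0 := padicNorm.nonzero hx
    have h2 := padicNorm.nonneg (p := 2) x
    exact_mod_cast lt_of_le_of_ne h2 (Ne.symm h1)
  · have h1 : padicNorm 3 x ≠ 0 := padicNorm.nonzero hx
    have h2 := padicNorm.nonneg (p := 3) x
    exact_mod_cast lt_of_le_of_ne h2 (Ne.symm h1)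

lemma nv_zero (v : Fin 3) : nv v 0 = 0 := by
  unfold nv
  split_ifs <;> simp

lemma nv_neg (v : Fin 3) (x : ℚ) : nv v (-x) = nv v x := by
  unfold nv
  split_ifs
  · push_cast; exact abs_neg _
  · rw [padicNorm.neg]
  · rw [padicNorm.neg]

lemma nv_inf (x : ℚ) : nv 0 x = |(x : ℝ)| := by simp [nv]

lemma nv_two (x : ℚ) : nv 1 x = ((padicNorm 2 x : ℚ) : ℝ) := by simp [nv]

lemma nv_three (x : ℚ) : nv 2 x = ((padicNorm 3 x : ℚ) : ℝ) := by
  simp [nv]

/-- The `p`-adic Subspace theorem over the rationals, for the places infinity, 2, 3 and rational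
linear forms, along an infinite set of indices: if the product of the forms is small at the
S-integral points `x k`, then infinitely many of them lie in one proper subspace.
`M k v` is any upper bound of the coordinates of `x k` at the place `v`. -/
def SubspaceQ : Prop :=
  ∀ (ι : Type) [Fintype ι], 2 ≤ Fintype.card ι → ∀ (L : Fin 3 → ι → ι → ℚ),
    (∀ v, ∀ y : ι → ℚ, (∀ i, ∑ j, L v i j * y j = 0) → y = 0) → ∀ ε : ℝ, 0 < ε →
    ∀ (x : ℕ → ι → ℚ) (M : ℕ → Fin 3 → ℝ) (K : Set ℕ), K.Infinite → (∀ k ∈ K, x k ≠ 0) →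
    (∀ k ∈ K, ∀ i, ∀ q : ℕ, q.Prime → q ≠ 2 → q ≠ 3 → padicNorm q (x k i) ≤ 1) →
    (∀ k ∈ K, ∀ v i, nv v (x k i) ≤ M k v) →
    (∀ k ∈ K, ∏ v, ∏ i, nv v (∑ j, L v i j * x k j) ≤ (∏ v, M k v) ^ (-ε)) →
    ∃ β : ι → ℚ, β ≠ 0 ∧ {k | k ∈ K ∧ ∑ i, β i * x k i = 0}.Infinite

/-- the Subspace theorem along an infinite set of indices -/
lemma sub_inf (h : SubspaceQ) {ι : Type} [Fintype ι] (hc : 2 ≤ Fintype.card ι)
    (L : Fin 3 → ι → ι → ℚ) (hL : ∀ v, ∀ y : ι → ℚ, (∀ i, ∑ j, L v i j * y j = 0) → y = 0)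
    (ε : ℝ) (hε : 0 < ε) (x : ℕ → ι → ℚ) (M : ℕ → Fin 3 → ℝ) (K : Set ℕ) (hK : K.Infinite)
    (hx : ∀ k ∈ K, x k ≠ 0)
    (hint : ∀ k ∈ K, ∀ i, ∀ q : ℕ, q.Prime → q ≠ 2 → q ≠ 3 → padicNorm q (x k i) ≤ 1)
    (hM : ∀ k ∈ K, ∀ v i, nv v (x k i) ≤ M k v)
    (hp : ∀ k ∈ K, ∏ v, ∏ i, nv v (∑ j, L v i j * x k j) ≤ (∏ v, M k v) ^ (-ε)) :
    ∃ β : ι → ℚ, β ≠ 0 ∧ {k | k ∈ K ∧ ∑ i, β i * x k i = 0}.Infinite :=
  h ι hc L hL ε hε x M K hK hx hint hM hp

/-- sequences of S-units -/
structure SUnits {σ : Type} (u : σ → ℕ → ℚ) : Prop where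
  ne : ∀ s k, u s k ≠ 0
  prod : ∀ s k, ∏ v, nv v (u s k) = 1
  int : ∀ s k, ∀ q : ℕ, q.Prime → q ≠ 2 → q ≠ 3 → padicNorm q (u s k) ≤ 1

/-- each ratio takes each value finitely often -/
def NonRep {σ : Type} (u : σ → ℕ → ℚ) (A : Finset σ) : Prop :=
  ∀ s ∈ A, ∀ s' ∈ A, s ≠ s' → ∀ r : ℚ, {k | u s k = r * u s' k}.Finite

lemma NonRep.mono {σ : Type} {u : σ → ℕ → ℚ} {A B : Finset σ} (h : NonRep u A) (hBA : B ⊆ A) :
    NonRep u B := fun s hs s' hs' hne r => h s (hBA hs) s' (hBA hs') hne r

lemma pig {α : Type} [Finite α] (f : ℕ → α) (K : Set ℕ) (hK : K.Infinite) :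
    ∃ a, {k | k ∈ K ∧ f k = a}.Infinite := by
  by_contra hcon
  push Not at hcon
  apply hK
  have hsub : K ⊆ ⋃ a, {k | k ∈ K ∧ f k = a} := by
    intro k hk
    simp only [Set.mem_iUnion]
    exact ⟨f k, hk, rfl⟩
  exact Set.Finite.subset (Set.finite_iUnion hcon) hsub

/-- a nonzero relation on a subtype gives a relation with nonzero coefficients on a subset -/
lemma restrict_rel {σ : Type} [DecidableEq σ] (u : σ → ℕ → ℚ) (B : Finset σ)
    (b : {s // s ∈ B} → ℚ) (hb : b ≠ 0) :
    ∃ (A' : Finset σ) (b' : σ → ℚ), A' ⊆ B ∧ A'.Nonempty ∧ (∀ s ∈ A', b' s ≠ 0) ∧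
      (∀ s : {s // s ∈ B}, b' s.1 = b s) ∧ (∀ s : {s // s ∈ B}, b s ≠ 0 → s.1 ∈ A') ∧
      ∀ k, ∑ s ∈ A', b' s * u s k = ∑ i, b i * u i.1 k := by
  classical
  set b' : σ → ℚ := fun s => if h : s ∈ B then b ⟨s, h⟩ else 0 with hb'
  have e1 : ∀ s : {s // s ∈ B}, b' s.1 = b s := by
    intro s
    simp only [hb']
    rw [dif_pos s.2]
  refine ⟨B.filter (fun s => b' s ≠ 0), b', Finset.filter_subset _ _, ?_, ?_, e1, ?_, ?_⟩
  · by_contra hcon
    rw [Finset.not_nonempty_iff_eq_empty, Finset.filter_eq_empty_iff] at hcon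
    apply hb
    funext i
    have := hcon i.2
    rw [not_not, e1] at this
    exact this
  · intro s hs
    exact (Finset.mem_filter.1 hs).2
  · intro s hs
    refine Finset.mem_filter.2 ⟨s.2, ?_⟩
    rw [e1]
    exact hs
  · intro k
    rw [Finset.sum_filter_of_ne]
    · rw [← Finset.sum_coe_sort B (fun s => b' s * u s k)]
      refine Finset.sum_congr rfl ?_
      intro i _
      rw [e1]
    · intro s _ hne h0
      apply hne
      rw [h0, zero_mul]

theorem su (h : SubspaceQ) {σ : Type} [DecidableEq σ] (u : σ → ℕ → ℚ) (hu : SUnits u) :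
    ∀ (n : ℕ) (A : Finset σ), A.card = n → A.Nonempty → NonRep u A → ∀ β : σ → ℚ,
      (∀ s ∈ A, β s ≠ 0) → {k | ∑ s ∈ A, β s * u s k = 0}.Finite := by
  intro n
  induction n using Nat.strong_induction_on with
  | _ n ih =>
  intro A hA hne hrep β hβ
  rcases lt_trichotomy n 2 with h2 | h2 | h2
  · have hn : A.card = 1 := by have := hne.card_pos; omega
    obtain ⟨s, rfl⟩ := Finset.card_eq_one.1 hn
    have he : {k | ∑ s ∈ ({s} : Finset σ), β s * u s k = 0} = ∅ := by
      ext k
      simp only [sum_singleton, Set.mem_ofPred_eq, Set.mem_empty_iff_false, iff_false]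
      exact mul_ne_zero (hβ s (by simp)) (hu.ne s k)
    rw [he]
    exact Set.finite_empty
  · obtain ⟨s, t, hst, rfl⟩ := Finset.card_eq_two.1 (hA.trans h2)
    refine (hrep s (by simp) t (by simp) hst (-(β t / β s))).subset ?_
    intro k hk
    simp only [Set.mem_ofPred_eq, sum_pair hst] at hk ⊢
    have hs := hβ s (by simp)
    field_simp
    linarith
  · by_contra hinf
    set K : Set ℕ := {k | ∑ s ∈ A, β s * u s k = 0} with hKdef
    have hK : K.Infinite := hinf
    obtain ⟨s1, hs1⟩ := hne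
    have hmax : ∀ (k : ℕ) (v : Fin 3), ∃ m : {s // s ∈ A}, ∀ s ∈ A, nv v (u s k) ≤ nv v (u m.1 k) := by
      intro k v
      obtain ⟨m, hm, hm2⟩ := Finset.exists_max_image A (fun s => nv v (u s k)) ⟨s1, hs1⟩
      exact ⟨⟨m, hm⟩, hm2⟩
    choose mx hmx using hmax
    obtain ⟨m, hm⟩ := pig mx K hK
    set K' : Set ℕ := {k | k ∈ K ∧ mx k = m} with hK'
    set B := A.erase s1 with hB
    have hBc : B.card = n - 1 := by rw [hB, Finset.card_erase_of_mem hs1, hA]
    have hβ1 := hβ s1 hs1
    set L : Fin 3 → {s // s ∈ B} → {s // s ∈ B} → ℚ := fun v i j =>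
      if i.1 = (m v).1 then -(β j.1) / β s1 else if i = j then 1 else 0 with hL
    have hinj : ∀ v, ∀ y : {s // s ∈ B} → ℚ, (∀ i, ∑ j, L v i j * y j = 0) → y = 0 := by
      intro v y hy
      have h1 : ∀ i : {s // s ∈ B}, i.1 ≠ (m v).1 → y i = 0 := by
        intro i hi
        have := hy i
        simp only [hL, if_neg hi] at this
        simpa using this
      funext i
      by_cases hi : i.1 = (m v).1
      · have h3 := hy i
        simp only [hL, if_pos hi] at h3
        rw [Finset.sum_eq_single i] at h3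
        · have h4 : -(β i.1) / β s1 ≠ 0 := by
            exact div_ne_zero (neg_ne_zero.2 (hβ i.1 (Finset.mem_of_mem_erase i.2))) hβ1
          simpa using (mul_eq_zero.1 h3).resolve_left h4
        · intro j _ hj
          rw [h1 j, mul_zero]
          intro hcon
          exact hj (Subtype.ext (hcon.trans hi.symm))
        · intro hcon
          exact absurd (Finset.mem_univ i) hcon
      · exact h1 i hi
    have hval : ∀ k ∈ K, ∀ v (i : {s // s ∈ B}), ∑ j, L v i j * u j.1 k =
        if i.1 = (m v).1 then u s1 k else u i.1 k := by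
      intro k hk v i
      by_cases hi : i.1 = (m v).1
      · rw [if_pos hi]
        simp only [hL, if_pos hi]
        have h1 : ∑ s ∈ A, β s * u s k = 0 := hk
        rw [← Finset.add_sum_erase A _ hs1, ← hB, ← Finset.sum_coe_sort B] at h1
        have h2 : ∑ j : {s // s ∈ B}, -(β j.1) / β s1 * u j.1 k =
            -(∑ j : {s // s ∈ B}, β j.1 * u j.1 k) / β s1 := by
          rw [← Finset.sum_neg_distrib, Finset.sum_div]
          refine Finset.sum_congr rfl ?_
          intro j _
          ring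
        rw [h2]
        field_simp
        linarith
      · rw [if_neg hi]
        simp only [hL, if_neg hi]
        simp
    have hprod : ∀ k ∈ K, ∀ v, (∏ i, nv v (∑ j, L v i j * u j.1 k)) * nv v (u (m v).1 k) =
        ∏ s ∈ A, nv v (u s k) := by
      intro k hk v
      have h1 : ∏ i : {s // s ∈ B}, nv v (∑ j, L v i j * u j.1 k) =
          ∏ s ∈ B, (if s = (m v).1 then nv v (u s1 k) else nv v (u s k)) := by
        rw [← Finset.prod_coe_sort B (fun s => if s = (m v).1 then nv v (u s1 k)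
          else nv v (u s k))]
        refine Finset.prod_congr rfl ?_
        intro i _
        rw [hval k hk v i]
        split_ifs <;> rfl
      rw [h1, ← Finset.mul_prod_erase A _ hs1, ← hB]
      by_cases hmB : (m v).1 ∈ B
      · rw [← Finset.mul_prod_erase B _ hmB, ← Finset.mul_prod_erase B (fun s => nv v (u s k)) hmB,
          if_pos rfl]
        have h2 : ∏ s ∈ B.erase (m v).1, (if s = (m v).1 then nv v (u s1 k) else nv v (u s k)) =
            ∏ s ∈ B.erase (m v).1, nv v (u s k) := by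
          refine Finset.prod_congr rfl ?_
          intro s hs
          rw [if_neg (Finset.ne_of_mem_erase hs)]
        rw [h2]
        ring
      · have hms : (m v).1 = s1 := by
          by_contra hcon
          exact hmB (Finset.mem_erase.2 ⟨hcon, (m v).2⟩)
        have h2 : ∏ s ∈ B, (if s = (m v).1 then nv v (u s1 k) else nv v (u s k)) =
            ∏ s ∈ B, nv v (u s k) := by
          refine Finset.prod_congr rfl ?_
          intro s hs
          rw [if_neg]
          intro hcon
          exact hmB (hcon ▸ hs)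
        rw [h2, hms]
        ring
    have hBne : B.Nonempty := by
      rw [← Finset.card_pos]; omega
    obtain ⟨b, hb0, hbinf⟩ := sub_inf h (ι := {s // s ∈ B}) (by simp [hBc]; omega) L hinj 1 one_pos
      (fun k i => u i.1 k) (fun k v => nv v (u (m v).1 k)) K' hm
      (by
        intro k hk hcon
        obtain ⟨s, hs⟩ := hBne
        exact hu.ne s k (congrFun hcon ⟨s, hs⟩))
      (by
        intro k hk i q hq h2 h3
        exact hu.int i.1 k q hq h2 h3)
      (by
        intro k hk v i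
        have h1 := hmx k v i.1 (Finset.mem_of_mem_erase i.2)
        rw [hk.2] at h1
        exact h1)
      (by
        intro k hk
        have hMpos : ∀ v, 0 < nv v (u (m v).1 k) := fun v => nv_pos v (hu.ne _ k)
        have hP : 0 < ∏ v, nv v (u (m v).1 k) := Finset.prod_pos (fun v _ => hMpos v)
        have h1 : (∏ v, ∏ i : {s // s ∈ B}, nv v (∑ j, L v i j * u j.1 k)) *
            ∏ v, nv v (u (m v).1 k) = 1 := by
          rw [← Finset.prod_mul_distrib]
          rw [Finset.prod_congr rfl (fun v _ => hprod k hk.1 v)]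
          rw [Finset.prod_comm]
          exact Finset.prod_eq_one (fun s _ => hu.prod s k)
        rw [Real.rpow_neg_one]
        rw [← eq_div_iff (ne_of_gt hP), one_div] at h1
        exact h1.le)
    obtain ⟨A', b', hA'B, hA'ne, hb', -, -, hsum⟩ := restrict_rel u B b hb0
    apply hbinf
    have hcard : A'.card < n := by
      have := Finset.card_le_card hA'B
      omega
    have hfin := ih A'.card hcard A' rfl hA'ne
      (hrep.mono (hA'B.trans (Finset.erase_subset _ _))) b' hb'
    refine hfin.subset ?_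
    intro k hk
    show ∑ s ∈ A', b' s * u s k = 0
    rw [hsum]
    exact hk.2

/-- a lower bound for sums of S-units at each place -/
theorem sul (h : SubspaceQ) {σ : Type} [DecidableEq σ] (u : σ → ℕ → ℚ) (hu : SUnits u)
    (A : Finset σ) (hrep : NonRep u A) (γ : σ → ℚ) (hγ : ∀ s ∈ A, γ s ≠ 0) (s0 : σ) (hs0 : s0 ∈ A)
    (v0 : Fin 3) (H : ℕ → ℝ) (hH : Filter.Tendsto H Filter.atTop Filter.atTop)
    (hb : ∀ s ∈ A, ∀ v k, nv v (u s k) ≤ H k) (δ : ℝ) (hδ : 0 < δ) :
    {k | nv v0 (∑ s ∈ A, γ s * u s k) ≤ nv v0 (u s0 k) * (H k) ^ (-δ)}.Finite := by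
  by_cases hc : A.card = 1
  · obtain ⟨s, hs⟩ := Finset.card_eq_one.1 hc
    rw [hs, Finset.mem_singleton] at hs0
    subst hs0
    have hg : 0 < nv v0 (γ s0) := nv_pos _ (hγ s0 (by rw [hs]; simp))
    have hlim : Filter.Tendsto (fun k => (H k) ^ (-δ)) Filter.atTop (nhds 0) :=
      (tendsto_rpow_neg_atTop hδ).comp hH
    have hev := (hlim.eventually (gt_mem_nhds hg))
    rw [← Nat.cofinite_eq_atTop, Filter.eventually_cofinite] at hev
    refine hev.subset ?_
    intro k hk
    simp only [Set.mem_ofPred_eq, hs, sum_singleton, nv_mul, not_lt] at hk ⊢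
    have hup : 0 < nv v0 (u s0 k) := nv_pos _ (hu.ne _ _)
    rw [mul_comm] at hk
    exact le_of_mul_le_mul_left hk hup
  · have hc2 : 2 ≤ A.card := by
      have : 0 < A.card := Finset.card_pos.2 ⟨s0, hs0⟩
      omega
    by_contra hinf
    set K : Set ℕ := {k | nv v0 (∑ s ∈ A, γ s * u s k) ≤ nv v0 (u s0 k) * (H k) ^ (-δ)} with hKdef
    have hK : K.Infinite := hinf
    set L : Fin 3 → {s // s ∈ A} → {s // s ∈ A} → ℚ := fun v i j =>
      if v = v0 ∧ i.1 = s0 then γ j.1 else if i = j then 1 else 0 with hL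
    have hinj : ∀ v, ∀ y : {s // s ∈ A} → ℚ, (∀ i, ∑ j, L v i j * y j = 0) → y = 0 := by
      intro v y hy
      have h1 : ∀ i : {s // s ∈ A}, ¬ (v = v0 ∧ i.1 = s0) → y i = 0 := by
        intro i hi
        have := hy i
        simp only [hL, if_neg hi] at this
        simpa using this
      funext i
      by_cases hi : v = v0 ∧ i.1 = s0
      · have h3 := hy i
        simp only [hL, if_pos hi] at h3
        rw [Finset.sum_eq_single i] at h3
        · simpa using (mul_eq_zero.1 h3).resolve_left (hγ i.1 i.2)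
        · intro j _ hj
          rw [h1 j, mul_zero]
          rintro ⟨-, hcon⟩
          exact hj (Subtype.ext (hcon.trans hi.2.symm))
        · intro hcon
          exact absurd (Finset.mem_univ i) hcon
      · exact h1 i hi
    have hval : ∀ k v (i : {s // s ∈ A}), ∑ j, L v i j * u j.1 k =
        if v = v0 ∧ i.1 = s0 then ∑ s ∈ A, γ s * u s k else u i.1 k := by
      intro k v i
      by_cases hi : v = v0 ∧ i.1 = s0
      · rw [if_pos hi]
        simp only [hL, if_pos hi]
        rw [← Finset.sum_coe_sort A]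
      · rw [if_neg hi]
        simp only [hL, if_neg hi]
        simp
    have hprod1 : ∀ k v, v ≠ v0 → ∏ i, nv v (∑ j, L v i j * u j.1 k) = ∏ s ∈ A, nv v (u s k) := by
      intro k v hv
      rw [← Finset.prod_coe_sort A (fun s => nv v (u s k))]
      refine Finset.prod_congr rfl ?_
      intro i _
      rw [hval k v i, if_neg]
      rintro ⟨hcon, -⟩
      exact hv hcon
    have hprod2 : ∀ k ∈ K, ∏ i, nv v0 (∑ j, L v0 i j * u j.1 k) ≤
        (∏ s ∈ A, nv v0 (u s k)) * (H k) ^ (-δ) := by
      intro k hk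
      have h1 : ∏ i : {s // s ∈ A}, nv v0 (∑ j, L v0 i j * u j.1 k) =
          ∏ s ∈ A, (if s = s0 then nv v0 (∑ s ∈ A, γ s * u s k) else nv v0 (u s k)) := by
        rw [← Finset.prod_coe_sort A (fun s => if s = s0 then nv v0 (∑ s ∈ A, γ s * u s k)
          else nv v0 (u s k))]
        refine Finset.prod_congr rfl ?_
        intro i _
        rw [hval k v0 i]
        by_cases hi : i.1 = s0
        · rw [if_pos hi, if_pos ⟨rfl, hi⟩]
        · rw [if_neg hi, if_neg (fun hcon => hi hcon.2)]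
      rw [h1, ← Finset.mul_prod_erase A _ hs0, ← Finset.mul_prod_erase A (fun s => nv v0 (u s k)) hs0,
        if_pos rfl]
      have h2 : ∏ s ∈ A.erase s0, (if s = s0 then nv v0 (∑ s ∈ A, γ s * u s k)
          else nv v0 (u s k)) = ∏ s ∈ A.erase s0, nv v0 (u s k) := by
        refine Finset.prod_congr rfl ?_
        intro s hs
        rw [if_neg (Finset.ne_of_mem_erase hs)]
      rw [h2]
      have h3 : 0 ≤ ∏ s ∈ A.erase s0, nv v0 (u s k) := Finset.prod_nonneg (fun s _ => nv_nonneg _ _)
      calc nv v0 (∑ s ∈ A, γ s * u s k) * ∏ s ∈ A.erase s0, nv v0 (u s k)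
          ≤ (nv v0 (u s0 k) * (H k) ^ (-δ)) * ∏ s ∈ A.erase s0, nv v0 (u s k) :=
            mul_le_mul_of_nonneg_right hk h3
        _ = _ := by ring
    have hHpos : ∀ k, 0 < H k := by
      intro k
      exact lt_of_lt_of_le (nv_pos 0 (hu.ne s0 k)) (hb s0 hs0 0 k)
    obtain ⟨b, hb0, hbinf⟩ := sub_inf h (ι := {s // s ∈ A}) (by simpa using hc2) L hinj (δ / 3)
      (by positivity) (fun k i => u i.1 k) (fun k _ => H k) K hK
      (by
        intro k hk hcon
        exact hu.ne s0 k (congrFun hcon ⟨s0, hs0⟩))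
      (by
        intro k hk i q hq h2 h3
        exact hu.int i.1 k q hq h2 h3)
      (by
        intro k hk v i
        exact hb i.1 i.2 v k)
      (by
        intro k hk
        have e1 : (∏ _v : Fin 3, H k) ^ (-(δ / 3)) = (H k) ^ (-δ) := by
          rw [Finset.prod_const, Finset.card_univ, Fintype.card_fin]
          rw [← Real.rpow_natCast, ← Real.rpow_mul (hHpos k).le]
          congr 1
          push_cast
          ring
        rw [e1]
        have e2 : ∏ v, ∏ i : {s // s ∈ A}, nv v (∑ j, L v i j * u j.1 k) ≤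
            (∏ v, ∏ s ∈ A, nv v (u s k)) * (H k) ^ (-δ) := by
          rw [← Finset.mul_prod_erase Finset.univ _ (Finset.mem_univ v0),
            ← Finset.mul_prod_erase Finset.univ (fun v => ∏ s ∈ A, nv v (u s k))
              (Finset.mem_univ v0)]
          have e3 : ∏ v ∈ Finset.univ.erase v0, ∏ i : {s // s ∈ A}, nv v (∑ j, L v i j * u j.1 k) =
              ∏ v ∈ Finset.univ.erase v0, ∏ s ∈ A, nv v (u s k) := by
            refine Finset.prod_congr rfl ?_
            intro v hv
            exact hprod1 k v (Finset.ne_of_mem_erase hv)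
          rw [e3]
          have e4 : 0 ≤ ∏ v ∈ Finset.univ.erase v0, ∏ s ∈ A, nv v (u s k) :=
            Finset.prod_nonneg (fun v _ => Finset.prod_nonneg (fun s _ => nv_nonneg _ _))
          calc _ ≤ ((∏ s ∈ A, nv v0 (u s k)) * (H k) ^ (-δ)) *
                ∏ v ∈ Finset.univ.erase v0, ∏ s ∈ A, nv v (u s k) :=
              mul_le_mul_of_nonneg_right (hprod2 k hk) e4
            _ = _ := by ring
        rw [Finset.prod_comm] at e2
        rw [Finset.prod_comm]
        have e5 : ∏ s ∈ A, ∏ v, nv v (u s k) = 1 := Finset.prod_eq_one (fun s _ => hu.prod s k)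
        rw [Finset.prod_comm] at e5
        rw [e5, one_mul] at e2
        exact e2)
    obtain ⟨A', b', hA'B, hA'ne, hb', -, -, hsum⟩ := restrict_rel u A b hb0
    apply hbinf
    have hfin := su h u hu A'.card A' rfl hA'ne (hrep.mono hA'B) b' hb'
    refine hfin.subset ?_
    intro k hk
    show ∑ s ∈ A', b' s * u s k = 0
    rw [hsum]
    exact hk.2

lemma nv_int_le (v : Fin 3) (hv : v ≠ 0) (z : ℤ) : nv v (z : ℚ) ≤ 1 := by
  have : Fact (Nat.Prime 2) := ⟨Nat.prime_two⟩
  have : Fact (Nat.Prime 3) := ⟨Nat.prime_three⟩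
  unfold nv
  rw [if_neg hv]
  split_ifs
  · exact_mod_cast padicNorm.of_int z
  · exact_mod_cast padicNorm.of_int z

/-- integers are not well approximated by sums of S-units in which one term is small but has a
large denominator -/
theorem thmA (h : SubspaceQ) {σ : Type} [DecidableEq σ] (u : σ → ℕ → ℚ) (hu : SUnits u)
    (A : Finset σ) (hrep : NonRep u A) (c : σ → ℚ) (s0 : σ) (hs0 : s0 ∈ A) (hc0 : c s0 ≠ 0)
    (H : ℕ → ℝ) (hH : Filter.Tendsto H Filter.atTop Filter.atTop)
    (hb : ∀ s ∈ A, ∀ v k, nv v (u s k) ≤ H k)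
    (Z : ℕ → ℤ) (hZ : ∀ k, |(Z k : ℝ)| ≤ H k) (h1H : ∀ k, 1 ≤ H k) (δ : ℝ) (hδ : 0 < δ)
    (herr : ∀ k, nv 0 ((Z k : ℚ) - ∑ s ∈ A, c s * u s k) ≤ nv 0 (u s0 k) * (H k) ^ (-δ))
    (hle : ∀ k, nv 0 (u s0 k) ≤ 1) (h2 : ∀ k, (H k) ^ δ ≤ nv 1 (u s0 k)) : False := by
  have hHpos : ∀ k, 0 < H k := fun k => lt_of_lt_of_le one_pos (h1H k)
  set L : Fin 3 → Option {s // s ∈ A} → Option {s // s ∈ A} → ℚ := fun v i j =>
    match i, j with
    | none, none => 1
    | none, some j => if v = 0 then -c j.1 else 0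
    | some _, none => 0
    | some i, some j => if i = j then 1 else 0 with hL
  set x : ℕ → Option {s // s ∈ A} → ℚ := fun k i =>
    match i with
    | none => (Z k : ℚ)
    | some i => u i.1 k with hx
  have hinj : ∀ v, ∀ y : Option {s // s ∈ A} → ℚ, (∀ i, ∑ j, L v i j * y j = 0) → y = 0 := by
    intro v y hy
    have h1 : ∀ i : {s // s ∈ A}, y (some i) = 0 := by
      intro i
      have := hy (some i)
      rw [Fintype.sum_option] at this
      simpa [hL] using this
    funext i
    rcases i with _ | i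
    · have h3 := hy none
      rw [Fintype.sum_option] at h3
      simpa [hL, h1] using h3
    · exact h1 i
  have hvsome : ∀ k v (i : {s // s ∈ A}), ∑ j, L v (some i) j * x k j = u i.1 k := by
    intro k v i
    rw [Fintype.sum_option]
    simp [hL, hx]
  have hv0 : ∀ k, ∑ j, L 0 none j * x k j = (Z k : ℚ) - ∑ s ∈ A, c s * u s k := by
    intro k
    rw [Fintype.sum_option]
    simp only [hL, hx, if_true]
    rw [← Finset.sum_coe_sort A]
    simp only [one_mul, neg_mul, Finset.sum_neg_distrib]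
    ring
  have hv1 : ∀ k v, v ≠ 0 → ∑ j, L v none j * x k j = (Z k : ℚ) := by
    intro k v hv
    rw [Fintype.sum_option]
    simp [hL, hx, hv]
  obtain ⟨β, hβ0, hβinf⟩ := sub_inf h (ι := Option {s // s ∈ A})
    (by
      have : 0 < A.card := Finset.card_pos.2 ⟨s0, hs0⟩
      simp only [Fintype.card_option, Fintype.card_coe]
      omega) L hinj (δ / 3) (by positivity) x (fun k _ => H k) Set.univ Set.infinite_univ
    (by
      intro k _ hcon
      exact hu.ne s0 k (congrFun hcon (some ⟨s0, hs0⟩)))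
    (by
      intro k _ i q hq h2 h3
      have : Fact (Nat.Prime q) := ⟨hq⟩
      rcases i with _ | i
      · exact padicNorm.of_int (Z k)
      · exact hu.int i.1 k q hq h2 h3)
    (by
      intro k _ v i
      rcases i with _ | i
      · by_cases hv : v = 0
        · rw [hv, nv_inf]
          simpa [hx] using hZ k
        · exact (nv_int_le v hv (Z k)).trans (h1H k)
      · exact hb i.1 i.2 v k)
    (by
      intro k _
      have e1 : (∏ _v : Fin 3, H k) ^ (-(δ / 3)) = (H k) ^ (-δ) := by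
        rw [Finset.prod_const, Finset.card_univ, Fintype.card_fin]
        rw [← Real.rpow_natCast, ← Real.rpow_mul (hHpos k).le]
        congr 1
        push_cast
        ring
      rw [e1]
      have e2 : ∀ v, ∏ i, nv v (∑ j, L v i j * x k j) =
          nv v (∑ j, L v none j * x k j) * ∏ s ∈ A, nv v (u s k) := by
        intro v
        rw [Fintype.prod_option, ← Finset.prod_coe_sort A]
        congr 1
        refine Finset.prod_congr rfl ?_
        intro i _
        rw [hvsome]
      rw [Finset.prod_congr rfl (fun v _ => e2 v), Finset.prod_mul_distrib]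
      have e3 : ∏ v, ∏ s ∈ A, nv v (u s k) = 1 := by
        rw [Finset.prod_comm]
        exact Finset.prod_eq_one (fun s _ => hu.prod s k)
      rw [e3, mul_one, Fin.prod_univ_three, hv0, hv1 k 1 (by decide), hv1 k 2 (by decide)]
      have e4 := nv_int_le 1 (by decide) (Z k)
      have e5 := nv_int_le 2 (by decide) (Z k)
      have e6 : nv 1 (Z k : ℚ) * nv 2 (Z k : ℚ) ≤ 1 := by
        have := nv_nonneg 1 (Z k : ℚ)
        have := nv_nonneg 2 (Z k : ℚ)
        nlinarith
      have e7 := nv_nonneg 0 ((Z k : ℚ) - ∑ s ∈ A, c s * u s k)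
      have e8 : 0 ≤ (H k) ^ (-δ) := Real.rpow_nonneg (hHpos k).le _
      calc nv 0 ((Z k : ℚ) - ∑ s ∈ A, c s * u s k) * nv 1 (Z k : ℚ) * nv 2 (Z k : ℚ)
          = nv 0 ((Z k : ℚ) - ∑ s ∈ A, c s * u s k) * (nv 1 (Z k : ℚ) * nv 2 (Z k : ℚ)) := by ring
        _ ≤ nv 0 ((Z k : ℚ) - ∑ s ∈ A, c s * u s k) * 1 := mul_le_mul_of_nonneg_left e6 e7
        _ ≤ nv 0 (u s0 k) * (H k) ^ (-δ) := by rw [mul_one]; exact herr k
        _ ≤ 1 * (H k) ^ (-δ) := mul_le_mul_of_nonneg_right (hle k) e8
        _ = _ := one_mul _)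
  by_cases hβn : β none = 0
  · have hb0 : (fun i : {s // s ∈ A} => β (some i)) ≠ 0 := by
      intro hcon
      apply hβ0
      funext i
      rcases i with _ | i
      · exact hβn
      · exact congrFun hcon i
    obtain ⟨A', b', hA'B, hA'ne, hb', -, -, hsum⟩ := restrict_rel u A _ hb0
    apply hβinf
    refine (su h u hu A'.card A' rfl hA'ne (hrep.mono hA'B) b' hb').subset ?_
    intro k hk
    show ∑ s ∈ A', b' s * u s k = 0
    rw [hsum]
    have := hk.2
    rw [Fintype.sum_option, hβn] at this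
    simpa [hx] using this
  · have hZk : ∀ k, ∑ i, β i * x k i = 0 →
        (Z k : ℚ) = ∑ i : {s // s ∈ A}, (-(β (some i)) / β none) * u i.1 k := by
      intro k hk
      rw [Fintype.sum_option] at hk
      have h3 : ∑ i : {s // s ∈ A}, (-(β (some i)) / β none) * u i.1 k =
          -(∑ i : {s // s ∈ A}, β (some i) * u i.1 k) / β none := by
        rw [← Finset.sum_neg_distrib, Finset.sum_div]
        refine Finset.sum_congr rfl ?_
        intro i _
        ring
      rw [h3, eq_div_iff hβn]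
      have h4 : β none * x k none + ∑ i : {s // s ∈ A}, β (some i) * u i.1 k = 0 := hk
      have h5 : x k none = (Z k : ℚ) := rfl
      rw [h5] at h4
      linarith
    by_cases hcc : -(β (some ⟨s0, hs0⟩)) / β none = c s0
    · have hb0 : (fun i : {s // s ∈ A} => -(β (some i)) / β none) ≠ 0 := by
        intro hcon
        have := congrFun hcon ⟨s0, hs0⟩
        simp only [hcc] at this
        exact hc0 this
      obtain ⟨A', b', hA'B, hA'ne, hb', -, hmem, hsum⟩ := restrict_rel u A _ hb0
      have hs0' : s0 ∈ A' := hmem ⟨s0, hs0⟩ (by simp only [hcc]; exact hc0)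
      apply hβinf
      refine (sul h u hu A' (hrep.mono hA'B) b' hb' s0 hs0' 1 H hH
        (fun s hs => hb s (hA'B hs)) δ hδ).subset ?_
      intro k hk
      show nv 1 (∑ s ∈ A', b' s * u s k) ≤ nv 1 (u s0 k) * (H k) ^ (-δ)
      rw [hsum, ← hZk k hk.2]
      refine (nv_int_le 1 (by decide) (Z k)).trans ?_
      have e1 : (H k) ^ δ * (H k) ^ (-δ) = 1 := by
        rw [← Real.rpow_add (hHpos k)]
        simp
      rw [← e1]
      exact mul_le_mul_of_nonneg_right (h2 k) (Real.rpow_nonneg (hHpos k).le _)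
    · have hb0 : (fun i : {s // s ∈ A} => -(β (some i)) / β none - c i.1) ≠ 0 := by
        intro hcon
        have h3 := congrFun hcon ⟨s0, hs0⟩
        exact hcc (sub_eq_zero.1 h3)
      obtain ⟨A', b', hA'B, hA'ne, hb', -, hmem, hsum⟩ := restrict_rel u A _ hb0
      have hs0' : s0 ∈ A' := hmem ⟨s0, hs0⟩ (sub_ne_zero.2 hcc)
      apply hβinf
      refine (sul h u hu A' (hrep.mono hA'B) b' hb' s0 hs0' 0 H hH
        (fun s hs => hb s (hA'B hs)) δ hδ).subset ?_
      intro k hk
      show nv 0 (∑ s ∈ A', b' s * u s k) ≤ nv 0 (u s0 k) * (H k) ^ (-δ)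
      rw [hsum]
      have e1 : ∑ i : {s // s ∈ A}, (-(β (some i)) / β none - c i.1) * u i.1 k =
          (Z k : ℚ) - ∑ s ∈ A, c s * u s k := by
        rw [hZk k hk.2, ← Finset.sum_coe_sort A (fun s => c s * u s k), ← Finset.sum_sub_distrib]
        refine Finset.sum_congr rfl ?_
        intro i _
        ring
      rw [e1]
      exact herr k

end Pool.Agent.Helper90.NTM.Irr
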