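import Mathlib
import Pool.Agent.Helper90.NTM.Irr.SU

/-!
# S-units `4 ^ x * 3 ^ y` and the application of the Subspace theorem to them
-/

open Finset

namespace Pool.Agent.Helper90.NTM.Irr

/-- `nv v` as a homomorphism -/
noncomputable def nvHom (v : Fin 3) : ℚ →*₀ ℝ where
  toFun := nv v
  map_zero' := nv_zero v
  map_one' := by
    have h := nv_mul v 1 1
    have h1 := nv_pos v (one_ne_zero (α := ℚ))
    rw [mul_one] at h
    have : nv v 1 * (nv v 1 - 1) = 0 := by linarith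
    rcases mul_eq_zero.1 this with h2 | h2
    · linarith
    · linarith
  map_mul' := nv_mul v

lemma nv_zpow (v : Fin 3) (x : ℚ) (n : ℤ) : nv v (x ^ n) = (nv v x) ^ n :=
  map_zpow₀ (nvHom v) x n

lemma nv14 : nv 1 4 = 4⁻¹ := by
  have : Fact (Nat.Prime 2) := ⟨Nat.prime_two⟩
  have h : (4 : ℚ) = (2 : ℕ) * (2 : ℕ) := by norm_num
  rw [h, nv_mul, nv_two, padicNorm.padicNorm_p_of_prime]
  push_cast
  norm_num

lemma nv13 : nv 1 3 = 1 := by
  have : Fact (Nat.Prime 2) := ⟨Nat.prime_two⟩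
  have : Fact (Nat.Prime 3) := ⟨Nat.prime_three⟩
  have h := padicNorm.padicNorm_of_prime_of_ne (p := 2) (q := 3) (by norm_num)
  rw [nv_two]
  have h3 : ((3 : ℕ) : ℚ) = 3 := by norm_num
  rw [h3] at h
  rw [h]
  norm_num

lemma nv24 : nv 2 4 = 1 := by
  have : Fact (Nat.Prime 2) := ⟨Nat.prime_two⟩
  have : Fact (Nat.Prime 3) := ⟨Nat.prime_three⟩
  have h2 := padicNorm.padicNorm_of_prime_of_ne (p := 3) (q := 2) (by norm_num)
  have h : (4 : ℚ) = (2 : ℕ) * (2 : ℕ) := by norm_num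
  rw [h, nv_mul, nv_three, h2]
  norm_num

lemma nv23 : nv 2 3 = 3⁻¹ := by
  have : Fact (Nat.Prime 3) := ⟨Nat.prime_three⟩
  have h := padicNorm.padicNorm_p_of_prime (p := 3)
  rw [nv_three]
  have h3 : ((3 : ℕ) : ℚ) = 3 := by norm_num
  rw [h3] at h
  rw [h]
  norm_num

/-- the S-unit `4 ^ x * 3 ^ y` -/
noncomputable def un (x y : ℤ) : ℚ := 4 ^ x * 3 ^ y

lemma un_ne (x y : ℤ) : un x y ≠ 0 := by
  unfold un
  positivity

lemma nv0_un (x y : ℤ) : nv 0 (un x y) = (4 : ℝ) ^ x * 3 ^ y := by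
  unfold un
  rw [nv_inf]
  push_cast
  exact abs_of_pos (by positivity)

lemma nv1_un (x y : ℤ) : nv 1 (un x y) = (4 : ℝ) ^ (-x) := by
  unfold un
  rw [nv_mul, nv_zpow, nv_zpow, nv14, nv13, one_zpow, mul_one, zpow_neg, inv_zpow]

lemma nv2_un (x y : ℤ) : nv 2 (un x y) = (3 : ℝ) ^ (-y) := by
  unfold un
  rw [nv_mul, nv_zpow, nv_zpow, nv24, nv23, one_zpow, one_mul, zpow_neg, inv_zpow]

lemma un_int (x y : ℤ) (q : ℕ) (hq : q.Prime) (h2 : q ≠ 2) (h3 : q ≠ 3) :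
    padicNorm q (un x y) ≤ 1 := by
  have : Fact (Nat.Prime q) := ⟨hq⟩
  have : Fact (Nat.Prime 2) := ⟨Nat.prime_two⟩
  have : Fact (Nat.Prime 3) := ⟨Nat.prime_three⟩
  have e2 : padicNorm q (4 : ℚ) = 1 := by
    have h : (4 : ℚ) = (2 : ℕ) * (2 : ℕ) := by norm_num
    rw [h, padicNorm.mul, padicNorm.padicNorm_of_prime_of_ne h2]
    norm_num
  have e3 : padicNorm q (3 : ℚ) = 1 := by
    have := padicNorm.padicNorm_of_prime_of_ne (p := q) (q := 3) h3
    simpa using this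
  have key : ∀ (z : ℚ), padicNorm q z = 1 → ∀ n : ℤ, padicNorm q (z ^ n) = 1 := by
    intro z hz n
    have hn : ∀ m : ℕ, padicNorm q (z ^ m) = 1 := by
      intro m
      induction m with
      | zero => simp
      | succ m ih => rw [pow_succ, padicNorm.mul, ih, hz, one_mul]
    have hz0 : z ≠ 0 := by
      rintro rfl
      simp at hz
    rcases Int.eq_nat_or_neg n with ⟨m, rfl | rfl⟩
    · rw [zpow_natCast]; exact hn m
    · have h1 : padicNorm q (z ^ (-(m : ℤ))) * padicNorm q (z ^ m) = 1 := by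
        rw [← padicNorm.mul, zpow_neg, zpow_natCast, inv_mul_cancel₀ (pow_ne_zero _ hz0)]
        simp
      rw [hn m, mul_one] at h1
      exact h1
  unfold un
  rw [padicNorm.mul, key 4 e2, key 3 e3]
  norm_num

lemma sunits_un {σ : Type} (x y : σ → ℕ → ℤ) : SUnits (fun s k => un (x s k) (y s k)) where
  ne := fun s k => un_ne _ _
  prod := by
    intro s k
    rw [Fin.prod_univ_three, nv0_un, nv1_un, nv2_un, zpow_neg, zpow_neg]
    have h4 : (4 : ℝ) ^ (x s k) ≠ 0 := by positivity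
    have h3 : (3 : ℝ) ^ (y s k) ≠ 0 := by positivity
    field_simp
  int := fun s k q hq h2 h3 => un_int _ _ q hq h2 h3

lemma nonrep_un {σ : Type} (x y : σ → ℕ → ℤ) (A : Finset σ)
    (h : ∀ s ∈ A, ∀ s' ∈ A, s ≠ s' → ∀ d e : ℤ,
      {k | x s k - x s' k = d ∧ y s k - y s' k = e}.Finite) :
    NonRep (fun s k => un (x s k) (y s k)) A := by
  intro s hs s' hs' hne r
  by_cases hem : {k | un (x s k) (y s k) = r * un (x s' k) (y s' k)} = ∅
  · rw [hem]
    exact Set.finite_empty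
  · obtain ⟨k0, hk0⟩ := Set.nonempty_iff_ne_empty.2 hem
    refine (h s hs s' hs' hne (x s k0 - x s' k0) (y s k0 - y s' k0)).subset ?_
    intro k hk
    have e0 : un (x s k0) (y s k0) = r * un (x s' k0) (y s' k0) := hk0
    have e1 : un (x s k) (y s k) = r * un (x s' k) (y s' k) := hk
    have f0 := congrArg (nv 1) e0
    have f1 := congrArg (nv 1) e1
    have g0 := congrArg (nv 2) e0
    have g1 := congrArg (nv 2) e1
    have hr : r ≠ 0 := by
      rintro rfl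
      rw [zero_mul] at e0
      exact un_ne _ _ e0
    rw [nv_mul, nv1_un, nv1_un] at f0 f1
    rw [nv_mul, nv2_un, nv2_un] at g0 g1
    have hr1 := nv_pos 1 hr
    have hr2 := nv_pos 2 hr
    have q4 : ∀ a : ℤ, (4 : ℝ) ^ a ≠ 0 := fun a => by positivity
    have q3 : ∀ a : ℤ, (3 : ℝ) ^ a ≠ 0 := fun a => by positivity
    have i0 : (4 : ℝ) ^ (-(x s k0) - -(x s' k0)) = nv 1 r := by
      rw [zpow_sub₀ (by norm_num), f0, mul_div_assoc, div_self (q4 _), mul_one]
    have i1 : (4 : ℝ) ^ (-(x s k) - -(x s' k)) = nv 1 r := by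
      rw [zpow_sub₀ (by norm_num), f1, mul_div_assoc, div_self (q4 _), mul_one]
    have j0 : (3 : ℝ) ^ (-(y s k0) - -(y s' k0)) = nv 2 r := by
      rw [zpow_sub₀ (by norm_num), g0, mul_div_assoc, div_self (q3 _), mul_one]
    have j1 : (3 : ℝ) ^ (-(y s k) - -(y s' k)) = nv 2 r := by
      rw [zpow_sub₀ (by norm_num), g1, mul_div_assoc, div_self (q3 _), mul_one]
    have inj4 := zpow_right_injective₀ (a := (4 : ℝ)) (by norm_num) (by norm_num) (i1.trans i0.symm)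
    have inj3 := zpow_right_injective₀ (a := (3 : ℝ)) (by norm_num) (by norm_num) (j1.trans j0.symm)
    constructor
    · linarith
    · linarith

theorem thmB (h : SubspaceQ) {σ : Type} [DecidableEq σ] (x y : σ → ℕ → ℤ) (A : Finset σ)
    (hrep : ∀ s ∈ A, ∀ s' ∈ A, s ≠ s' → ∀ d e : ℤ,
      {k | x s k - x s' k = d ∧ y s k - y s' k = e}.Finite)
    (c : σ → ℚ) (s0 : σ) (hs0 : s0 ∈ A) (hc0 : c s0 ≠ 0)
    (P : ℕ → ℕ) (hP : Filter.Tendsto P Filter.atTop Filter.atTop) (C : ℕ)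
    (hx : ∀ s ∈ A, ∀ k, |x s k| ≤ C * P k) (hy : ∀ s ∈ A, ∀ k, |y s k| ≤ C * P k)
    (Z : ℕ → ℤ) (B : ℝ)
    (herr : ∀ k, |(Z k : ℝ) - ∑ s ∈ A, (c s : ℝ) * ((4 : ℝ) ^ (x s k) * 3 ^ (y s k))| ≤
      B * ((4 : ℝ) ^ (x s0 k) * 3 ^ (y s0 k)) / 4 ^ (P k))
    (hle : ∀ k, (4 : ℝ) ^ (x s0 k) * 3 ^ (y s0 k) ≤ 1) (hx0 : ∀ k, x s0 k ≤ -(P k : ℤ)) :
    False := by
  -- constants
  set K1 : ℝ := ∑ s ∈ A, |(c s : ℝ)| + |B| + 1 with hK1
  have hS0 : 0 ≤ ∑ s ∈ A, |(c s : ℝ)| := Finset.sum_nonneg (fun s _ => abs_nonneg _)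
  have hK1pos : 1 ≤ K1 := by
    have := abs_nonneg B
    linarith
  have hBK : B ≤ K1 := by
    have := le_abs_self B
    linarith
  set H : ℕ → ℝ := fun k => (12 : ℝ) ^ ((C + 1) * P k) with hH
  have hHpos : ∀ k, 0 < H k := fun k => by positivity
  have hHge1 : ∀ k, 1 ≤ H k := fun k => one_le_pow₀ (by norm_num)
  have hl12 : 0 < Real.log 12 := Real.log_pos (by norm_num)
  have hl2 : 0 < Real.log 2 := Real.log_pos (by norm_num)
  set δ : ℝ := Real.log 2 / ((C + 1) * Real.log 12) with hδdef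
  have hC1 : (0 : ℝ) < (C : ℝ) + 1 := by positivity
  have hδ : 0 < δ := by positivity
  have hHδ : ∀ k, (H k) ^ δ = 2 ^ (P k) := by
    intro k
    simp only [hH]
    rw [← Real.rpow_natCast 12, ← Real.rpow_mul (by norm_num), Real.rpow_def_of_pos (by norm_num),
      ← Real.rpow_natCast 2, Real.rpow_def_of_pos (by norm_num)]
    congr 1
    rw [hδdef]
    push_cast
    field_simp
  have hHδ' : ∀ k, (H k) ^ (-δ) = (2 ^ (P k))⁻¹ := by
    intro k
    rw [Real.rpow_neg (hHpos k).le, hHδ]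
  -- bounds on the units
  have b4 : ∀ (z : ℤ) (k : ℕ), |z| ≤ C * P k → (4 : ℝ) ^ z ≤ 4 ^ (C * P k) := by
    intro z k hz
    rw [← zpow_natCast]
    apply zpow_le_zpow_right₀ (by norm_num)
    push_cast
    exact (le_abs_self z).trans hz
  have b3 : ∀ (z : ℤ) (k : ℕ), |z| ≤ C * P k → (3 : ℝ) ^ z ≤ 3 ^ (C * P k) := by
    intro z k hz
    rw [← zpow_natCast]
    apply zpow_le_zpow_right₀ (by norm_num)
    push_cast
    exact (le_abs_self z).trans hz
  have h12 : ∀ k, (4 : ℝ) ^ (C * P k) * 3 ^ (C * P k) = 12 ^ (C * P k) := by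
    intro k
    rw [← mul_pow]
    norm_num
  have b43 : ∀ s ∈ A, ∀ k, (4 : ℝ) ^ (x s k) * 3 ^ (y s k) ≤ 12 ^ (C * P k) := by
    intro s hs k
    rw [← h12]
    exact mul_le_mul (b4 _ k (hx s hs k)) (b3 _ k (hy s hs k)) (by positivity) (by positivity)
  have h12H : ∀ k, (12 : ℝ) ^ (C * P k) ≤ H k := by
    intro k
    simp only [hH]
    apply pow_le_pow_right₀ (by norm_num)
    nlinarith
  have hbound : ∀ s ∈ A, ∀ v k, nv v (un (x s k) (y s k)) ≤ H k := by
    intro s hs v k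
    refine le_trans ?_ (h12H k)
    fin_cases v
    · show nv 0 _ ≤ _
      rw [nv0_un]
      exact b43 s hs k
    · show nv 1 _ ≤ _
      rw [nv1_un, ← h12]
      have e1 := b4 (-(x s k)) k (by rw [abs_neg]; exact hx s hs k)
      have e2 : (1 : ℝ) ≤ 3 ^ (C * P k) := one_le_pow₀ (by norm_num)
      have e3 : (0 : ℝ) ≤ 4 ^ (C * P k) := by positivity
      nlinarith
    · show nv 2 _ ≤ _
      rw [nv2_un, ← h12]
      have e1 := b3 (-(y s k)) k (by rw [abs_neg]; exact hy s hs k)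
      have e2 : (1 : ℝ) ≤ 4 ^ (C * P k) := one_le_pow₀ (by norm_num)
      have e3 : (0 : ℝ) ≤ 3 ^ (C * P k) := by positivity
      nlinarith
  -- eventually
  have hPR : Filter.Tendsto (fun k => (2 : ℝ) ^ (P k)) Filter.atTop Filter.atTop :=
    (tendsto_pow_atTop_atTop_of_one_lt (by norm_num)).comp hP
  obtain ⟨k0, hk0⟩ := Filter.eventually_atTop.1 (hPR.eventually_ge_atTop K1)
  have hHtend : Filter.Tendsto (fun k => H (k + k0)) Filter.atTop Filter.atTop := by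
    apply Filter.tendsto_atTop_mono (f := fun k => (2 : ℝ) ^ (P (k + k0)))
    · intro k
      simp only [hH]
      calc (2 : ℝ) ^ (P (k + k0)) ≤ 12 ^ (P (k + k0)) :=
            pow_le_pow_left₀ (by norm_num) (by norm_num) _
        _ ≤ 12 ^ ((C + 1) * P (k + k0)) := by
            apply pow_le_pow_right₀ (by norm_num)
            nlinarith
    · exact hPR.comp (Filter.tendsto_add_atTop_nat k0)
  refine thmA h (fun s k => un (x s (k + k0)) (y s (k + k0)))
    (sunits_un (fun s k => x s (k + k0)) (fun s k => y s (k + k0))) A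
    (nonrep_un (fun s k => x s (k + k0)) (fun s k => y s (k + k0)) A ?_) c s0 hs0 hc0
    (fun k => H (k + k0)) hHtend (fun s hs v k => hbound s hs v (k + k0)) (fun k => Z (k + k0))
    ?_ (fun k => hHge1 (k + k0)) δ hδ ?_ ?_ ?_
  · intro s hs s' hs' hne d e
    exact Set.Finite.preimage (f := fun k => k + k0)
      (Set.injOn_of_injective (add_left_injective k0)) (hrep s hs s' hs' hne d e)
  · intro k
    have e1 := herr (k + k0)
    have e2 : |∑ s ∈ A, (c s : ℝ) * ((4 : ℝ) ^ (x s (k + k0)) * 3 ^ (y s (k + k0)))| ≤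
        (∑ s ∈ A, |(c s : ℝ)|) * 12 ^ (C * P (k + k0)) := by
      refine (Finset.abs_sum_le_sum_abs _ _).trans ?_
      rw [Finset.sum_mul]
      refine Finset.sum_le_sum ?_
      intro s hs
      rw [abs_mul, abs_of_pos (a := (4 : ℝ) ^ (x s (k + k0)) * 3 ^ (y s (k + k0))) (by positivity)]
      exact mul_le_mul_of_nonneg_left (b43 s hs _) (abs_nonneg _)
    have e3 : B * ((4 : ℝ) ^ (x s0 (k + k0)) * 3 ^ (y s0 (k + k0))) / 4 ^ (P (k + k0)) ≤ |B| := by
      have f1 : (1 : ℝ) ≤ 4 ^ (P (k + k0)) := one_le_pow₀ (by norm_num)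
      have f2 : (0 : ℝ) ≤ (4 : ℝ) ^ (x s0 (k + k0)) * 3 ^ (y s0 (k + k0)) := by positivity
      rw [div_le_iff₀ (by positivity)]
      have f3 := le_abs_self B
      have f4 := abs_nonneg B
      have f5 := hle (k + k0)
      nlinarith [mul_le_mul_of_nonneg_left f5 f4, mul_le_mul_of_nonneg_right f3 f2]
    have e4 : (1 : ℝ) ≤ 12 ^ (C * P (k + k0)) := one_le_pow₀ (by norm_num)
    have e5 : |(Z (k + k0) : ℝ)| ≤ K1 * 12 ^ (C * P (k + k0)) := by
      have g1 := abs_sub_abs_le_abs_sub (Z (k + k0) : ℝ)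
        (∑ s ∈ A, (c s : ℝ) * ((4 : ℝ) ^ (x s (k + k0)) * 3 ^ (y s (k + k0))))
      have g2 : |B| ≤ |B| * 12 ^ (C * P (k + k0)) := by
        nlinarith [abs_nonneg B]
      rw [hK1]
      nlinarith
    refine e5.trans ?_
    simp only [hH]
    have e6 : K1 ≤ 12 ^ (P (k + k0)) := by
      refine (hk0 (k + k0) (by omega)).trans ?_
      exact pow_le_pow_left₀ (by norm_num) (by norm_num) _
    calc K1 * 12 ^ (C * P (k + k0)) ≤ 12 ^ (P (k + k0)) * 12 ^ (C * P (k + k0)) :=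
          mul_le_mul_of_nonneg_right e6 (by positivity)
      _ = 12 ^ ((C + 1) * P (k + k0)) := by
          rw [← pow_add]
          congr 1
          ring
  · intro k
    have e1 := herr (k + k0)
    show nv 0 ((Z (k + k0) : ℚ) - ∑ s ∈ A, c s * un (x s (k + k0)) (y s (k + k0))) ≤
      nv 0 (un (x s0 (k + k0)) (y s0 (k + k0))) * (H (k + k0)) ^ (-δ)
    rw [nv_inf, nv0_un, hHδ']
    have e2 : (((Z (k + k0) : ℚ) - ∑ s ∈ A, c s * un (x s (k + k0)) (y s (k + k0)) : ℚ) : ℝ) =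
        (Z (k + k0) : ℝ) -
          ∑ s ∈ A, (c s : ℝ) * ((4 : ℝ) ^ (x s (k + k0)) * 3 ^ (y s (k + k0))) := by
      unfold un
      push_cast
      rfl
    rw [e2]
    refine e1.trans ?_
    have f1 : (4 : ℝ) ^ (P (k + k0)) = 2 ^ (P (k + k0)) * 2 ^ (P (k + k0)) := by
      rw [← mul_pow]
      norm_num
    have f2 : (0 : ℝ) < 2 ^ (P (k + k0)) := by positivity
    have f3 : (0 : ℝ) < (4 : ℝ) ^ (x s0 (k + k0)) * 3 ^ (y s0 (k + k0)) := by positivity
    have f4 : B ≤ 2 ^ (P (k + k0)) := hBK.trans (hk0 (k + k0) (by omega))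
    rw [f1, div_le_iff₀ (by positivity)]
    have f5 : ((4 : ℝ) ^ (x s0 (k + k0)) * 3 ^ (y s0 (k + k0))) * (2 ^ (P (k + k0)))⁻¹ *
        (2 ^ (P (k + k0)) * 2 ^ (P (k + k0))) =
        ((4 : ℝ) ^ (x s0 (k + k0)) * 3 ^ (y s0 (k + k0))) * 2 ^ (P (k + k0)) := by
      field_simp
    rw [f5]
    nlinarith [mul_le_mul_of_nonneg_right f4 f3.le]
  · intro k
    show nv 0 (un (x s0 (k + k0)) (y s0 (k + k0))) ≤ 1
    rw [nv0_un]
    exact hle _
  · intro k
    show (H (k + k0)) ^ δ ≤ nv 1 (un (x s0 (k + k0)) (y s0 (k + k0)))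
    rw [hHδ, nv1_un]
    have e1 := hx0 (k + k0)
    calc (2 : ℝ) ^ (P (k + k0)) ≤ 4 ^ (P (k + k0)) :=
          pow_le_pow_left₀ (by norm_num) (by norm_num) _
      _ = (4 : ℝ) ^ ((P (k + k0) : ℕ) : ℤ) := (zpow_natCast _ _).symm
      _ ≤ (4 : ℝ) ^ (-(x s0 (k + k0))) := by
          apply zpow_le_zpow_right₀ (by norm_num)
          linarith

end Pool.Agent.Helper90.NTM.Irr
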