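import Mathlib
import Pool.Agent.Helper90.NTM.Irr.Slots
import Pool.Agent.Helper90.NTM.Irr.Units

/-!
# Irrationality of the constant, from the Subspace theorem
-/

open Finset Filter Topology

namespace Pool.Agent.Helper90.NTM.Irr

/-- exponents of 2, 3, 5 in `al c / be c` -/
def cA : Fin 4 → ℤ := ![0, -1, 1, -2]
def cB : Fin 4 → ℤ := ![0, 0, 0, -1]
def cC : Fin 4 → ℤ := ![0, 0, -1, 1]

lemma cls_log (c : Fin 4) : Real.log (al c) - Real.log (be c) =
    cA c * Real.log 2 + cB c * Real.log 3 + cC c * Real.log 5 := by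
  fin_cases c
  · simp [al, be, cA, cB, cC]
  · simp [al, be, cA, cB, cC]
  · simp [al, be, cA, cB, cC]
    ring
  · simp [al, be, cA, cB, cC, log12]
    ring

lemma cls_ne (c c' : Fin 4) (d m : ℤ) (h : c ≠ c' ∨ d ≠ 0 ∨ m ≠ 0) :
    (Real.log (al c) - Real.log (be c)) - (Real.log (al c') - Real.log (be c')) +
      d * Real.log 4 ≠ m * Real.log 3 := by
  intro heq
  rw [cls_log, cls_log, log4] at heq
  have h1 := indep (cA c - cA c' + 2 * d) (cB c - cB c' - m) (cC c - cC c')
    (by push_cast; linarith)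
  obtain ⟨h2, h3, h4⟩ := h1
  have hcc : c = c' := by
    fin_cases c <;> fin_cases c' <;> simp [cA, cC] at h2 h4 ⊢ <;> omega
  subst hcc
  omega

lemma sepA (c c' : Fin 4) (d : ℤ) (h : c ≠ c' ∨ d ≠ 0) : ∃ δ : ℝ, 0 < δ ∧ ∀ m : ℤ,
    δ ≤ |(Real.log (al c) - Real.log (be c)) - (Real.log (al c') - Real.log (be c')) +
      d * Real.log 4 - m * Real.log 3| := by
  apply sep _ _ log34.1
  intro m
  apply cls_ne
  tauto

lemma sepB (c c' : Fin 4) (d : ℤ) (h : c ≠ c' ∨ d ≠ 0) : ∃ δ : ℝ, 0 < δ ∧ ∀ m : ℤ,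
    δ ≤ |(Real.log (al c) - Real.log (be c)) - (Real.log (al c') - Real.log (be c')) -
      d * Real.log 3 - m * Real.log 4| := by
  apply sep _ _ (log34.1.trans log34.2)
  intro m hcon
  apply cls_ne c c' (-m) d (by tauto)
  push_cast
  linarith

lemma sign_cast (z : ℤ) (h : |z| ≤ 1) : ((SignType.sign z : SignType) : ℤ) = z := by
  rw [abs_le] at h
  have : z = -1 ∨ z = 0 ∨ z = 1 := by omega
  rcases this with h | h | h <;> rw [h] <;> decide

lemma sign_ne (s : SignType) (h : s ≠ 0) : ((s : SignType) : ℤ) ≠ 0 := by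
  revert h
  revert s
  decide

lemma fin_of_ev {p : ℕ → Prop} (h : ∀ᶠ k in atTop, ¬ p k) : {k | p k}.Finite := by
  rw [← Nat.cofinite_eq_atTop, Filter.eventually_cofinite] at h
  refine h.subset ?_
  intro k hk
  simpa using hk

theorem irr (h : SubspaceQ) : Irrational lam := by
  rintro ⟨r, hr⟩
  replace hr : lam = r := hr.symm
  have hεpos : ∀ k : ℕ, 0 < c0 / ((k : ℝ) + 1) := fun k => div_pos c0_pos (by positivity)
  have hεle : ∀ k : ℕ, c0 / ((k : ℝ) + 1) ≤ c0 := by
    intro k
    apply div_le_self c0_pos.le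
    have : (0 : ℝ) ≤ k := by positivity
    linarith
  have hne := fun k : ℕ => exists_data r hr (c0 / ((k : ℝ) + 1)) (hεpos k) (hεle k)
  set d0 : ∀ k : ℕ, Data r (c0 / ((k : ℝ) + 1)) := fun k => Classical.choice (hne k) with hd0
  -- pigeonhole on the signs
  obtain ⟨⟨sa, sb⟩, hinf⟩ := pig
    (fun k => ((fun a => SignType.sign ((d0 k).DA a), fun b => SignType.sign ((d0 k).DB b)) :
      (Fin 4 × Fin 2 → SignType) × (Fin 4 × Fin 3 → SignType))) Set.univ Set.infinite_univ
  obtain ⟨φ, hφ, hφK⟩ := Filter.extraction_of_frequently_atTop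
    (Nat.frequently_atTop_iff_infinite.2 hinf)
  set D := fun k => d0 (φ k) with hD
  have hDA : ∀ k a, (D k).DA a = (sa a : ℤ) := by
    intro k a
    have h1 := (hφK k).2
    have h2 : (fun a => SignType.sign ((D k).DA a)) = sa := congrArg Prod.fst h1
    rw [← h2]
    exact (sign_cast _ ((D k).DA1 a)).symm
  have hDB : ∀ k b, (D k).DB b = (sb b : ℤ) := by
    intro k b
    have h1 := (hφK k).2
    have h2 : (fun b => SignType.sign ((D k).DB b)) = sb := congrArg Prod.snd h1
    rw [← h2]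
    exact (sign_cast _ ((D k).DB1 b)).symm
  -- the displacement tends to 0
  have hEev : ∀ δ : ℝ, 0 < δ → ∀ᶠ k in atTop, 2 * |ee (D k).p (D k).q| < δ := by
    intro δ hδ
    have h1 : Tendsto (fun k : ℕ => c0 / ((k : ℝ) + 1)) atTop (𝓝 0) :=
      tendsto_const_nhds.div_atTop (tendsto_atTop_add_const_right _ _ tendsto_natCast_atTop_atTop)
    have h2 := h1.comp hφ.tendsto_atTop
    have h3 := h2.eventually (gt_mem_nhds (half_pos hδ))
    filter_upwards [h3] with k hk
    have := (D k).he
    simp only [Function.comp_apply] at hk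
    linarith
  have hpev : ∀ n : ℕ, ∀ᶠ k in atTop, n < (D k).p := by
    intro n
    induction n with
    | zero => exact Eventually.of_forall (fun k => (D k).p1)
    | succ n ih =>
      obtain ⟨δ, hδ, hδ2⟩ := sepA 0 0 (n + 1) (Or.inr (by omega))
      filter_upwards [ih, hEev δ hδ] with k hk1 hk2
      have hne : (D k).p ≠ n + 1 := by
        intro hcon
        have h1 := hδ2 ((D k).q)
        have h2 : (Real.log (al 0) - Real.log (be 0)) - (Real.log (al 0) - Real.log (be 0)) +
            (((n : ℤ) + 1 : ℤ) : ℝ) * Real.log 4 - (((D k).q : ℤ) : ℝ) * Real.log 3 =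
            -(ee (D k).p (D k).q) := by
          unfold ee
          rw [hcon]
          push_cast
          ring
        rw [h2, abs_neg] at h1
        have := abs_nonneg (ee (D k).p (D k).q)
        linarith
      omega
  have hPev : ∀ n : ℕ, ∀ᶠ k in atTop, n < (D k).P := by
    intro n
    filter_upwards [hpev n] with k hk
    have := (D k).pP
    omega
  have hPt : Tendsto (fun k => (D k).P) atTop atTop := by
    rw [tendsto_atTop]
    intro n
    filter_upwards [hPev n] with k hk
    omega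
  -- separation of the slots
  have hA2 : ∀ a, sa a ≠ 0 → ∀ z : ℤ, ∀ᶠ k in atTop, ((D k).IA a : ℤ) ≠ z := by
    intro a ha z
    have hact : ∀ k, (D k).DA a ≠ 0 := by
      intro k
      rw [hDA]
      exact sign_ne _ ha
    by_cases hz : z = 0
    · exact Eventually.of_forall (fun k => by have := (D k).IA1 a (hact k); omega)
    · obtain ⟨δ, hδ, hδ2⟩ := sepA a.1 0 z (Or.inr hz)
      filter_upwards [hEev δ hδ] with k hk hcon
      obtain ⟨j, hj⟩ := (D k).IAe a (hact k)
      have h1 := hδ2 j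
      have h2 := ev_abs hj
      have h3 : vv (al a.1) (be a.1) ((D k).IA a) j =
          (Real.log (al a.1) - Real.log (be a.1)) - (Real.log (al 0) - Real.log (be 0)) +
            (z : ℝ) * Real.log 4 - ((j : ℤ) : ℝ) * Real.log 3 := by
        have h4 : (((D k).IA a : ℕ) : ℝ) = (z : ℝ) := by
          rw [← hcon]
          push_cast
          rfl
        unfold vv
        rw [h4]
        simp [al, be]
      rw [h3] at h2
      have := abs_nonneg (ee (D k).p (D k).q)
      linarith
  have hB2 : ∀ b, sb b ≠ 0 → ∀ z : ℤ, ∀ᶠ k in atTop, ((D k).JB b : ℤ) ≠ z := by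
    intro b hb z
    have hact : ∀ k, (D k).DB b ≠ 0 := by
      intro k
      rw [hDB]
      exact sign_ne _ hb
    by_cases hz : z = 0
    · exact Eventually.of_forall (fun k => by have := (D k).JB1 b (hact k); omega)
    · obtain ⟨δ, hδ, hδ2⟩ := sepB b.1 0 z (Or.inr hz)
      filter_upwards [hEev δ hδ] with k hk hcon
      obtain ⟨i, hi⟩ := (D k).JBe b (hact k)
      have h1 := hδ2 (-i)
      have h2 := ev_abs hi
      have h3 : vv (al b.1) (be b.1) i ((D k).JB b) =
          (Real.log (al b.1) - Real.log (be b.1)) - (Real.log (al 0) - Real.log (be 0)) -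
            (z : ℝ) * Real.log 3 - ((-(i : ℤ) : ℤ) : ℝ) * Real.log 4 := by
        have h4 : (((D k).JB b : ℕ) : ℝ) = (z : ℝ) := by
          rw [← hcon]
          push_cast
          rfl
        unfold vv
        rw [h4]
        simp [al, be]
        ring
      rw [h3] at h2
      have := abs_nonneg (ee (D k).p (D k).q)
      linarith
  have hA1 : ∀ a a', sa a ≠ 0 → sa a' ≠ 0 → a ≠ a' → ∀ z : ℤ,
      ∀ᶠ k in atTop, ((D k).IA a : ℤ) - (D k).IA a' ≠ z := by
    intro a a' ha ha' hne z
    have hact : ∀ k, (D k).DA a ≠ 0 := by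
      intro k
      rw [hDA]
      exact sign_ne _ ha
    have hact' : ∀ k, (D k).DA a' ≠ 0 := by
      intro k
      rw [hDA]
      exact sign_ne _ ha'
    by_cases hcl : a.1 = a'.1
    · filter_upwards [hPev z.natAbs] with k hk hcon
      have := (D k).spA a a' hne hcl (hact k) (hact' k)
      rw [hcon, Int.abs_eq_natAbs] at this
      omega
    · obtain ⟨δ, hδ, hδ2⟩ := sepA a.1 a'.1 z (Or.inl hcl)
      filter_upwards [hEev δ hδ] with k hk hcon
      obtain ⟨j, hj⟩ := (D k).IAe a (hact k)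
      obtain ⟨j', hj'⟩ := (D k).IAe a' (hact' k)
      have h1 := hδ2 ((j : ℤ) - j')
      have h2 := ev_abs hj
      have h2' := ev_abs hj'
      have h3 : vv (al a.1) (be a.1) ((D k).IA a) j - vv (al a'.1) (be a'.1) ((D k).IA a') j' =
          (Real.log (al a.1) - Real.log (be a.1)) - (Real.log (al a'.1) - Real.log (be a'.1)) +
            (z : ℝ) * Real.log 4 - (((j : ℤ) - j' : ℤ) : ℝ) * Real.log 3 := by
        rw [← hcon]
        unfold vv
        push_cast
        ring
      rw [← h3] at h1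
      have h5 := abs_sub (vv (al a.1) (be a.1) ((D k).IA a) j)
        (vv (al a'.1) (be a'.1) ((D k).IA a') j')
      linarith
  have hB1 : ∀ b b', sb b ≠ 0 → sb b' ≠ 0 → b ≠ b' → ∀ z : ℤ,
      ∀ᶠ k in atTop, ((D k).JB b : ℤ) - (D k).JB b' ≠ z := by
    intro b b' hb hb' hne z
    have hact : ∀ k, (D k).DB b ≠ 0 := by
      intro k
      rw [hDB]
      exact sign_ne _ hb
    have hact' : ∀ k, (D k).DB b' ≠ 0 := by
      intro k
      rw [hDB]
      exact sign_ne _ hb'
    by_cases hcl : b.1 = b'.1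
    · filter_upwards [hPev z.natAbs] with k hk hcon
      have := (D k).spB b b' hne hcl (hact k) (hact' k)
      rw [hcon, Int.abs_eq_natAbs] at this
      omega
    · obtain ⟨δ, hδ, hδ2⟩ := sepB b.1 b'.1 z (Or.inl hcl)
      filter_upwards [hEev δ hδ] with k hk hcon
      obtain ⟨i, hi⟩ := (D k).JBe b (hact k)
      obtain ⟨i', hi'⟩ := (D k).JBe b' (hact' k)
      have h1 := hδ2 (-((i : ℤ) - i'))
      have h2 := ev_abs hi
      have h2' := ev_abs hi'
      have h3 : vv (al b.1) (be b.1) i ((D k).JB b) - vv (al b'.1) (be b'.1) i' ((D k).JB b') =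
          (Real.log (al b.1) - Real.log (be b.1)) - (Real.log (al b'.1) - Real.log (be b'.1)) -
            (z : ℝ) * Real.log 3 - ((-((i : ℤ) - i') : ℤ) : ℝ) * Real.log 4 := by
        rw [← hcon]
        unfold vv
        push_cast
        ring
      rw [← h3] at h1
      have h5 := abs_sub (vv (al b.1) (be b.1) i ((D k).JB b))
        (vv (al b'.1) (be b'.1) i' ((D k).JB b'))
      linarith
  -- the units
  set xs : (Fin 4 × Fin 2) × Bool ⊕ (Fin 4 × Fin 3) × Bool → ℕ → ℤ := fun s k =>
    match s with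
    | Sum.inl (a, _) => -((D k).IA a : ℤ)
    | Sum.inr (_, false) => (D k).p
    | Sum.inr (_, true) => 0 with hxs
  set ys : (Fin 4 × Fin 2) × Bool ⊕ (Fin 4 × Fin 3) × Bool → ℕ → ℤ := fun s k =>
    match s with
    | Sum.inl (_, false) => (D k).q
    | Sum.inl (_, true) => 0
    | Sum.inr (b, _) => -((D k).JB b : ℤ) with hys
  set cf : (Fin 4 × Fin 2) × Bool ⊕ (Fin 4 × Fin 3) × Bool → ℚ := fun s =>
    match s with
    | Sum.inl (a, false) => 3 * g1 a.1 * r.den * (sa a : ℤ)
    | Sum.inl (a, true) => -(3 * g1 a.1 * r.den * (sa a : ℤ))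
    | Sum.inr (b, false) => 2 * g2 b.1 * r.den * (sb b : ℤ)
    | Sum.inr (b, true) => -(2 * g2 b.1 * r.den * (sb b : ℤ)) with hcf
  set A : Finset ((Fin 4 × Fin 2) × Bool ⊕ (Fin 4 × Fin 3) × Bool) :=
    Finset.univ.filter (fun s => cf s ≠ 0) with hAdef
  have hsa : ∀ a t, Sum.inl (a, t) ∈ A → sa a ≠ 0 := by
    intro a t hmem hcon
    have h1 := (Finset.mem_filter.1 hmem).2
    apply h1
    cases t <;> simp [hcf, hcon]
  have hsb : ∀ b t, Sum.inr (b, t) ∈ A → sb b ≠ 0 := by
    intro b t hmem hcon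
    have h1 := (Finset.mem_filter.1 hmem).2
    apply h1
    cases t <;> simp [hcf, hcon]
  have hdenR : (0 : ℝ) < r.den := by
    have := r.den_pos
    exact_mod_cast this
  have hq : ∀ (z : ℤ) (k : ℕ), z.natAbs < (D k).p → (((D k).q : ℤ) ≠ z ∧ ((D k).p : ℤ) ≠ z ∧
      -((D k).q : ℤ) ≠ z ∧ -((D k).p : ℤ) ≠ z) := by
    intro z k hk
    have := (D k).pq
    omega
  refine thmB h xs ys A ?_ cf (Sum.inl ((0, 1), false)) ?_ ?_ (fun k => (D k).P) hPt 3 ?_ ?_
    (fun k => (D k).Z) (6000 * r.den) ?_ ?_ ?_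
  · intro s hs s' hs' hne dx dy
    apply fin_of_ev
    rcases s with ⟨a, t⟩ | ⟨b, t⟩ <;> rcases s' with ⟨a', t'⟩ | ⟨b', t'⟩
    · by_cases htt : t = t'
      · have hne' : a ≠ a' := by
          intro hcon
          exact hne (by rw [hcon, htt])
        filter_upwards [hA1 a a' (hsa _ _ hs) (hsa _ _ hs') hne' (-dx)] with k hk hcon
        have h1 : -((D k).IA a : ℤ) - -((D k).IA a' : ℤ) = dx := hcon.1
        omega
      · filter_upwards [hpev dy.natAbs] with k hk hcon
        have h2 := hcon.2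
        have h3 := hq dy k hk
        cases t <;> cases t' <;> simp only [hys] at h2 <;> first | exact htt rfl | omega
    · filter_upwards [hpev dy.natAbs, hpev dx.natAbs, hA2 a (hsa _ _ hs) (-dx)] with k hk hk2 hk3 hcon
      have h1 := hcon.1
      have h2 := hcon.2
      have h3 := (D k).pq
      cases t <;> cases t' <;> simp only [hxs, hys] at h1 h2 <;> omega
    · filter_upwards [hpev dy.natAbs, hpev dx.natAbs, hA2 a' (hsa _ _ hs') dx] with k hk hk2 hk3 hcon
      have h1 := hcon.1
      have h2 := hcon.2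
      have h3 := (D k).pq
      cases t <;> cases t' <;> simp only [hxs, hys] at h1 h2 <;> omega
    · by_cases htt : t = t'
      · have hne' : b ≠ b' := by
          intro hcon
          exact hne (by rw [hcon, htt])
        filter_upwards [hB1 b b' (hsb _ _ hs) (hsb _ _ hs') hne' (-dy)] with k hk hcon
        have h1 : -((D k).JB b : ℤ) - -((D k).JB b' : ℤ) = dy := hcon.2
        omega
      · filter_upwards [hpev dx.natAbs] with k hk hcon
        have h2 := hcon.1
        have h3 := hq dx k hk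
        cases t <;> cases t' <;> simp only [hxs] at h2 <;> first | exact htt rfl | omega
  · refine Finset.mem_filter.2 ⟨Finset.mem_univ _, ?_⟩
    have h1 : ((sa (0, 1) : SignType) : ℤ) ≠ 0 := by
      rw [← hDA 0]
      exact (D 0).main.1
    have h2 : ((((sa (0, 1) : SignType) : ℤ)) : ℚ) ≠ 0 := by exact_mod_cast h1
    have h3 : (g1 0 : ℚ) ≠ 0 := by exact_mod_cast g1_ne 0
    have h4 : (r.den : ℚ) ≠ 0 := by exact_mod_cast r.den_ne_zero
    show (3 * (g1 0 : ℚ) * r.den * ((sa (0, 1) : ℤ) : ℚ)) ≠ 0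
    exact mul_ne_zero (mul_ne_zero (mul_ne_zero (by norm_num) h3) h4) h2
  · have h1 : ((sa (0, 1) : SignType) : ℤ) ≠ 0 := by
      rw [← hDA 0]
      exact (D 0).main.1
    have h2 : ((((sa (0, 1) : SignType) : ℤ)) : ℚ) ≠ 0 := by exact_mod_cast h1
    have h3 : (g1 0 : ℚ) ≠ 0 := by exact_mod_cast g1_ne 0
    have h4 : (r.den : ℚ) ≠ 0 := by exact_mod_cast r.den_ne_zero
    show (3 * (g1 0 : ℚ) * r.den * ((sa (0, 1) : ℤ) : ℚ)) ≠ 0
    exact mul_ne_zero (mul_ne_zero (mul_ne_zero (by norm_num) h3) h4) h2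
  · intro s hs k
    have hpP := (D k).pP
    rcases s with ⟨a, t⟩ | ⟨b, t⟩
    · have h1 := (D k).IA2 a (by rw [hDA]; exact sign_ne _ (hsa _ _ hs))
      show |-((D k).IA a : ℤ)| ≤ _
      rw [abs_neg, abs_of_nonneg (by omega)]
      push_cast
      omega
    · cases t
      · show |((D k).p : ℤ)| ≤ _
        rw [abs_of_nonneg (by omega)]
        push_cast
        omega
      · show |(0 : ℤ)| ≤ _
        rw [abs_zero]
        positivity
  · intro s hs k
    have hpP := (D k).pP
    have hq2 := (D k).q2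
    rcases s with ⟨a, t⟩ | ⟨b, t⟩
    · cases t
      · show |((D k).q : ℤ)| ≤ _
        rw [abs_of_nonneg (by omega)]
        push_cast
        omega
      · show |(0 : ℤ)| ≤ _
        rw [abs_zero]
        positivity
    · have h1 := (D k).JB2 b (by rw [hDB]; exact sign_ne _ (hsb _ _ hs))
      show |-((D k).JB b : ℤ)| ≤ _
      rw [abs_neg, abs_of_nonneg (by omega)]
      push_cast
      omega
  · intro k
    have herr := (D k).err
    have hsum : ∑ s ∈ A, (cf s : ℝ) * ((4 : ℝ) ^ (xs s k) * 3 ^ (ys s k)) =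
        r.den * (∑ a, 3 * (g1 a.1 : ℝ) * (3 ^ (D k).q - 1) *
          (((D k).DA a : ℝ) / 4 ^ ((D k).IA a)) +
        ∑ b, 2 * (g2 b.1 : ℝ) * (4 ^ (D k).p - 1) * (((D k).DB b : ℝ) / 3 ^ ((D k).JB b))) := by
      rw [hAdef, Finset.sum_filter_of_ne]
      · rw [Fintype.sum_sum_type, mul_add, mul_sum, mul_sum]
        congr 1
        · rw [Fintype.sum_prod_type]
          refine Finset.sum_congr rfl ?_
          intro a _
          rw [Fintype.sum_bool]
          simp only [hcf, hxs, hys]
          rw [hDA k a, zpow_neg, zpow_natCast, zpow_natCast, zpow_zero]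
          generalize ((sa a : SignType) : ℤ) = z
          push_cast
          field_simp
          ring
        · rw [Fintype.sum_prod_type]
          refine Finset.sum_congr rfl ?_
          intro b _
          rw [Fintype.sum_bool]
          simp only [hcf, hxs, hys]
          rw [hDB k b, zpow_neg, zpow_natCast, zpow_natCast, zpow_zero]
          generalize ((sb b : SignType) : ℤ) = z
          push_cast
          field_simp
          ring
      · intro s _ hne hcon
        apply hne
        rw [hcon]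
        simp
    rw [hsum]
    refine herr.trans ?_
    show 3000 * (r.den : ℝ) * 4 ^ (D k).p / 4 ^ (2 * (D k).P) ≤
      6000 * (r.den : ℝ) * ((4 : ℝ) ^ (-((D k).IA (0, 1) : ℤ)) * 3 ^ (((D k).q : ℕ) : ℤ)) /
        4 ^ (D k).P
    rw [(D k).main.2, zpow_neg, zpow_natCast, zpow_natCast, two_mul, pow_add]
    have h43 := (D k).h43
    have hX : (0 : ℝ) < 4 ^ (D k).P := by positivity
    rw [div_le_div_iff₀ (by positivity) hX]
    have e1 : 6000 * (r.den : ℝ) * (((4 : ℝ) ^ (D k).P)⁻¹ * 3 ^ (D k).q) *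
        (4 ^ (D k).P * 4 ^ (D k).P) = 6000 * (r.den : ℝ) * 3 ^ (D k).q * 4 ^ (D k).P := by
      field_simp
    rw [e1]
    have e2 : 0 < (r.den : ℝ) * 4 ^ (D k).P := by positivity
    nlinarith
  · intro k
    show (4 : ℝ) ^ (-((D k).IA (0, 1) : ℤ)) * 3 ^ (((D k).q : ℕ) : ℤ) ≤ 1
    rw [(D k).main.2, zpow_neg, zpow_natCast, zpow_natCast]
    have hX : (0 : ℝ) < 4 ^ (D k).P := by positivity
    rw [inv_mul_le_iff₀ hX, mul_one]
    have h1 := (D k).h34
    have h2 : (4 : ℝ) ^ ((D k).p + 1) ≤ 4 ^ (D k).P :=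
      pow_le_pow_right₀ (by norm_num) (D k).pP
    rw [pow_succ] at h2
    have h3 : (0 : ℝ) < 4 ^ (D k).p := by positivity
    linarith
  · intro k
    show -((D k).IA (0, 1) : ℤ) ≤ _
    rw [(D k).main.2]

end Pool.Agent.Helper90.NTM.Irr
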