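import Mathlib
import Pool.Agent.SST.Seq
import Pool.Agent.Helper90.NTM.Irr.SU

/-!
# The Subspace theorem for the places infinity, 2, 3
-/

open Finset

namespace Pool.Agent.Helper90.NTM.Irr

open Pool.Agent.SST Matrix

theorem subspaceQ : SubspaceQ := by
  intro ι _ hc L hL ε hε x M K hK hx hint hM hp
  classical
  have hfreq : ∃ᶠ k in Filter.atTop, k ∈ K := Nat.frequently_atTop_iff_infinite.2 hK
  obtain ⟨φ, hφ, hφK⟩ := Filter.extraction_of_frequently_atTop hfreq
  have hS : ∀ p ∈ ({2, 3} : Finset ℕ), p.Prime := by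
    intro p hp
    simp only [Finset.mem_insert, Finset.mem_singleton] at hp
    rcases hp with rfl | rfl
    · exact Nat.prime_two
    · exact Nat.prime_three
  set pl : Option ({2, 3} : Finset ℕ) → Fin 3 := fun v =>
    match v with
    | none => 0
    | some p => if p.1 = 2 then 1 else 2 with hpl
  have hplc : ∀ v (y : ℚ), plc {2, 3} hS v y = nv (pl v) y := by
    intro v y
    rcases v with _ | ⟨p, hp⟩
    · rw [plc_none_apply, nv_inf]
    · rw [plc_some_apply]
      have hp' := hp
      simp only [Finset.mem_insert, Finset.mem_singleton] at hp'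
      rcases hp' with rfl | rfl
      · simp [hpl, nv_two]
      · simp [hpl, nv_three]
  have hprod : ∀ f : Fin 3 → ℝ, ∏ v, f (pl v) = ∏ v, f v := by
    intro f
    rw [Fintype.prod_option, Fin.prod_univ_three]
    have h1 : ∏ p : ({2, 3} : Finset ℕ), f (pl (some p)) =
        ∏ p ∈ ({2, 3} : Finset ℕ), f (if p = 2 then 1 else 2) := by
      rw [← Finset.prod_coe_sort ({2, 3} : Finset ℕ)]
    rw [h1, Finset.prod_pair (by norm_num)]
    simp [hpl, mul_assoc]
  obtain ⟨β, hβ, hfr⟩ := subspace_seq hc {2, 3} hS (fun v => Matrix.of (L (pl v)))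
    (by
      intro v
      rw [← Matrix.isUnit_iff_isUnit_det, ← Matrix.mulVec_injective_iff_isUnit]
      have hinj0 : ∀ y : ι → ℚ, (Matrix.of (L (pl v))) *ᵥ y = 0 → y = 0 := by
        intro y hy
        apply hL (pl v) y
        intro i
        exact congrFun hy i
      intro y z hyz
      have h1 : (Matrix.of (L (pl v))) *ᵥ (y - z) = 0 := by
        rw [Matrix.mulVec_sub]
        exact sub_eq_zero.2 hyz
      exact sub_eq_zero.1 (hinj0 _ h1)) ε hε (fun k => x (φ k)) (fun k => hx _ (hφK k))
    (by
      intro k i q hq hqS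
      simp only [Finset.mem_insert, Finset.mem_singleton, not_or] at hqS
      exact hint _ (hφK k) i q hq hqS.1 hqS.2)
    (fun k => ∏ v, M (φ k) v)
    (by
      intro k
      refine ⟨fun v => M (φ k) (pl v), ?_, ?_⟩
      · intro v i
        rw [hplc]
        exact hM _ (hφK k) _ i
      · rw [hprod])
    (by
      intro k
      have h1 : ∀ v i, plc {2, 3} hS v (((Matrix.of (L (pl v))) *ᵥ x (φ k)) i) =
          nv (pl v) (∑ j, L (pl v) i j * x (φ k) j) := by
        intro v i
        rw [hplc]
        rfl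
      simp only [h1]
      rw [hprod (fun v => ∏ i, nv v (∑ j, L v i j * x (φ k) j))]
      exact hp _ (hφK k))
  refine ⟨β, hβ, ?_⟩
  have hinf := Nat.frequently_atTop_iff_infinite.1 hfr
  have himg := hinf.image (f := φ) (hφ.injective.injOn)
  refine himg.mono ?_
  rintro _ ⟨k, hk, rfl⟩
  exact ⟨hφK k, hk⟩

end Pool.Agent.Helper90.NTM.Irr
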